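import Mathlib
import Pool.Agent.Lib.MP_eacabd_co.Gold8.Switch8

/-!
Switching of the Gold functions in the wide sense: statements of the modules.
-/

set_option autoImplicit false

namespace Pool.Agent.Lib.MP_eacabd_co.Wide8

open Finset Pool.Agent.Lib.MP_eacabd_co Pool.Agent.Lib.MP_eacabd_co.Gold8

/-- (COMB) the combinatorial core: coefficients `f M` of the monomials of degree `d` -/
def StComb : Prop := ∀ (n : ℕ) [NeZero n], 5 ≤ n → ∀ (F : Type) [Field F] [CharP F 2]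
    (f : Finset (ZMod n) → F) (d : ℕ), 2 ≤ d →
    (∀ (M : Finset (ZMod n)) (c e : ZMod n), M.card = d → c + 1 ∈ M → c ∉ M → c - 1 ∉ M →
      e + 1 ∈ M → e ≠ c → e ≠ c + 1 → e ≠ c - 1 → f M = 0) →
    (∀ (M : Finset (ZMod n)) (c e : ZMod n), M.card = d → c - 1 ∉ M → c ∈ M → c + 1 ∈ M →
      e - 1 ∈ M → e + 1 ∈ M → e ≠ c → e ≠ c + 1 → e ≠ c - 1 →
      f M = f (insert (c - 1) (M.erase c))) →
    (∀ E : Finset (ZMod n), E.card + 1 = d → ∑ k ∈ univ \ E, f (insert k E) *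
      (1 + (if k - 1 ∈ E then 1 else 0) + (if k + 1 ∈ E then 1 else 0)) = 0) →
    (3 ≤ d → d + 2 ≤ n → ∀ M : Finset (ZMod n), M.card = d → f M = 0) ∧
    (d = 2 → ∀ a b : ZMod n, a ≠ b → b ≠ a + 1 → a ≠ b + 1 → f {a, b} = 0) ∧
    (d = n → f univ = 0) ∧
    (d + 1 = n → ∀ a b : ZMod n, f (univ.erase a) = f (univ.erase b))

/-- (PLANE) the weighted sum over the planes `{0, A, B, A + B}` with `A^(2^i) B + A B^(2^i) = κ`;
`φ A` is the common value of the weight on the planes which contain `A` -/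
def StPlane : Prop := ∀ (i n : ℕ) [NeZero n], Nat.Coprime i n → ∀ (F : Type) [Field F] [Fintype F]
    [DecidableEq F] [CharP F 2], Fintype.card F = 2 ^ n → ∀ (κ : F), κ ≠ 0 →
    ∀ (δ : F → F → F), (∀ A B, δ B A = δ A B) → (∀ A B, δ (A + B) B = δ A B) →
    ∀ (h : F → F) (x : F),
    (∀ A B, A ^ (2 ^ i) * B + A * B ^ (2 ^ i) = κ →
      h (x + 1) + h (x + A) + h (x + B) + h (x + A + B) = 0) →
    ∀ (φ : F → F), (∀ A y, A ≠ 0 → A ^ (2 ^ i + 1) * (y ^ (2 ^ i) + y) = κ → φ A = δ A (A * y)) →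
    ∑ A ∈ univ.erase (0 : F), (1 + tr n (κ / A ^ (2 ^ i + 1))) * φ A * (h (x + A) + h (x + 1)) = 0

/-- the relation satisfied by the Boolean function -/
def Rel {F : Type} [Field F] (i : ℕ) (κ : F) (h : F → F) : Prop :=
  ∀ x A B : F, A ^ (2 ^ i) * B + A * B ^ (2 ^ i) = κ + x ^ (2 ^ i) + x →
    h (x + 1) + h (x + A) + h (x + B) + h (x + A + B) = 0

/-- (RIGID) rigidity for the directions which are not vertical -/
def Rigid (i n : ℕ) (F : Type) [Field F] : Prop := ∀ (κ : F) (h : F → F),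
  (∀ x, h x = 0 ∨ h x = 1) → tr n κ = 1 → Rel i κ h →
  ∃ α γ c : F, ∀ x, h x = tr n (α * x) + tr n (γ * x ^ (2 ^ i + 1)) + c

/-- (BRIDGE) one coordinate of a function CCZ-equivalent to the Gold function is changed -/
def StBridge : Prop := ∀ (i n : ℕ), 5 ≤ n → Nat.Coprime i n → ∀ (F : Type) [Field F] [Fintype F],
    Fintype.card F = 2 ^ n → Rigid i n F → ∀ (G H : F → F) (u : F) (f : F → F),
    CCZ G (fun x => x ^ (2 ^ i + 1)) → (∀ x, f x = 0 ∨ f x = 1) → (∀ x, H x = G x + u * f x) →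
    IsAPN H →
    CCZ H (fun x => x ^ (2 ^ i + 1)) ∨
      ∃ (w : F) (k : F → F), (∀ x, k x = 0 ∨ k x = 1) ∧
        IsAPN (fun x => x ^ (2 ^ i + 1) + w * k x) ∧
        CCZ H (fun x => x ^ (2 ^ i + 1) + w * k x)

/-- (CCZ) general facts -/
def StCCZ : Prop := (∀ (F : Type) [Field F] [Finite F] (G : F → F), CCZ G G) ∧
  (∀ (F : Type) [Field F] [Finite F] (G H : F → F), CCZ G H → CCZ H G) ∧
  (∀ (F : Type) [Field F] [Finite F] (G H K : F → F), CCZ G H → CCZ H K → CCZ G K) ∧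
  (∀ (F : Type) [Field F] [Finite F] [CharP F 2] (G H : F → F), CCZ G H → IsAPN G → IsAPN H) ∧
  (∀ (F : Type) [Field F] [Finite F] [CharP F 2] (G H : F → F), EA G H → CCZ G H)

end Pool.Agent.Lib.MP_eacabd_co.Wide8
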