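import Mathlib
import Pool.Agent.Lib.MP_eacabd_co.Wide8.Stmts
import Pool.Agent.Lib.MP_eacabd_co.Gold8.Sol

/-!
Switching of the Gold functions in the wide sense: general facts on CCZ-equivalence, and the bridge
from one changed coordinate of a function CCZ-equivalent to the Gold function.
-/

set_option autoImplicit false

namespace Pool.Agent.Lib.MP_eacabd_co.Wide8

open Finset Pool.Agent.Lib.MP_eacabd_co Pool.Agent.Lib.MP_eacabd_co.Gold8

namespace BrAux

/-! ### CCZ-equivalence with a parametrisation -/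

/-- an affine permutation that maps graph onto graph -/
theorem param {F : Type} [Field F] {G H : F → F} {L : (F × F) ≃+ (F × F)} {c : F × F}
    (h : (fun p => L p + c) '' {p : F × F | p.2 = G p.1} = {p : F × F | p.2 = H p.1}) :
    ∃ σ : F → F, Function.Bijective σ ∧ ∀ x, L (x, G x) + c = (σ x, H (σ x)) := by
  have h1 : ∀ x, L (x, G x) + c = ((L (x, G x) + c).1, H (L (x, G x) + c).1) := by
    intro x
    have h2 : L (x, G x) + c ∈ {p : F × F | p.2 = H p.1} := h ▸ ⟨(x, G x), rfl, rfl⟩
    exact Prod.ext rfl h2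
  refine ⟨fun x => (L (x, G x) + c).1, ⟨fun x y hxy => ?_, fun y => ?_⟩, h1⟩
  · have h2 : L (x, G x) + c = L (y, G y) + c := by
      dsimp only at hxy
      rw [h1 x, h1 y, hxy]
    exact congrArg Prod.fst (L.injective (add_right_cancel h2))
  · have h2 : (y, H y) ∈ (fun p => L p + c) '' {p : F × F | p.2 = G p.1} := by
      rw [h]
      exact rfl
    obtain ⟨⟨a, b⟩, hab, h3⟩ := h2
    obtain rfl : b = G a := hab
    exact ⟨a, congrArg Prod.fst h3⟩

theorem ccz_iff {F : Type} [Field F] {G H : F → F} : CCZ G H ↔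
    ∃ (L : (F × F) ≃+ (F × F)) (c : F × F) (σ : F → F), Function.Bijective σ ∧
      ∀ x, L (x, G x) + c = (σ x, H (σ x)) := by
  constructor
  · rintro ⟨L, c, h⟩
    exact ⟨L, c, param h⟩
  · rintro ⟨L, c, σ, hσ, h⟩
    refine ⟨L, c, Set.ext fun p => ⟨?_, ?_⟩⟩
    · rintro ⟨⟨a, b⟩, hab, rfl⟩
      obtain rfl : b = G a := hab
      show (L (a, G a) + c).2 = H (L (a, G a) + c).1
      rw [h]
    · intro hp
      obtain ⟨x, hx⟩ := hσ.2 p.1
      refine ⟨(x, G x), rfl, ?_⟩
      show L (x, G x) + c = p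
      rw [h, hx]
      exact Prod.ext rfl (Eq.symm hp)

theorem ccz_refl {F : Type} [Field F] (G : F → F) : CCZ G G :=
  ccz_iff.2 ⟨AddEquiv.refl _, 0, id, Function.bijective_id, fun x => by simp⟩

theorem ccz_symm {F : Type} [Field F] {G H : F → F} (h : CCZ G H) : CCZ H G := by
  obtain ⟨L, c, σ, hσ, h⟩ := ccz_iff.1 h
  obtain ⟨τ, h1, h2⟩ := Function.bijective_iff_has_inverse.1 hσ
  refine ccz_iff.2 ⟨L.symm, -L.symm c, τ,
    Function.bijective_iff_has_inverse.2 ⟨σ, h2, h1⟩, fun y => ?_⟩
  have h3 := h (τ y)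
  rw [h2 y] at h3
  rw [← h3, map_add, AddEquiv.symm_apply_apply, add_neg_cancel_right]

theorem ccz_trans {F : Type} [Field F] {G H K : F → F} (h : CCZ G H) (h' : CCZ H K) :
    CCZ G K := by
  obtain ⟨L, c, σ, hσ, h⟩ := ccz_iff.1 h
  obtain ⟨L', c', σ', hσ', h'⟩ := ccz_iff.1 h'
  refine ccz_iff.2 ⟨L.trans L', L' c + c', σ' ∘ σ, hσ'.comp hσ, fun x => ?_⟩
  rw [Function.comp_apply, ← h', ← h, map_add, AddEquiv.trans_apply, add_assoc]

/-! ### The Sidon property -/

/-- four different points of the graph do not sum to zero -/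
def Sid {F : Type} [Field F] (G : F → F) : Prop :=
  ∀ a b c d : F, a + b + c + d = 0 → G a + G b + G c + G d = 0 → a = b ∨ a = c ∨ a = d

theorem sid_of_apn {F : Type} [Field F] [Finite F] [CharP F 2] {G : F → F} (h : IsAPN G) :
    Sid G := by
  intro a b c d h1 h2
  have two : (2 : F) = 0 := CharTwo.two_eq_zero
  by_contra hcon
  push Not at hcon
  obtain ⟨hab, hac, had⟩ := hcon
  have hbc : b ≠ c := by
    rintro rfl
    apply had
    linear_combination h1 - (b + d) * two
  refine apn_ne h (x := a + b) (y := a + c) ?_ ?_ ?_ a ?_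
  · rw [Ne, CharTwo.add_eq_zero]
    exact hab
  · rw [Ne, CharTwo.add_eq_zero]
    exact hac
  · intro h3
    exact hbc (add_left_cancel h3)
  · have e1 : a + (a + b) + (a + c) = d := by linear_combination h1 + (a - d) * two
    have e2 : a + (a + b) = b := by linear_combination a * two
    have e3 : a + (a + c) = c := by linear_combination a * two
    rw [e1, e2, e3]
    linear_combination h2

theorem apn_of_sid {F : Type} [Field F] [CharP F 2] {G : F → F} (h : Sid G) :
    IsAPN G := by
  intro a b ha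
  have two : (2 : F) = 0 := CharTwo.two_eq_zero
  rcases Set.eq_empty_or_nonempty {x : F | G (x + a) + G x = b} with h0 | ⟨x₀, hx₀⟩
  · rw [h0, Set.ncard_empty]
    exact Nat.zero_le _
  · have hx₀' : G (x₀ + a) + G x₀ = b := hx₀
    have h1 : {x : F | G (x + a) + G x = b} ⊆ {x₀, x₀ + a} := by
      intro x hx
      have hx' : G (x + a) + G x = b := hx
      rcases h x x₀ (x + a) (x₀ + a) (by linear_combination (x + x₀ + a) * two)
        (by linear_combination hx' + hx₀' + b * two) with h2 | h2 | h2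
      · exact Or.inl h2
      · exact absurd (left_eq_add.1 h2) ha
      · exact Or.inr h2
    refine (Set.ncard_le_ncard h1 (Set.toFinite _)).trans ?_
    exact (Set.ncard_insert_le _ _).trans (by rw [Set.ncard_singleton])

/-- sums of four points of an affine image -/
theorem four {F : Type} [Field F] [CharP F 2] (L : (F × F) ≃+ (F × F)) (c p q r s : F × F)
    (h : p + q + r + s = 0) : (L p + c) + (L q + c) + (L r + c) + (L s + c) = 0 := by
  have two : ∀ z : F × F, z + z = 0 := fun z =>
    Prod.ext (CharTwo.add_self_eq_zero _) (CharTwo.add_self_eq_zero _)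
  have e : (L p + c) + (L q + c) + (L r + c) + (L s + c) =
      L (p + q + r + s) + ((c + c) + (c + c)) := by
    rw [map_add, map_add, map_add]
    abel
  rw [e, h, map_zero, zero_add, two (c + c)]

theorem sid_ccz {F : Type} [Field F] [CharP F 2] {G H : F → F} (h : CCZ G H) (hH : Sid H) :
    Sid G := by
  obtain ⟨L, c, σ, hσ, h⟩ := ccz_iff.1 h
  intro x y z t h1 h2
  have h3 := four L c (x, G x) (y, G y) (z, G z) (t, G t) (Prod.ext h1 h2)
  rw [h, h, h, h] at h3
  rcases hH _ _ _ _ (congrArg Prod.fst h3) (congrArg Prod.snd h3) with h4 | h4 | h4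
  · exact Or.inl (hσ.1 h4)
  · exact Or.inr (Or.inl (hσ.1 h4))
  · exact Or.inr (Or.inr (hσ.1 h4))

theorem ccz_of_ea {F : Type} [Field F] [Finite F] {G H : F → F} (h : EA G H) : CCZ G H := by
  obtain ⟨A, B, C, c, d, h⟩ := h
  let L : (F × F) ≃+ (F × F) :=
    { toFun := fun p => (B p.1, A.symm (p.2 - C p.1))
      invFun := fun q => (B.symm q.1, A q.2 + C (B.symm q.1))
      left_inv := fun p => by simp
      right_inv := fun q => by simp
      map_add' := fun p q => by
        refine Prod.ext (map_add B _ _) ?_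
        show A.symm (p.2 + q.2 - C (p.1 + q.1)) =
          A.symm (p.2 - C p.1) + A.symm (q.2 - C q.1)
        rw [← map_add, map_add C]
        congr 1
        abel }
  have hL : ∀ p : F × F, L p = (B p.1, A.symm (p.2 - C p.1)) := fun _ => rfl
  refine ccz_iff.2 ⟨L, (c, -A.symm d), fun x => B x + c,
    (AddGroup.addRight_bijective c).comp B.bijective, fun x => ?_⟩
  rw [hL]
  refine Prod.ext rfl ?_
  show A.symm (G x - C x) + -A.symm d = H (B x + c)
  rw [← sub_eq_add_neg, ← map_sub, AddEquiv.symm_apply_eq, h]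
  abel

/-! ### The trace -/

section

variable {F : Type} [Field F] [Fintype F] [DecidableEq F] [CharP F 2]

omit [Fintype F] [DecidableEq F] in
theorem tr_add (n : ℕ) (x y : F) : tr n (x + y) = tr n x + tr n y := (tau F n).map_add x y

omit [Fintype F] [DecidableEq F] in
theorem tr_zero (n : ℕ) : tr n (0 : F) = 0 := (tau F n).map_zero

theorem tr_pow {n i : ℕ} [NeZero n] (hc : Nat.Coprime i n) (hF : Fintype.card F = 2 ^ n) (w : F) :
    tr n (w ^ (2 ^ i)) = tr n w := by
  have h := tr_phi hc hF w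
  rw [tr_add] at h
  exact CharTwo.add_eq_zero.1 h

/-- the relation is not empty -/
theorem exists_rel {n i : ℕ} [NeZero n] (hn : 5 ≤ n) (hc : Nat.Coprime i n)
    (hF : Fintype.card F = 2 ^ n) {κ : F} (hκ : tr n κ = 1) :
    ∃ x A B : F, A ^ (2 ^ i) * B + A * B ^ (2 ^ i) = κ + x ^ (2 ^ i) + x := by
  have two : (2 : F) = 0 := CharTwo.two_eq_zero
  have h1 : ∃ A : F, A ^ (2 ^ i) + A ≠ 0 ∧ A ^ (2 ^ i) + A ≠ 1 := by
    by_contra hcon
    push Not at hcon
    have h2 : ((phi F i).range : Set F) ⊆ {0, 1} := by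
      rintro _ ⟨A, rfl⟩
      by_cases h3 : A ^ (2 ^ i) + A = 0
      · exact Or.inl h3
      · exact Or.inr (hcon A h3)
    have h3 : Nat.card (phi F i).range ≤ 2 := by
      have e2 : Nat.card (phi F i).range = ((phi F i).range : Set F).ncard := rfl
      rw [e2]
      exact (Set.ncard_le_ncard h2 (Set.toFinite _)).trans (Set.ncard_pair zero_ne_one).le
    have h4 := card_phi (F := F) hc hF
    have h5 : 2 ^ 5 ≤ 2 ^ n := Nat.pow_le_pow_right (by norm_num) hn
    omega
  obtain ⟨A, hA0, hA1⟩ := h1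
  set D : F := (A ^ (2 ^ i)) ^ (2 ^ i) + A with hD
  have hD0 : D ≠ 0 := by
    intro h2
    rcases fix_two hc hF (y := A ^ (2 ^ i) + A) (by
      rw [add_pow_char_pow]
      linear_combination h2 - A * two) with h3 | h3
    · exact hA0 h3
    · exact hA1 h3
  obtain ⟨B, hB⟩ := Finite.surjective_of_injective (iterateFrobenius F 2 i).injective (κ / D)
  rw [iterateFrobenius_def] at hB
  have h3 : tr n (A ^ (2 ^ i) * B + A * B ^ (2 ^ i)) = 1 := by
    rw [tr_add, ← tr_pow hc hF (A ^ (2 ^ i) * B), ← tr_add, mul_pow, ← add_mul, ← hD, hB,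
      mul_div_cancel₀ _ hD0, hκ]
  obtain ⟨x, hx⟩ := exists_y hc hF (w := κ + (A ^ (2 ^ i) * B + A * B ^ (2 ^ i))) (by
    rw [tr_add, hκ, h3]
    exact CharTwo.add_self_eq_zero 1)
  refine ⟨x, A, B, ?_⟩
  linear_combination -hx - κ * two

end

/-- the graph of the changed function -/
theorem hLh {F : Type} [Field F] {i : ℕ} {G H : F → F} {u : F} {f : F → F}
    (L : (F × F) ≃+ (F × F)) (c : F × F) (σ : F → F)
    (hL : ∀ x, L (x, x ^ (2 ^ i + 1)) + c = (σ x, G (σ x))) {v : F × F} (hv : L v = (0, u))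
    (hf : ∀ x, f x = 0 ∨ f x = 1) (hH : ∀ x, H x = G x + u * f x) (x : F) :
    L ((x, x ^ (2 ^ i + 1)) + (f (σ x) * v.1, f (σ x) * v.2)) + c = (σ x, H (σ x)) := by
  rw [hH]
  rcases hf (σ x) with h0 | h0
  · rw [h0, zero_mul, zero_mul, mul_zero, add_zero, ← hL]
    congr 2
    exact add_zero _
  · rw [h0, one_mul, one_mul, mul_one, map_add, add_right_comm, hL]
    show _ + L v = _
    rw [hv]
    exact Prod.ext (add_zero _) rfl

end BrAux

theorem ccz : StCCZ := by
  refine ⟨fun F _ _ G => BrAux.ccz_refl G, fun F _ _ G H h => BrAux.ccz_symm h,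
    fun F _ _ G H K h h' => BrAux.ccz_trans h h', fun F _ _ _ G H h hG => ?_,
    fun F _ _ _ G H h => BrAux.ccz_of_ea h⟩
  exact BrAux.apn_of_sid (BrAux.sid_ccz (BrAux.ccz_symm h) (BrAux.sid_of_apn hG))

/-- The direction is not vertical: the changed function is CCZ-equivalent to the Gold function. -/
theorem nonvert {i n : ℕ} (hn : 5 ≤ n) (hc : Nat.Coprime i n) {F : Type} [Field F] [Fintype F]
    (hF : Fintype.card F = 2 ^ n) (hR : Rigid i n F) (G H : F → F) (u : F) (f : F → F)
    (L : (F × F) ≃+ (F × F)) (c : F × F) (σ : F → F) (hσ : Function.Bijective σ)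
    (hL : ∀ x, L (x, x ^ (2 ^ i + 1)) + c = (σ x, G (σ x))) (hv1 : (L.symm (0, u)).1 ≠ 0)
    (hf : ∀ x, f x = 0 ∨ f x = 1) (hH : ∀ x, H x = G x + u * f x) (hapn : IsAPN H) :
    CCZ H (fun x => x ^ (2 ^ i + 1)) := by
  classical
  have hchar : CharP F 2 := charP_of_card_eq_prime_pow (p := 2) (f := n) (by simpa using hF)
  have : NeZero n := ⟨by omega⟩
  have two : (2 : F) = 0 := CharTwo.two_eq_zero
  have hu : u ≠ 0 := by
    rintro rfl
    apply hv1
    have h0 : ((0, 0) : F × F) = 0 := rfl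
    rw [h0, map_zero]
    rfl
  set v : F × F := L.symm (0, u) with hvdef
  have hv : L v = (0, u) := by rw [hvdef, AddEquiv.apply_symm_apply]
  have hLh := BrAux.hLh L c σ hL hv hf hH
  set a : F := v.1 with ha
  have hag : a ^ (2 ^ i + 1) ≠ 0 := pow_ne_zero _ hv1
  set w : F := v.2 / a ^ (2 ^ i + 1) with hw
  have hw2 : a ^ (2 ^ i + 1) * w = v.2 := mul_div_cancel₀ _ hag
  -- the scaled map
  let D : (F × F) ≃+ (F × F) :=
    { toFun := fun p => (a * p.1, a ^ (2 ^ i + 1) * p.2)
      invFun := fun q => (a⁻¹ * q.1, (a ^ (2 ^ i + 1))⁻¹ * q.2)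
      left_inv := fun p => Prod.ext (inv_mul_cancel_left₀ hv1 _) (inv_mul_cancel_left₀ hag _)
      right_inv := fun p => Prod.ext (mul_inv_cancel_left₀ hv1 _) (mul_inv_cancel_left₀ hag _)
      map_add' := fun p q => Prod.ext (mul_add _ _ _) (mul_add _ _ _) }
  have hD : ∀ p : F × F, D p = (a * p.1, a ^ (2 ^ i + 1) * p.2) := fun _ => rfl
  set τ : F → F := fun x => σ (a * x) with hτ
  have hτb : Function.Bijective τ := hσ.comp (mulLeft_bijective₀ a hv1)
  set h : F → F := fun x => f (τ x) with hh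
  have h01 : ∀ x, h x = 0 ∨ h x = 1 := fun x => hf _
  have hN : ∀ x, L (D ((x, x ^ (2 ^ i + 1)) + (h x, h x * w))) + c = (τ x, H (τ x)) := by
    intro x
    have h1 := hLh (a * x)
    rw [← h1, hD]
    congr 2
    refine Prod.ext ?_ ?_
    · show a * (x + f (σ (a * x))) = a * x + f (σ (a * x)) * a
      ring
    · show a ^ (2 ^ i + 1) * (x ^ (2 ^ i + 1) + f (σ (a * x)) * w) =
        (a * x) ^ (2 ^ i + 1) + f (σ (a * x)) * v.2
      rw [← hw2, mul_pow]
      ring
  have hN0 : ∀ x, L (D (x, x ^ (2 ^ i + 1))) + c = (τ x, G (τ x)) := by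
    intro x
    rw [hD, ← mul_pow]
    exact hL (a * x)
  have hDv : L (D (1, w)) = (0, u) := by
    rw [hD, ← hv]
    congr 1
    exact Prod.ext (mul_one _) hw2
  have gold : ∀ x : F, (x + 1) ^ (2 ^ i + 1) = x ^ (2 ^ i + 1) + x ^ (2 ^ i) + x + 1 := by
    intro x
    rw [pow_succ, add_pow_char_pow, one_pow]
    ring
  -- the direction is not a difference of two points
  have hdir : ∀ y : F, y ^ (2 ^ i) + y ≠ w + 1 := by
    intro y hy
    have h1 := hN0 (y + 1)
    have h2 := hN0 y
    have h3 : ((y + 1, (y + 1) ^ (2 ^ i + 1)) : F × F) = (y, y ^ (2 ^ i + 1)) + (1, w) := by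
      refine Prod.ext rfl ?_
      show (y + 1) ^ (2 ^ i + 1) = y ^ (2 ^ i + 1) + w
      rw [gold]
      linear_combination hy + two
    rw [h3, map_add, map_add, hDv, add_right_comm, h2] at h1
    have h4 : τ y = τ (y + 1) := by
      have := congrArg Prod.fst h1
      simpa using this
    have h5 : G (τ y) + u = G (τ (y + 1)) := congrArg Prod.snd h1
    rw [← h4] at h5
    exact hu (add_eq_left.1 h5)
  have htr : tr n (w + 1) = 1 := by
    rcases zero_or_one_of_sq (tr_sq hF (w + 1)) with h0 | h0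
    · obtain ⟨y, hy⟩ := exists_y hc hF h0
      exact absurd hy (hdir y)
    · exact h0
  have hSid := BrAux.sid_of_apn hapn
  have hRel : Rel i (w + 1) h := by
    intro x A B hAB
    have h3 : ∀ y, y ^ (2 ^ i) + y = w + 1 → False := fun y hy => hdir y hy
    have hs : (h (x + 1) + h (x + A) + h (x + B) + h (x + A + B)) ^ 2 =
        h (x + 1) + h (x + A) + h (x + B) + h (x + A + B) := by
      have e : ∀ y, h y ^ 2 = h y := by
        intro y
        rcases h01 y with h0 | h0 <;> rw [h0] <;> norm_num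
      linear_combination e (x + 1) + e (x + A) + e (x + B) + e (x + A + B) +
        (h (x + 1) * h (x + A) + h (x + 1) * h (x + B) + h (x + 1) * h (x + A + B) +
          h (x + A) * h (x + B) + h (x + A) * h (x + A + B) + h (x + B) * h (x + A + B)) * two
    rcases zero_or_one_of_sq hs with h0 | h0
    · exact h0
    exfalso
    have e1 := gold x
    have h4 := BrAux.four (D.trans L) c ((x + 1, (x + 1) ^ (2 ^ i + 1)) + (h (x + 1), h (x + 1) * w))
      ((x + A, (x + A) ^ (2 ^ i + 1)) + (h (x + A), h (x + A) * w))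
      ((x + B, (x + B) ^ (2 ^ i + 1)) + (h (x + B), h (x + B) * w))
      ((x + A + B, (x + A + B) ^ (2 ^ i + 1)) + (h (x + A + B), h (x + A + B) * w)) (by
        refine Prod.ext ?_ ?_
        · show x + 1 + h (x + 1) + (x + A + h (x + A)) + (x + B + h (x + B)) +
            (x + A + B + h (x + A + B)) = 0
          linear_combination h0 + (2 * x + A + B + 1) * two
        · show (x + 1) ^ (2 ^ i + 1) + h (x + 1) * w + ((x + A) ^ (2 ^ i + 1) + h (x + A) * w) +
            ((x + B) ^ (2 ^ i + 1) + h (x + B) * w) +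
            ((x + A + B) ^ (2 ^ i + 1) + h (x + A + B) * w) = 0
          have e2 := gold_second i x A B
          linear_combination e1 + e2 + w * h0 + hAB + (x ^ (2 ^ i) + x + 1 + w) * two)
    simp only [AddEquiv.trans_apply] at h4
    rw [hN, hN, hN, hN] at h4
    rcases hSid _ _ _ _ (congrArg Prod.fst h4) (congrArg Prod.snd h4) with h5 | h5 | h5
    · have h6 : 1 = A := add_left_cancel (hτb.1 h5)
      subst h6
      apply h3 (B + x)
      rw [add_pow_char_pow]
      rw [one_pow, one_mul, one_mul] at hAB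
      linear_combination hAB + (x ^ (2 ^ i) + x) * two
    · have h6 : 1 = B := add_left_cancel (hτb.1 h5)
      subst h6
      apply h3 (A + x)
      rw [add_pow_char_pow]
      rw [one_pow, mul_one, mul_one] at hAB
      linear_combination hAB + (x ^ (2 ^ i) + x) * two
    · have h6 : 1 = A + B := add_left_cancel ((hτb.1 h5).trans (add_assoc _ _ _))
      have h7 : B = A + 1 := by linear_combination -h6 - A * two
      subst h7
      apply h3 (A + x)
      rw [add_pow_char_pow]
      rw [add_pow_char_pow, one_pow] at hAB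
      linear_combination hAB + (x ^ (2 ^ i) + x - A ^ (2 ^ i) * A) * two
  obtain ⟨α, γ, c₀, hα⟩ := hR (w + 1) h h01 htr hRel
  -- the additive function
  set lam : F × F → F := fun p => tr n (α * p.1) + tr n (γ * p.2) with hlam
  have hlam_add : ∀ p q, lam (p + q) = lam p + lam q := by
    intro p q
    show tr n (α * (p.1 + q.1)) + tr n (γ * (p.2 + q.2)) =
      tr n (α * p.1) + tr n (γ * p.2) + (tr n (α * q.1) + tr n (γ * q.2))
    rw [mul_add, mul_add, BrAux.tr_add, BrAux.tr_add]
    ring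
  have hlam0 : lam 0 = 0 := by
    have := hlam_add 0 0
    rw [add_zero] at this
    exact add_eq_left.1 this.symm
  have hlam01 : ∀ p, lam p = 0 ∨ lam p = 1 := by
    intro p
    apply zero_or_one_of_sq
    show (tr n (α * p.1) + tr n (γ * p.2)) ^ 2 = tr n (α * p.1) + tr n (γ * p.2)
    linear_combination tr_sq hF (α * p.1) + tr_sq hF (γ * p.2) +
      tr n (α * p.1) * tr n (γ * p.2) * two
  have hlamv : lam (1, w) = 0 := by
    obtain ⟨x, A, B, hAB⟩ := BrAux.exists_rel hn hc hF htr
    have h1 := hRel x A B hAB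
    have h2 : ∀ y, h y = lam (y, y ^ (2 ^ i + 1)) + c₀ := fun y => hα y
    rw [h2, h2, h2, h2] at h1
    have h3 : lam ((x + 1, (x + 1) ^ (2 ^ i + 1)) + (x + A, (x + A) ^ (2 ^ i + 1)) +
        (x + B, (x + B) ^ (2 ^ i + 1)) + (x + A + B, (x + A + B) ^ (2 ^ i + 1))) = 0 := by
      rw [hlam_add, hlam_add, hlam_add]
      linear_combination h1 - 2 * c₀ * two
    rw [← h3]
    congr 1
    refine Prod.ext ?_ ?_
    · show 1 = x + 1 + (x + A) + (x + B) + (x + A + B)
      linear_combination -(2 * x + A + B) * two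
    · show w = (x + 1) ^ (2 ^ i + 1) + (x + A) ^ (2 ^ i + 1) + (x + B) ^ (2 ^ i + 1) +
        (x + A + B) ^ (2 ^ i + 1)
      have e1 := gold x
      have e2 := gold_second i x A B
      linear_combination -e1 - e2 - hAB + (-x ^ (2 ^ i) - x - 1) * two
  have hinv : ∀ p : F × F, p + (lam p, lam p * w) +
      (lam (p + (lam p, lam p * w)), lam (p + (lam p, lam p * w)) * w) = p := by
    intro p
    have h1 : lam (p + (lam p, lam p * w)) = lam p := by
      rw [hlam_add]
      rcases hlam01 p with h0 | h0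
      · rw [h0, zero_mul]
        show 0 + lam 0 = 0
        rw [hlam0, add_zero]
      · rw [h0, one_mul, hlamv, add_zero]
    rw [h1, add_assoc]
    have h2 : ((lam p, lam p * w) : F × F) + (lam p, lam p * w) = 0 :=
      Prod.ext (CharTwo.add_self_eq_zero _) (CharTwo.add_self_eq_zero _)
    rw [h2, add_zero]
  let M : (F × F) ≃+ (F × F) :=
    { toFun := fun p => p + (lam p, lam p * w)
      invFun := fun p => p + (lam p, lam p * w)
      left_inv := hinv
      right_inv := hinv
      map_add' := fun p q => by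
        rw [hlam_add]
        refine Prod.ext ?_ ?_
        · show p.1 + q.1 + (lam p + lam q) = p.1 + lam p + (q.1 + lam q)
          ring
        · show p.2 + q.2 + (lam p + lam q) * w = p.2 + lam p * w + (q.2 + lam q * w)
          ring }
  have hM : ∀ p : F × F, M p = p + (lam p, lam p * w) := fun _ => rfl
  apply BrAux.ccz_symm
  refine BrAux.ccz_iff.2 ⟨(M.trans D).trans L, L (D (c₀, c₀ * w)) + c, τ, hτb, fun x => ?_⟩
  rw [← hN x, AddEquiv.trans_apply, AddEquiv.trans_apply, ← add_assoc, ← map_add, ← map_add]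
  congr 3
  rw [hM, add_assoc]
  congr 1
  have h2 : h x = lam (x, x ^ (2 ^ i + 1)) + c₀ := hα x
  rw [h2]
  refine Prod.ext rfl ?_
  show lam (x, x ^ (2 ^ i + 1)) * w + c₀ * w = (lam (x, x ^ (2 ^ i + 1)) + c₀) * w
  ring

theorem bridge : StBridge := by
  intro i n hn hc F _ _ hF hR G H u f hG hf hH hapn
  classical
  have hchar : CharP F 2 := charP_of_card_eq_prime_pow (p := 2) (f := n) (by simpa using hF)
  obtain ⟨L, c, σ, hσ, hL⟩ := BrAux.ccz_iff.1 (BrAux.ccz_symm hG)
  by_cases hv1 : (L.symm (0, u)).1 = 0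
  · right
    have hv : L (L.symm (0, u)) = (0, u) := by rw [AddEquiv.apply_symm_apply]
    have hLh := BrAux.hLh L c σ hL hv hf hH
    have h1 : CCZ (fun x => x ^ (2 ^ i + 1) + (L.symm (0, u)).2 * f (σ x)) H := by
      refine BrAux.ccz_iff.2 ⟨L, c, σ, hσ, fun x => ?_⟩
      rw [← hLh x, hv1]
      congr 2
      exact Prod.ext (by simp) (by simp [mul_comm])
    exact ⟨(L.symm (0, u)).2, fun x => f (σ x), fun x => hf _,
      BrAux.apn_of_sid (BrAux.sid_ccz h1 (BrAux.sid_of_apn hapn)), BrAux.ccz_symm h1⟩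
  · exact Or.inl (nonvert hn hc hF hR G H u f L c σ hσ hL hv1 hf hH hapn)

end Pool.Agent.Lib.MP_eacabd_co.Wide8
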