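import Mathlib
import Pool.Agent.Lib.MP_eacabd_co.Gold8.Sol

/-!
Switching in the wide sense: the monomials `x^M`, `M ⊆ ZMod n`, are a basis of the functions `F → F`.
-/

set_option autoImplicit false

namespace Pool.Agent.Lib.MP_eacabd_co.Wide8

open Finset Pool.Agent.Lib.MP_eacabd_co Pool.Agent.Lib.MP_eacabd_co.Gold8

section Basic

variable {n : ℕ} {F : Type} [Field F]

/-- the `j`-th power of `x ↦ x ^ (2 ^ i)` -/
def fr (i : ℕ) (j : ZMod n) (x : F) : F := x ^ (2 ^ (i * j.val))

/-- the monomial `x^M` -/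
def X (i : ℕ) (M : Finset (ZMod n)) (x : F) : F := ∏ j ∈ M, fr i j x

theorem fr_mul (i : ℕ) (j : ZMod n) (x y : F) : fr i j (x * y) = fr i j x * fr i j y := mul_pow _ _ _

theorem fr_one' (i : ℕ) (j : ZMod n) : fr i j (1 : F) = 1 := one_pow _

theorem fr_zero' (i : ℕ) (j : ZMod n) : fr i j (0 : F) = 0 := zero_pow (by positivity)

theorem fr_inv (i : ℕ) (j : ZMod n) (x : F) : fr i j x⁻¹ = (fr i j x)⁻¹ := inv_pow _ _

theorem fr_div (i : ℕ) (j : ZMod n) (x y : F) : fr i j (x / y) = fr i j x / fr i j y := div_pow _ _ _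

theorem fr_ne (i : ℕ) (j : ZMod n) {x : F} (hx : x ≠ 0) : fr i j x ≠ 0 := pow_ne_zero _ hx

theorem fr_pow (i : ℕ) (j : ZMod n) (x : F) (m : ℕ) : fr i j (x ^ m) = fr i j x ^ m := by
  unfold fr
  rw [← pow_mul, ← pow_mul, mul_comm]

theorem fr_add [CharP F 2] (i : ℕ) (j : ZMod n) (x y : F) :
    fr i j (x + y) = fr i j x + fr i j y := by
  unfold fr
  rw [add_pow_char_pow]

theorem X_one (i : ℕ) (M : Finset (ZMod n)) : X i M (1 : F) = 1 :=
  prod_eq_one fun j _ => fr_one' i j

theorem X_empty (i : ℕ) (x : F) : X i (∅ : Finset (ZMod n)) x = 1 := prod_empty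

theorem X_ne (i : ℕ) (M : Finset (ZMod n)) {x : F} (hx : x ≠ 0) : X i M x ≠ 0 :=
  prod_ne_zero_iff.2 fun j _ => fr_ne i j hx

theorem X_zero (i : ℕ) {M : Finset (ZMod n)} (hM : M.Nonempty) : X i M (0 : F) = 0 := by
  obtain ⟨j, hj⟩ := hM
  exact prod_eq_zero hj (fr_zero' i j)

theorem X_mul (i : ℕ) (M : Finset (ZMod n)) (x y : F) : X i M (x * y) = X i M x * X i M y := by
  unfold X
  rw [← prod_mul_distrib]
  exact prod_congr rfl fun j _ => fr_mul i j x y

theorem X_insert (i : ℕ) {M : Finset (ZMod n)} {j : ZMod n} (hj : j ∉ M) (x : F) :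
    X i (insert j M) x = fr i j x * X i M x := prod_insert hj

end Basic

section Field

set_option linter.unusedSectionVars false

variable {n : ℕ} [NeZero n] {F : Type} [Field F] [Fintype F] [DecidableEq F] [CharP F 2]

theorem pow_two_pow (hF : Fintype.card F = 2 ^ n) {a b : ℕ} (h : (a : ZMod n) = (b : ZMod n))
    (x : F) : x ^ (2 ^ a) = x ^ (2 ^ b) := by
  have h1 : ∀ c : ℕ, x ^ (2 ^ c) = x ^ (2 ^ (c % n)) := by
    intro c
    have hp : Function.Periodic (fun e : ℕ => x ^ (2 ^ e)) n := by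
      intro e
      show x ^ (2 ^ (e + n)) = x ^ (2 ^ e)
      rw [pow_add, pow_mul]
      exact pow_card' hF _
    exact (hp.map_mod_nat c).symm
  rw [h1 a, h1 b, (ZMod.natCast_eq_natCast_iff' a b n).1 h]

theorem fr_eq (hF : Fintype.card F = 2 ^ n) {i a : ℕ} {j : ZMod n} (h : (a : ZMod n) = (i : ZMod n) * j)
    (x : F) : fr i j x = x ^ (2 ^ a) := by
  unfold fr
  apply pow_two_pow hF
  rw [h, Nat.cast_mul, ZMod.natCast_zmod_val]

theorem fr_idx_zero (hF : Fintype.card F = 2 ^ n) (i : ℕ) (x : F) : fr i (0 : ZMod n) x = x := by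
  rw [fr_eq hF (a := 0) (by simp), pow_zero, pow_one]

theorem fr_idx_one (hF : Fintype.card F = 2 ^ n) (i : ℕ) (x : F) :
    fr i (1 : ZMod n) x = x ^ (2 ^ i) := fr_eq hF (by simp) x

theorem fr_succ (hF : Fintype.card F = 2 ^ n) (i : ℕ) (j : ZMod n) (x : F) :
    fr i (j + 1) x = fr i j (x ^ (2 ^ i)) := by
  rw [fr_eq hF (a := i * j.val + i) (by push_cast; rw [ZMod.natCast_zmod_val]; ring)]
  unfold fr
  rw [← pow_mul, ← pow_add, add_comm]

theorem fr_add_nat (hF : Fintype.card F = 2 ^ n) (i : ℕ) (j : ZMod n) (k : ℕ) (x : F) :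
    fr i (j + (k : ZMod n)) x = (fr i j x) ^ (2 ^ (i * k)) := by
  rw [fr_eq hF (a := i * j.val + i * k) (by push_cast; rw [ZMod.natCast_zmod_val]; ring)]
  unfold fr
  rw [← pow_mul, ← pow_add]

/-- `s` with `i s = 1` -/
def sh (n i : ℕ) : ZMod n := ((i : ZMod n))⁻¹

theorem sh_mul {i : ℕ} (hc : Nat.Coprime i n) : (i : ZMod n) * sh n i = 1 :=
  ZMod.coe_mul_inv_eq_one i hc

theorem fr_sq {i : ℕ} (hc : Nat.Coprime i n) (hF : Fintype.card F = 2 ^ n) (j : ZMod n) (x : F) :
    (fr i j x) ^ 2 = fr i (j + sh n i) x := by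
  rw [fr_eq hF (j := j + sh n i) (a := i * j.val + 1)
    (by push_cast; rw [ZMod.natCast_zmod_val, mul_add, sh_mul hc])]
  unfold fr
  rw [← pow_mul, ← pow_succ]

/-- the full product -/
theorem prod_fr {i : ℕ} (hc : Nat.Coprime i n) (hF : Fintype.card F = 2 ^ n) (x : F) :
    X i (univ : Finset (ZMod n)) x = x ^ (2 ^ n - 1) := by
  unfold X
  have h1 : ∀ j : ZMod n, fr i j x = x ^ (2 ^ ((i : ZMod n) * j).val) := by
    intro j
    exact fr_eq hF (ZMod.natCast_zmod_val _) x
  rw [prod_congr rfl fun j _ => h1 j]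
  have hu : IsUnit (i : ZMod n) := (ZMod.isUnit_iff_coprime i n).2 hc
  obtain ⟨u, hu⟩ := hu
  rw [← hu]
  rw [Fintype.prod_bijective (fun j : ZMod n => (u : ZMod n) * j) (Units.mulLeft_bijective u)
    (fun j => x ^ (2 ^ ((u : ZMod n) * j).val)) (fun j => x ^ (2 ^ j.val)) (fun j => rfl)]
  rw [prod_pow_eq_pow_sum]
  congr 1
  have h2 : ∑ j : ZMod n, 2 ^ j.val = ∑ k ∈ range n, 2 ^ k := by
    refine sum_nbij (fun j : ZMod n => j.val) ?_ ?_ ?_ ?_
    · intro j _
      exact mem_range.2 (ZMod.val_lt j)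
    · intro a _ b _ h
      exact ZMod.val_injective n h
    · intro k hk
      refine ⟨(k : ZMod n), mem_coe.2 (mem_univ _), ?_⟩
      exact ZMod.val_cast_of_lt (mem_range.1 (mem_coe.1 hk))
    · intro j _
      rfl
  rw [h2]
  exact Nat.geomSum_eq (by norm_num) n |>.trans (by norm_num)

theorem X_univ {i : ℕ} (hc : Nat.Coprime i n) (hF : Fintype.card F = 2 ^ n) {x : F} (hx : x ≠ 0) :
    X i (univ : Finset (ZMod n)) x = 1 := by
  rw [prod_fr hc hF, ← hF]
  exact FiniteField.pow_card_sub_one_eq_one x hx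

theorem X_add {i : ℕ} (M : Finset (ZMod n)) (x y : F) :
    X i M (x + y) = ∑ N ∈ M.powerset, X i N x * X i (M \ N) y := by
  unfold X
  rw [prod_congr rfl fun j _ => fr_add i j x y, prod_add]

theorem expand {i : ℕ} (hc : Nat.Coprime i n) (hF : Fintype.card F = 2 ^ n) (h : F → F) :
    ∃ f : Finset (ZMod n) → F, ∀ x, h x = ∑ M : Finset (ZMod n), f M * X i M x := by
  have h1 : ∀ x a : F, (1 + X i (univ : Finset (ZMod n)) (x + a)) = if x = a then 1 else 0 := by
    intro x a
    split_ifs with h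
    · rw [h, CharTwo.add_self_eq_zero, X_zero, add_zero]
      exact univ_nonempty
    · rw [X_univ hc hF, CharTwo.add_self_eq_zero]
      intro h0
      exact h (CharTwo.add_eq_zero.1 h0)
  refine ⟨fun M => (∑ a, h a * X i (univ \ M) a) + if M = ∅ then ∑ a, h a else 0, ?_⟩
  intro x
  have h2 : h x = ∑ a, h a * (1 + X i (univ : Finset (ZMod n)) (x + a)) := by
    rw [sum_congr rfl fun a _ => by rw [h1 x a]]
    simp
  rw [h2]
  simp only [add_mul, sum_add_distrib, ite_mul, zero_mul, sum_ite_eq', mem_univ, if_true, X_empty,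
    mul_one, mul_add]
  rw [add_comm]
  congr 1
  rw [sum_congr rfl fun a _ => by rw [X_add, powerset_univ, mul_sum], sum_comm]
  refine sum_congr rfl fun M _ => ?_
  rw [sum_mul]
  refine sum_congr rfl fun a _ => ?_
  ring

/-- the basis of monomials -/
noncomputable def bX {i : ℕ} (hc : Nat.Coprime i n) (hF : Fintype.card F = 2 ^ n) :
    Module.Basis (Finset (ZMod n)) F (F → F) :=
  basisOfTopLeSpanOfCardEqFinrank (fun M => X i M)
    (by
      intro h _
      obtain ⟨f, hf⟩ := expand hc hF h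
      have e : h = ∑ M : Finset (ZMod n), f M • X i M := by
        funext x
        rw [hf, Finset.sum_apply]
        rfl
      rw [e]
      exact Submodule.sum_mem _ fun M _ => Submodule.smul_mem _ _ (Submodule.subset_span ⟨M, rfl⟩))
    (by
      rw [Module.finrank_fintype_fun_eq_card, Fintype.card_finset, ZMod.card, hF])

/-- the coefficients -/
noncomputable def cf {i : ℕ} (hc : Nat.Coprime i n) (hF : Fintype.card F = 2 ^ n) (h : F → F)
    (M : Finset (ZMod n)) : F := (bX hc hF).repr h M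

variable {i : ℕ} (hc : Nat.Coprime i n) (hF : Fintype.card F = 2 ^ n)

theorem bX_apply (M : Finset (ZMod n)) : (bX hc hF : Module.Basis _ F (F → F)) M = X i M := by
  unfold bX
  rw [coe_basisOfTopLeSpanOfCardEqFinrank]

theorem cf_add (g h : F → F) (M : Finset (ZMod n)) :
    cf hc hF (fun x => g x + h x) M = cf hc hF g M + cf hc hF h M := by
  unfold cf
  have e : (fun x => g x + h x) = g + h := rfl
  rw [e, map_add, Finsupp.add_apply]

theorem cf_smul (c : F) (h : F → F) (M : Finset (ZMod n)) :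
    cf hc hF (fun x => c * h x) M = c * cf hc hF h M := by
  unfold cf
  have e : (fun x => c * h x) = c • h := rfl
  rw [e, map_smul, Finsupp.smul_apply, smul_eq_mul]

theorem cf_zero (M : Finset (ZMod n)) : cf hc hF (fun _ => (0 : F)) M = 0 := by
  unfold cf
  have e : (fun _ : F => (0 : F)) = 0 := rfl
  rw [e, map_zero, Finsupp.zero_apply]

theorem cf_sum {ι : Type} (S : Finset ι) (g : ι → F → F) (M : Finset (ZMod n)) :
    cf hc hF (fun x => ∑ k ∈ S, g k x) M = ∑ k ∈ S, cf hc hF (g k) M := by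
  classical
  induction S using Finset.induction_on with
  | empty =>
    simp only [sum_empty]
    exact cf_zero hc hF M
  | insert a S ha ih =>
    simp only [sum_insert ha]
    rw [cf_add, ih]

theorem cf_X (N M : Finset (ZMod n)) : cf hc hF (X i N) M = if N = M then 1 else 0 := by
  unfold cf
  rw [← bX_apply hc hF, Module.Basis.repr_self, Finsupp.single_apply]

theorem eq_sum (h : F → F) (x : F) : h x = ∑ M : Finset (ZMod n), cf hc hF h M * X i M x := by
  have h1 := (bX hc hF).sum_repr h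
  have h2 := congrFun h1 x
  rw [Finset.sum_apply] at h2
  rw [← h2]
  refine sum_congr rfl fun M _ => ?_
  rw [bX_apply]
  rfl

/-- uniqueness of the coefficients -/
theorem cf_eq (f : Finset (ZMod n) → F) (M : Finset (ZMod n)) :
    cf hc hF (fun x => ∑ N : Finset (ZMod n), f N * X i N x) M = f M := by
  rw [cf_sum hc hF univ (fun N x => f N * X i N x)]
  rw [sum_congr rfl fun N _ => (cf_smul hc hF (f N) (X i N) M).trans (by rw [cf_X])]
  simp

end Field

end Pool.Agent.Lib.MP_eacabd_co.Wide8
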