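import Mathlib
import Pool.Agent.Lib.MP_eacabd_co.Wide8.Basis

/-!
Switching in the wide sense: the filtration by the algebraic degree.
-/

set_option autoImplicit false
set_option linter.unusedSectionVars false

namespace Pool.Agent.Lib.MP_eacabd_co.Wide8

open Finset Pool.Agent.Lib.MP_eacabd_co Pool.Agent.Lib.MP_eacabd_co.Gold8

variable {n : ℕ} [NeZero n] {F : Type} [Field F] [Fintype F] [DecidableEq F] [CharP F 2]
variable {i : ℕ} (hc : Nat.Coprime i n) (hF : Fintype.card F = 2 ^ n)

/-- algebraic degree at most `d` -/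
def Dg (d : ℕ) (g : F → F) : Prop := ∀ M : Finset (ZMod n), d < M.card → cf hc hF g M = 0

theorem Dg.mono {d e : ℕ} {g : F → F} (h : Dg hc hF d g) (hde : d ≤ e) : Dg hc hF e g :=
  fun M hM => h M (lt_of_le_of_lt hde hM)

theorem Dg.add {d : ℕ} {g h : F → F} (hg : Dg hc hF d g) (hh : Dg hc hF d h) :
    Dg hc hF d (fun x => g x + h x) := by
  intro M hM
  rw [cf_add, hg M hM, hh M hM, add_zero]

theorem Dg.smul {d : ℕ} {g : F → F} (hg : Dg hc hF d g) (c : F) :
    Dg hc hF d (fun x => c * g x) := by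
  intro M hM
  rw [cf_smul, hg M hM, mul_zero]

theorem Dg.zero (d : ℕ) : Dg hc hF d (fun _ => (0 : F)) := fun M _ => cf_zero hc hF M

theorem Dg.sum {d : ℕ} {ι : Type} {S : Finset ι} {g : ι → F → F}
    (hg : ∀ k ∈ S, Dg hc hF d (g k)) : Dg hc hF d (fun x => ∑ k ∈ S, g k x) := by
  intro M hM
  rw [cf_sum]
  exact sum_eq_zero fun k hk => hg k hk M hM

theorem frX : ∀ (k : ℕ) (M : Finset (ZMod n)), M.card = k → ∀ (j : ZMod n),
    (∀ E : Finset (ZMod n), k + 1 < E.card → cf hc hF (fun x => fr i j x * X i M x) E = 0) ∧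
    (∀ E : Finset (ZMod n), E.card = k + 1 → cf hc hF (fun x => fr i j x * X i M x) E =
      if j ∉ M ∧ E = insert j M then 1 else 0) := by
  intro k
  induction k with
  | zero =>
    intro M hM j
    rw [card_eq_zero] at hM
    subst hM
    have e : (fun x : F => fr i j x * X i (∅ : Finset (ZMod n)) x) = X i (insert j ∅) := by
      funext x
      rw [X_insert i (notMem_empty j)]
    rw [e]
    constructor
    · intro E hE
      rw [cf_X, if_neg]
      rintro rfl
      rw [card_insert_of_notMem (notMem_empty j), card_empty] at hE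
      omega
    · intro E _
      rw [cf_X]
      refine if_congr ?_ rfl rfl
      constructor
      · rintro rfl
        exact ⟨notMem_empty j, rfl⟩
      · rintro ⟨_, h⟩
        exact h.symm
  | succ k ih =>
    intro M hM j
    by_cases hj : j ∈ M
    · have e : (fun x : F => fr i j x * X i M x)
          = fun x => fr i (j + sh n i) x * X i (M.erase j) x := by
        funext x
        have h1 : X i M x = fr i j x * X i (M.erase j) x := by
          rw [← X_insert i (notMem_erase j M), insert_erase hj]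
        rw [h1, ← mul_assoc, ← sq, fr_sq hc hF]
      rw [e]
      have h2 : (M.erase j).card = k := by rw [card_erase_of_mem hj, hM]; rfl
      obtain ⟨h3, h4⟩ := ih (M.erase j) h2 (j + sh n i)
      constructor
      · intro E hE
        exact h3 E (by omega)
      · intro E hE
        rw [h3 E (by omega), if_neg]
        rintro ⟨h5, _⟩
        exact h5 hj
    · have e : (fun x : F => fr i j x * X i M x) = X i (insert j M) := by
        funext x
        rw [X_insert i hj]
      rw [e]
      constructor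
      · intro E hE
        rw [cf_X, if_neg]
        rintro rfl
        rw [card_insert_of_notMem hj, hM] at hE
        omega
      · intro E _
        rw [cf_X]
        refine if_congr ?_ rfl rfl
        constructor
        · rintro rfl
          exact ⟨hj, rfl⟩
        · rintro ⟨_, h⟩
          exact h.symm

theorem fr_mul_expand (g : F → F) (j : ZMod n) :
    (fun x => fr i j x * g x)
      = fun x => ∑ M : Finset (ZMod n), cf hc hF g M * (fr i j x * X i M x) := by
  funext x
  conv_lhs => rw [eq_sum hc hF g x]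
  rw [mul_sum]
  refine sum_congr rfl fun M _ => ?_
  ring

theorem Dg.frmul {d : ℕ} {g : F → F} (hg : Dg hc hF d g) (j : ZMod n) :
    Dg hc hF (d + 1) (fun x => fr i j x * g x) := by
  intro E hE
  rw [fr_mul_expand hc hF, cf_sum]
  refine sum_eq_zero fun M _ => ?_
  rw [cf_smul]
  by_cases hM : d < M.card
  · rw [hg M hM, zero_mul]
  · rw [(frX hc hF M.card M rfl j).1 E (by omega), mul_zero]

theorem cf_frmul {d : ℕ} {g : F → F} (hg : Dg hc hF d g) (j : ZMod n) {E : Finset (ZMod n)}
    (hE : E.card = d + 1) :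
    cf hc hF (fun x => fr i j x * g x) E = if j ∈ E then cf hc hF g (E.erase j) else 0 := by
  rw [fr_mul_expand hc hF, cf_sum]
  have h1 : ∀ M : Finset (ZMod n), cf hc hF (fun x => cf hc hF g M * (fr i j x * X i M x)) E
      = if j ∉ M ∧ E = insert j M then cf hc hF g M else 0 := by
    intro M
    rw [cf_smul]
    by_cases hM : d < M.card
    · rw [hg M hM, zero_mul, ite_self]
    · rcases Nat.lt_or_ge M.card d with h | h
      · rw [(frX hc hF M.card M rfl j).1 E (by omega), mul_zero, if_neg]
        rintro ⟨h2, rfl⟩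
        rw [card_insert_of_notMem h2] at hE
        omega
      · rw [(frX hc hF M.card M rfl j).2 E (by omega), mul_ite, mul_one, mul_zero]
  rw [sum_congr rfl fun M _ => h1 M]
  by_cases hj : j ∈ E
  · rw [if_pos hj, sum_eq_single (E.erase j)]
    · rw [if_pos ⟨notMem_erase j E, (insert_erase hj).symm⟩]
    · intro M _ hM
      rw [if_neg]
      rintro ⟨h2, rfl⟩
      exact hM (erase_insert h2).symm
    · intro h
      exact absurd (mem_univ _) h
  · rw [if_neg hj]
    refine sum_eq_zero fun M _ => ?_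
    rw [if_neg]
    rintro ⟨_, rfl⟩
    exact hj (mem_insert_self _ _)

/-- the conjugates of `κ + x^(2^i) + x` -/
def kp (i : ℕ) (κ : F) (t : ZMod n) (x : F) : F := fr i t (κ + x ^ (2 ^ i) + x)

include hF in
theorem kp_eq (κ : F) (t : ZMod n) (x : F) :
    kp i κ t x = fr i t κ + (fr i (t + 1) x + fr i t x) := by
  unfold kp
  rw [fr_add, fr_add, fr_succ hF, add_assoc]

theorem Dg.kpmul {d : ℕ} {g : F → F} (hg : Dg hc hF d g) (κ : F) (t : ZMod n) :
    Dg hc hF (d + 1) (fun x => kp i κ t x * g x) := by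
  have e : (fun x => kp i κ t x * g x)
      = fun x => fr i t κ * g x + (fr i (t + 1) x * g x + fr i t x * g x) := by
    funext x
    rw [kp_eq hF]
    ring
  rw [e]
  exact Dg.add hc hF ((hg.mono hc hF (by omega)).smul hc hF _)
    (Dg.add hc hF (hg.frmul hc hF _) (hg.frmul hc hF _))

theorem cf_kpmul {d : ℕ} {g : F → F} (hg : Dg hc hF d g) (κ : F) (t : ZMod n)
    {E : Finset (ZMod n)} (hE : E.card = d + 1) :
    cf hc hF (fun x => kp i κ t x * g x) E =
      (if t + 1 ∈ E then cf hc hF g (E.erase (t + 1)) else 0)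
        + (if t ∈ E then cf hc hF g (E.erase t) else 0) := by
  have e : (fun x => kp i κ t x * g x)
      = fun x => fr i t κ * g x + (fr i (t + 1) x * g x + fr i t x * g x) := by
    funext x
    rw [kp_eq hF]
    ring
  rw [e, cf_add, cf_smul, hg E (by omega), mul_zero, zero_add, cf_add, cf_frmul hc hF hg _ hE,
    cf_frmul hc hF hg _ hE]

/-- the Hasse derivative -/
noncomputable def dN (N : Finset (ZMod n)) (h : F → F) (x : F) : F :=
  ∑ E : Finset (ZMod n), (if Disjoint N E then cf hc hF h (N ∪ E) else 0) * X i E x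

theorem cf_dN (N : Finset (ZMod n)) (h : F → F) (E : Finset (ZMod n)) :
    cf hc hF (dN hc hF N h) E = if Disjoint N E then cf hc hF h (N ∪ E) else 0 :=
  cf_eq hc hF (fun E => if Disjoint N E then cf hc hF h (N ∪ E) else 0) E

theorem Dg.dN {d e : ℕ} {h : F → F} (hh : Dg hc hF d h) (N : Finset (ZMod n))
    (he : d ≤ e + N.card) : Dg hc hF e (dN hc hF N h) := by
  intro E hE
  rw [cf_dN]
  split_ifs with h1
  · apply hh
    rw [card_union_of_disjoint h1]
    omega
  · rfl

theorem dN_zero {d : ℕ} {h : F → F} (hh : Dg hc hF d h) {N : Finset (ZMod n)}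
    (hN : d < N.card) (x : F) : Wide8.dN hc hF N h x = 0 := by
  unfold Wide8.dN
  refine sum_eq_zero fun E _ => ?_
  split_ifs with h1
  · rw [hh, zero_mul]
    rw [card_union_of_disjoint h1]
    omega
  · rw [zero_mul]

theorem taylor (h : F → F) (x A : F) :
    h (x + A) = ∑ N : Finset (ZMod n), X i N A * Wide8.dN hc hF N h x := by
  rw [eq_sum hc hF h (x + A)]
  have h1 : ∀ M : Finset (ZMod n), cf hc hF h M * X i M (x + A)
      = ∑ N ∈ M.powerset, cf hc hF h M * (X i N A * X i (M \ N) x) := by
    intro M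
    rw [add_comm x A, X_add, mul_sum]
  rw [sum_congr rfl fun M _ => h1 M, sum_sigma']
  have h2 : ∀ N : Finset (ZMod n), X i N A * Wide8.dN hc hF N h x
      = ∑ E ∈ univ.filter (fun E => Disjoint N E), cf hc hF h (N ∪ E) * (X i N A * X i E x) := by
    intro N
    unfold Wide8.dN
    rw [mul_sum, sum_filter]
    refine sum_congr rfl fun E _ => ?_
    split_ifs
    · ring
    · ring
  rw [sum_congr rfl fun N _ => h2 N, sum_sigma']
  refine sum_bij' (fun p _ => ⟨p.2, p.1 \ p.2⟩) (fun p _ => ⟨p.1 ∪ p.2, p.1⟩) ?_ ?_ ?_ ?_ ?_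
  · rintro ⟨M, N⟩ h
    rw [mem_sigma] at h ⊢
    refine ⟨mem_univ _, mem_filter.2 ⟨mem_univ _, disjoint_sdiff⟩⟩
  · rintro ⟨N, E⟩ h
    rw [mem_sigma] at h ⊢
    exact ⟨mem_univ _, mem_powerset.2 subset_union_left⟩
  · rintro ⟨M, N⟩ h
    rw [mem_sigma, mem_powerset] at h
    show (⟨N ∪ M \ N, N⟩ : (_ : Finset (ZMod n)) × Finset (ZMod n)) = ⟨M, N⟩
    rw [union_sdiff_of_subset h.2]
  · rintro ⟨N, E⟩ h
    rw [mem_sigma, mem_filter] at h
    show (⟨N, (N ∪ E) \ N⟩ : (_ : Finset (ZMod n)) × Finset (ZMod n)) = ⟨N, E⟩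
    rw [union_sdiff_cancel_left h.2.2]
  · rintro ⟨M, N⟩ h3
    rw [mem_sigma, mem_powerset] at h3
    show cf hc hF h M * (X i N A * X i (M \ N) x) = cf hc hF h (N ∪ M \ N) * (X i N A * X i (M \ N) x)
    rw [union_sdiff_of_subset h3.2]

end Pool.Agent.Lib.MP_eacabd_co.Wide8
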