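import Mathlib
import Pool.Agent.Lib.MP_eacabd_co.Wide8.Basis

/-!
Switching in the wide sense: statement of the module CHARS (character sums).
-/

set_option autoImplicit false

namespace Pool.Agent.Lib.MP_eacabd_co.Wide8

open Finset Pool.Agent.Lib.MP_eacabd_co Pool.Agent.Lib.MP_eacabd_co.Gold8

/-- orthogonality of the monomials as multiplicative characters -/
def StOrth : Prop := ∀ (i n : ℕ) [NeZero n], Nat.Coprime i n → ∀ (F : Type) [Field F] [Fintype F]
    [DecidableEq F] [CharP F 2], Fintype.card F = 2 ^ n → ∀ P Q : Finset (ZMod n),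
    P.Nonempty → Q.Nonempty →
    ∑ A ∈ univ.erase (0 : F), X i P A * (X i Q A)⁻¹ = if P = Q then 1 else 0

/-- the sums with one factor; `s = sh n i` satisfies `i s = 1`, `(fr i j x)^2 = fr i (j+s) x` -/
def StU : Prop := ∀ (i n : ℕ) [NeZero n], 5 ≤ n → Nat.Coprime i n → ∀ (F : Type) [Field F]
    [Fintype F] [DecidableEq F] [CharP F 2], Fintype.card F = 2 ^ n →
    ∀ c d : ZMod n, d ≠ c → d ≠ c + 1 → d ≠ c - 1 → ∀ t : ZMod n,
    (∑ A ∈ univ.erase (0 : F), fr i c A * fr i d A / (fr i t A * fr i (t + 1) A) = 0) ∧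
    ∀ k : ZMod n, ((t - c).val < (d - c).val ↔ (t - sh n i - c).val < (d - c).val) ∨
      ∑ A ∈ univ.erase (0 : F), fr i c A * fr i d A * fr i k A / (fr i t A * fr i (t + 1) A) = 0

/-- the sums with two factors -/
def StV : Prop := ∀ (i n : ℕ) [NeZero n], 5 ≤ n → Nat.Coprime i n → ∀ (F : Type) [Field F]
    [Fintype F] [DecidableEq F] [CharP F 2], Fintype.card F = 2 ^ n →
    ∀ c d : ZMod n, d ≠ c → d ≠ c + 1 → d ≠ c - 1 → ∀ t l : ZMod n,
    (t - c).val < (d - c).val → (d - c).val ≤ (l - c).val → ∀ N : Finset (ZMod n), N.card ≤ 2 →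
    ∑ A ∈ univ.erase (0 : F), fr i c A * fr i d A * X i N A /
      (fr i t A * fr i (t + 1) A * (fr i l A * fr i (l + 1) A)) =
      if (t = c ∧ l = d ∧ N = {c + 1, d + 1}) ∨ (t = d - 1 ∧ l = c - 1 ∧ N = {c - 1, d - 1})
      then 1 else 0

end Pool.Agent.Lib.MP_eacabd_co.Wide8
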