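import Mathlib
import Pool.Agent.Lib.MP_eacabd_co.Wide8.Filt
import Pool.Agent.Lib.MP_eacabd_co.Wide8.Stmts
import Pool.Agent.Lib.MP_eacabd_co.Wide8.Stmts2

/-!
Switching in the wide sense: the first identity (weight `1`).
-/

set_option autoImplicit false
set_option linter.unusedSectionVars false

namespace Pool.Agent.Lib.MP_eacabd_co.Wide8

open Finset Pool.Agent.Lib.MP_eacabd_co Pool.Agent.Lib.MP_eacabd_co.Gold8

variable {n : ℕ} [NeZero n] {F : Type} [Field F] [Fintype F] [DecidableEq F] [CharP F 2]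
variable {i : ℕ} (hc : Nat.Coprime i n) (hF : Fintype.card F = 2 ^ n)

include hc hF in
theorem tr_eq_sum (z : F) : tr n z = ∑ t : ZMod n, fr i t z := by
  rw [← trg_eq hc hF]
  symm
  refine sum_nbij (fun j : ZMod n => j.val) ?_ ?_ ?_ ?_
  · intro j _
    exact mem_range.2 (ZMod.val_lt j)
  · intro a _ b _ h
    exact ZMod.val_injective n h
  · intro k hk
    exact ⟨(k : ZMod n), mem_coe.2 (mem_univ _), ZMod.val_cast_of_lt (mem_range.1 (mem_coe.1 hk))⟩
  · intro j _
    rfl

include hF in
theorem fr_quot (t : ZMod n) (z A : F) :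
    fr i t (z / A ^ (2 ^ i + 1)) = fr i t z / (fr i t A * fr i (t + 1) A) := by
  rw [fr_div, fr_succ hF, ← fr_mul]
  congr 2
  ring

include hc hF in
/-- the value of the trace on `κ + x^(2^i) + x` -/
theorem tr_kx {κ : F} (hκ : tr n κ = 1) (x : F) : tr n (κ + x ^ (2 ^ i) + x) = 1 := by
  rw [add_assoc, tr_add, tr_phi hc hF, hκ, add_zero]

include hc hF in
theorem kx_ne {κ : F} (hκ : tr n κ = 1) (x : F) : κ + x ^ (2 ^ i) + x ≠ 0 := by
  intro h0
  have h1 := tr_kx hc hF hκ x
  rw [h0] at h1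
  have h2 : tr n (0 : F) = 0 := (tau F n).map_zero
  rw [h2] at h1
  exact zero_ne_one h1

include hF in
theorem sum_one_erase (hn : n ≠ 0) : ∑ _A ∈ univ.erase (0 : F), (1 : F) = 1 := by
  have two : (2 : F) = 0 := CharTwo.two_eq_zero
  rw [sum_const, card_erase_of_mem (mem_univ _), card_univ, hF, nsmul_eq_mul, mul_one,
    Nat.cast_sub Nat.one_le_two_pow]
  push_cast
  rw [two, zero_pow hn, zero_sub, CharTwo.neg_eq]

theorem dN_empty (h : F → F) (x : F) : Wide8.dN hc hF ∅ h x = h x := by
  unfold Wide8.dN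
  conv_rhs => rw [eq_sum hc hF h x]
  refine sum_congr rfl fun E _ => ?_
  rw [if_pos (disjoint_empty_left E), empty_union]

/-- `h (x + 1) = ∑ dN` -/
theorem taylor_one (h : F → F) (x : F) : h (x + 1) = ∑ N : Finset (ZMod n), Wide8.dN hc hF N h x := by
  rw [taylor hc hF h x 1]
  refine sum_congr rfl fun N _ => ?_
  rw [X_one, one_mul]

theorem pair_ne_empty (t : ZMod n) : ({t, t + 1} : Finset (ZMod n)).Nonempty := ⟨t, by simp⟩

/-- the first identity -/
theorem idB (hO : StOrth) (hP : StPlane) (hn : 3 ≤ n) {κ : F} (hκ : tr n κ = 1) {h : F → F}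
    (hR : Rel i κ h) (x : F) :
    ∑ N ∈ univ.filter (fun N : Finset (ZMod n) => N ≠ ∅ ∧ N ≠ univ), Wide8.dN hc hF N h x
      + ∑ t : ZMod n, kp i κ t x * Wide8.dN hc hF {t, t + 1} h x = 0 := by
  have two : (2 : F) = 0 := CharTwo.two_eq_zero
  have hn0 : n ≠ 0 := by omega
  set K : F := κ + x ^ (2 ^ i) + x with hK
  have h1 := hP i n hc F hF K (kx_ne hc hF hκ x) (fun _ _ => 1) (fun _ _ => rfl) (fun _ _ => rfl) h x
    (fun A B hAB => hR x A B hAB) (fun _ => 1) (fun _ _ _ _ => rfl)
  have hcard : (univ : Finset (ZMod n)).card = n := by rw [card_univ, ZMod.card]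
  have hpair : ∀ t : ZMod n, ({t, t + 1} : Finset (ZMod n)) ≠ univ := by
    intro t h0
    have h2 : ({t, t + 1} : Finset (ZMod n)).card ≤ 2 := card_le_two
    rw [h0, hcard] at h2
    omega
  -- expansion
  have h2 : ∀ A : F, h (x + A) + h (x + 1)
      = ∑ N : Finset (ZMod n), (X i N A + 1) * Wide8.dN hc hF N h x := by
    intro A
    rw [taylor hc hF h x A, taylor_one hc hF h x, ← sum_add_distrib]
    refine sum_congr rfl fun N _ => ?_
    ring
  have h3 : ∑ N : Finset (ZMod n), (∑ A ∈ univ.erase (0 : F),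
      (1 + tr n (K / A ^ (2 ^ i + 1))) * (X i N A + 1)) * Wide8.dN hc hF N h x = 0 := by
    refine Eq.trans ?_ h1
    rw [sum_congr rfl fun N _ => sum_mul _ _ _, sum_comm]
    refine sum_congr rfl fun A _ => ?_
    rw [h2, mul_one, mul_sum]
    refine sum_congr rfl fun N _ => ?_
    ring
  have h4 : ∀ N : Finset (ZMod n), ∑ A ∈ univ.erase (0 : F), (X i N A + 1)
      = if N ≠ ∅ ∧ N ≠ univ then 1 else 0 := by
    intro N
    rw [sum_add_distrib, sum_one_erase hF hn0]
    rcases eq_or_ne N ∅ with rfl | h5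
    · rw [if_neg (by simp)]
      rw [sum_congr rfl fun A _ => X_empty i A, sum_one_erase hF hn0, CharTwo.add_self_eq_zero]
    · have h6 := hO i n hc F hF N univ (nonempty_iff_ne_empty.2 h5) univ_nonempty
      have h7 : ∑ A ∈ univ.erase (0 : F), X i N A
          = ∑ A ∈ univ.erase (0 : F), X i N A * (X i (univ : Finset (ZMod n)) A)⁻¹ := by
        refine sum_congr rfl fun A hA => ?_
        rw [X_univ hc hF (ne_of_mem_erase hA), inv_one, mul_one]
      rw [h7, h6]
      by_cases h8 : N = univ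
      · rw [if_pos h8, if_neg (by simp [h8]), CharTwo.add_self_eq_zero]
      · rw [if_neg h8, if_pos ⟨h5, h8⟩, zero_add]
  have h5 : ∀ (N : Finset (ZMod n)) (t : ZMod n), ∑ A ∈ univ.erase (0 : F),
      (X i N A + 1) / (fr i t A * fr i (t + 1) A) = if N = {t, t + 1} then 1 else 0 := by
    intro N t
    have e : ∀ A : F, (fr i t A * fr i (t + 1) A) = X i ({t, t + 1} : Finset (ZMod n)) A := by
      intro A
      unfold X
      rw [prod_pair]
      intro h0
      have h6 : (0 : ZMod n) = 1 := by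
        have := congrArg (fun y => y - t) h0
        simpa using this
      have : Fact (1 < n) := ⟨by omega⟩
      exact zero_ne_one h6
    have h6 : ∑ A ∈ univ.erase (0 : F), (X i (univ : Finset (ZMod n)) A)
        * (X i ({t, t + 1} : Finset (ZMod n)) A)⁻¹ = 0 := by
      rw [hO i n hc F hF _ _ univ_nonempty (pair_ne_empty t), if_neg (fun h => hpair t h.symm)]
    have h7 : ∑ A ∈ univ.erase (0 : F), (1 : F) / (fr i t A * fr i (t + 1) A) = 0 := by
      refine Eq.trans ?_ h6
      refine sum_congr rfl fun A hA => ?_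
      rw [X_univ hc hF (ne_of_mem_erase hA), e, div_eq_mul_inv]
    rw [sum_congr rfl fun A _ => add_div _ _ _, sum_add_distrib, h7, add_zero]
    rcases eq_or_ne N ∅ with rfl | h8
    · rw [sum_congr rfl fun A _ => by rw [X_empty], h7, if_neg]
      intro h0
      have := pair_ne_empty t
      rw [← h0] at this
      exact not_nonempty_empty this
    · rw [← hO i n hc F hF N _ (nonempty_iff_ne_empty.2 h8) (pair_ne_empty t)]
      refine sum_congr rfl fun A _ => ?_
      rw [e, div_eq_mul_inv]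
  have h6 : ∀ N : Finset (ZMod n), ∑ A ∈ univ.erase (0 : F),
      (1 + tr n (K / A ^ (2 ^ i + 1))) * (X i N A + 1)
      = (if N ≠ ∅ ∧ N ≠ univ then 1 else 0) + ∑ t : ZMod n, kp i κ t x *
        (if N = {t, t + 1} then 1 else 0) := by
    intro N
    have e1 : ∑ t : ZMod n, kp i κ t x * (if N = {t, t + 1} then (1 : F) else 0)
        = ∑ A ∈ univ.erase (0 : F), tr n (K / A ^ (2 ^ i + 1)) * (X i N A + 1) := by
      have e2 : ∀ t : ZMod n, kp i κ t x * (if N = {t, t + 1} then (1 : F) else 0)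
          = ∑ A ∈ univ.erase (0 : F), kp i κ t x * ((X i N A + 1) / (fr i t A * fr i (t + 1) A)) := by
        intro t
        rw [← h5 N t, mul_sum]
      rw [sum_congr rfl fun t _ => e2 t, sum_comm]
      refine sum_congr rfl fun A _ => ?_
      rw [tr_eq_sum hc hF, sum_mul]
      refine sum_congr rfl fun t _ => ?_
      rw [fr_quot hF]
      unfold kp
      ring
    rw [← h4 N, e1, ← sum_add_distrib]
    refine sum_congr rfl fun A _ => ?_
    ring
  rw [sum_congr rfl fun N _ => by rw [h6 N, add_mul, sum_mul], sum_add_distrib, sum_comm] at h3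
  rw [← h3]
  congr 1
  · rw [sum_filter]
    refine sum_congr rfl fun N _ => ?_
    split_ifs
    · rw [one_mul]
    · rw [zero_mul]
  · refine sum_congr rfl fun t _ => ?_
    rw [sum_eq_single ({t, t + 1} : Finset (ZMod n))]
    · rw [if_pos rfl, mul_one]
    · intro N _ hN
      rw [if_neg hN, mul_zero, zero_mul]
    · intro h0
      exact absurd (mem_univ _) h0

end Pool.Agent.Lib.MP_eacabd_co.Wide8
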