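import Mathlib
import Pool.Agent.Lib.MP_eacabd_co.Wide8.IdB

/-!
Switching in the wide sense: statement of the module KILL (the degree is lowered).
-/

set_option autoImplicit false

namespace Pool.Agent.Lib.MP_eacabd_co.Wide8

open Finset Pool.Agent.Lib.MP_eacabd_co Pool.Agent.Lib.MP_eacabd_co.Gold8

/-- (KILL) the functions with the relation: coefficients of the terms of the highest degree -/
def StKill : Prop := ∀ (i n : ℕ) [NeZero n], 5 ≤ n → ∀ (hc : Nat.Coprime i n) (F : Type) [Field F]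
    [Fintype F] [DecidableEq F] [CharP F 2] (hF : Fintype.card F = 2 ^ n) (κ : F) (h : F → F),
    tr n κ = 1 → Rel i κ h → ∀ d : ℕ, 2 ≤ d → Dg hc hF d h →
    (3 ≤ d → d + 2 ≤ n → Dg hc hF (d - 1) h) ∧
    (d = 2 → ∀ a b : ZMod n, a ≠ b → b ≠ a + 1 → a ≠ b + 1 → cf hc hF h {a, b} = 0) ∧
    (d = n → cf hc hF h univ = 0) ∧
    (d + 1 = n → ∀ a b : ZMod n, cf hc hF h (univ.erase a) = cf hc hF h (univ.erase b))

/-- (RIG) -/
def StRig : Prop := ∀ (i n : ℕ), 5 ≤ n → Nat.Coprime i n → ∀ (F : Type) [Field F] [Fintype F],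
    Fintype.card F = 2 ^ n → Rigid i n F

end Pool.Agent.Lib.MP_eacabd_co.Wide8
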