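import Mathlib
import Pool.Agent.Lib.MP_eacabd_co.Wide8.Stmts3

/-!
(RIG): rigidity of the Gold functions for the directions which are not vertical, from (KILL), the
orthogonality of the monomials and the identity on planes.
-/

set_option autoImplicit false
set_option linter.unusedSectionVars false

namespace Pool.Agent.Lib.MP_eacabd_co.Wide8

open Finset Pool.Agent.Lib.MP_eacabd_co Pool.Agent.Lib.MP_eacabd_co.Gold8

namespace Rig7

variable {n : ℕ} [NeZero n] {F : Type} [Field F] [Fintype F] [DecidableEq F] [CharP F 2]
variable {i : ℕ} (hc : Nat.Coprime i n) (hF : Fintype.card F = 2 ^ n)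

lemma cast_ne (m : ℕ) (h0 : 0 < m) (h1 : m < n) : ((m : ℕ) : ZMod n) ≠ 0 := by
  intro h
  rw [ZMod.natCast_eq_zero_iff] at h
  exact absurd (Nat.le_of_dvd h0 h) (by omega)

/-! ### coefficients of `h (x + 1)` -/

theorem cf_shift (h : F → F) (M : Finset (ZMod n)) :
    cf hc hF (fun x => h (x + 1)) M
      = ∑ E ∈ univ.filter (fun E : Finset (ZMod n) => M ⊆ E), cf hc hF h E := by
  have e : (fun x => h (x + 1)) = fun x => ∑ E : Finset (ZMod n),
      cf hc hF h E * (∑ N ∈ E.powerset, X i N x) := by
    funext x
    rw [eq_sum hc hF h (x + 1)]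
    refine sum_congr rfl fun E _ => ?_
    rw [X_add]
    congr 1
    refine sum_congr rfl fun N _ => ?_
    rw [X_one, mul_one]
  rw [e, cf_sum, sum_filter]
  refine sum_congr rfl fun E _ => ?_
  rw [cf_smul, cf_sum, sum_congr rfl fun N _ => cf_X hc hF N M, sum_ite_eq']
  simp only [mem_powerset]
  split_ifs
  · rw [mul_one]
  · rw [mul_zero]

theorem cf_der (h : F → F) (M : Finset (ZMod n)) :
    cf hc hF (fun x => h (x + 1) + h x) M
      = ∑ E ∈ univ.filter (fun E : Finset (ZMod n) => M ⊂ E), cf hc hF h E := by
  rw [cf_add, cf_shift]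
  have e : univ.filter (fun E : Finset (ZMod n) => M ⊆ E)
      = insert M (univ.filter (fun E : Finset (ZMod n) => M ⊂ E)) := by
    ext E
    simp only [mem_filter, mem_univ, true_and, mem_insert]
    constructor
    · intro hh
      rcases eq_or_ne E M with h1 | h1
      · exact Or.inl h1
      · exact Or.inr (hh.ssubset_of_ne (Ne.symm h1))
    · rintro (hh | hh)
      · rw [hh]
      · exact hh.subset
  rw [e, sum_insert (by simp), add_comm, ← add_assoc, CharTwo.add_self_eq_zero, zero_add]

theorem cf_shift_compl (h : F → F) (S : Finset (ZMod n)) :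
    cf hc hF (fun x => h (x + 1)) (univ \ S)
      = ∑ T ∈ S.powerset, cf hc hF h (univ \ T) := by
  rw [cf_shift]
  refine sum_nbij' (fun E => univ \ E) (fun T => univ \ T) ?_ ?_ ?_ ?_ ?_
  · intro E hE
    rw [mem_filter] at hE
    rw [mem_powerset]
    intro x hx
    by_contra hxS
    have h1 : x ∈ E := hE.2 (mem_sdiff.2 ⟨mem_univ _, hxS⟩)
    exact (mem_sdiff.1 hx).2 h1
  · intro T hT
    rw [mem_powerset] at hT
    rw [mem_filter]
    exact ⟨mem_univ _, sdiff_subset_sdiff (subset_univ _) hT⟩
  · intro E _
    simp
  · intro T _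
    simp
  · intro E _
    simp

/-! ### the first sum in the identity -/

theorem first_sum (h : F → F) (x : F) :
    ∑ N ∈ univ.filter (fun N : Finset (ZMod n) => N ≠ ∅ ∧ N ≠ univ), Wide8.dN hc hF N h x
      = h (x + 1) + h x + cf hc hF h univ := by
  have h1 := taylor_one hc hF h x
  rw [← sum_filter_add_sum_filter_not univ
    (fun N : Finset (ZMod n) => N ≠ ∅ ∧ N ≠ univ)] at h1
  have h2 : univ.filter (fun N : Finset (ZMod n) => ¬ (N ≠ ∅ ∧ N ≠ univ)) = {∅, univ} := by
    ext N
    simp only [mem_filter, mem_univ, true_and, mem_insert, mem_singleton]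
    tauto
  have h3 : (∅ : Finset (ZMod n)) ≠ univ := by
    intro h0
    have := (univ_nonempty : (univ : Finset (ZMod n)).Nonempty)
    rw [← h0] at this
    exact not_nonempty_empty this
  have h4 : Wide8.dN hc hF (univ : Finset (ZMod n)) h x = cf hc hF h univ := by
    unfold Wide8.dN
    rw [sum_eq_single (∅ : Finset (ZMod n))]
    · rw [if_pos (disjoint_empty_right _), union_empty, X_empty, mul_one]
    · intro E _ hE
      rw [if_neg, zero_mul]
      intro hd
      apply hE
      rw [disjoint_iff, inf_eq_inter, univ_inter] at hd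
      simpa using hd
    · intro h0
      exact absurd (mem_univ _) h0
  rw [h2, sum_pair h3, dN_empty hc hF, h4] at h1
  rw [h1]
  have h5 : h x + h x = 0 := CharTwo.add_self_eq_zero _
  have h6 : cf hc hF h univ + cf hc hF h univ = 0 := CharTwo.add_self_eq_zero _
  linear_combination -h5 - h6

/-- exact form of the multiplication rule -/
theorem cf_frmul_ex (g : F → F) (j : ZMod n)
    (hg : ∀ M : Finset (ZMod n), j ∈ M → cf hc hF g M = 0) (E : Finset (ZMod n)) :
    cf hc hF (fun x => fr i j x * g x) E = if j ∈ E then cf hc hF g (E.erase j) else 0 := by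
  have e : (fun x => fr i j x * g x) = fun x => ∑ M : Finset (ZMod n),
      (if j ∈ M then 0 else cf hc hF g M) * X i (insert j M) x := by
    rw [fr_mul_expand hc hF]
    funext x
    refine sum_congr rfl fun M _ => ?_
    by_cases hM : j ∈ M
    · rw [if_pos hM, hg M hM, zero_mul, zero_mul]
    · rw [if_neg hM, X_insert i hM]
  rw [e, cf_sum, sum_congr rfl fun M _ => (cf_smul hc hF _ _ E).trans (by rw [cf_X])]
  by_cases hj : j ∈ E
  · rw [if_pos hj, sum_eq_single (E.erase j)]
    · rw [if_neg (notMem_erase j E), if_pos (insert_erase hj), mul_one]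
    · intro M _ hM
      by_cases hjM : j ∈ M
      · rw [if_pos hjM, zero_mul]
      · rw [if_neg (fun h0 : insert j M = E => hM (by rw [← h0, erase_insert hjM])), mul_zero]
    · intro h0
      exact absurd (mem_univ _) h0
  · rw [if_neg hj]
    refine sum_eq_zero fun M _ => ?_
    rw [if_neg (fun h0 : insert j M = E => hj (by rw [← h0]; exact mem_insert_self _ _)), mul_zero]

theorem cf_kp_ex (g : F → F) (κ : F) (t : ZMod n)
    (hg : ∀ M : Finset (ZMod n), t ∈ M ∨ t + 1 ∈ M → cf hc hF g M = 0) (E : Finset (ZMod n)) :
    cf hc hF (fun x => kp i κ t x * g x) E = fr i t κ * cf hc hF g E +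
      ((if t + 1 ∈ E then cf hc hF g (E.erase (t + 1)) else 0)
        + (if t ∈ E then cf hc hF g (E.erase t) else 0)) := by
  have e : (fun x => kp i κ t x * g x)
      = fun x => fr i t κ * g x + (fr i (t + 1) x * g x + fr i t x * g x) := by
    funext x
    rw [kp_eq hF]
    ring
  rw [e, cf_add, cf_smul, cf_add, cf_frmul_ex hc hF g (t + 1) (fun M hM => hg M (Or.inr hM)),
    cf_frmul_ex hc hF g t (fun M hM => hg M (Or.inl hM))]

/-! ### lowering the degree -/

theorem down (hK : StKill) (hn : 5 ≤ n) {κ : F} (hκ : tr n κ = 1) {h : F → F}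
    (hR : Rel i κ h) : ∀ d : ℕ, 2 ≤ d → d + 2 ≤ n → Dg hc hF d h → Dg hc hF 2 h := by
  intro d hd
  induction d, hd using Nat.le_induction with
  | base => exact fun _ hh => hh
  | succ d hd ih =>
    intro hdn hh
    apply ih (by omega)
    have := (hK i n hn hc F hF κ h hκ hR (d + 1) (by omega) hh).1 (by omega) hdn
    simpa using this

theorem rel_der {κ : F} {h : F → F} (hR : Rel i κ h) :
    Rel i κ (fun x => h (x + 1) + h x) := by
  intro x A B hAB
  have h1 := hR x A B hAB
  have h2 := hR (x + 1) A B (by
    rw [hAB, add_pow_char_pow, one_pow]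
    have : (1 : F) + 1 = 0 := CharTwo.add_self_eq_zero 1
    linear_combination -this)
  have e1 : x + 1 + A = x + A + 1 := by ring
  have e2 : x + 1 + B = x + B + 1 := by ring
  have e3 : x + 1 + A + B = x + A + B + 1 := by ring
  rw [e3, e1, e2] at h2
  show h (x + 1 + 1) + h (x + 1) + (h (x + A + 1) + h (x + A)) + (h (x + B + 1) + h (x + B))
    + (h (x + A + B + 1) + h (x + A + B)) = 0
  linear_combination h1 + h2

/-- a relation `γ (j + 1) = γ j` -/
theorem const_of_succ {γ : ZMod n → F} (h : ∀ j, γ (j + 1) = γ j) (j : ZMod n) : γ j = γ 0 := by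
  have h1 : ∀ m : ℕ, γ (m : ZMod n) = γ 0 := by
    intro m
    induction m with
    | zero => simp
    | succ m ih =>
      push_cast
      rw [h, ih]
  rw [← ZMod.natCast_zmod_val j]
  exact h1 _

/-- the derivative of a function of degree at most two with the relation has degree at most one -/
theorem step1 (hK : StKill) (hO : StOrth) (hP : StPlane) (hn : 5 ≤ n) {κ : F} (hκ : tr n κ = 1)
    {g : F → F} (hR : Rel i κ g) (hg : Dg hc hF 2 g) (hgg : ∀ x, g (x + 1) + g x = 0) :
    Dg hc hF 1 g := by
  have c1 : (1 : ZMod n) ≠ 0 := by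
    have := cast_ne (n := n) 1 (by omega) (by omega)
    simpa using this
  have c2 : (2 : ZMod n) ≠ 0 := by
    have := cast_ne (n := n) 2 (by omega) (by omega)
    simpa using this
  have hnon := (hK i n hn hc F hF κ g hκ hR 2 le_rfl hg).2.1 rfl
  -- the coefficients of adjacent pairs are equal
  have h1 : ∀ j : ZMod n, cf hc hF g {j, j + 1} = cf hc hF g {j - 1, j} := by
    intro j
    have h2 : cf hc hF (fun x => g (x + 1) + g x) {j} = 0 := by
      rw [show (fun x => g (x + 1) + g x) = fun _ => (0 : F) from funext hgg]
      exact cf_zero hc hF _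
    rw [cf_der] at h2
    have hne : ({j, j + 1} : Finset (ZMod n)) ≠ {j - 1, j} := by
      intro h0
      have h3 : j + 1 ∈ ({j - 1, j} : Finset (ZMod n)) := by
        rw [← h0]
        simp
      rw [mem_insert, mem_singleton] at h3
      rcases h3 with h3 | h3
      · exact c2 (by linear_combination h3)
      · exact c1 (by linear_combination h3)
    have h3 : ∑ E ∈ ({{j, j + 1}, {j - 1, j}} : Finset (Finset (ZMod n))), cf hc hF g E
        = ∑ E ∈ univ.filter (fun E : Finset (ZMod n) => {j} ⊂ E), cf hc hF g E := by
      refine sum_subset ?_ ?_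
      · intro E hE
        rw [mem_insert, mem_singleton] at hE
        rw [mem_filter]
        refine ⟨mem_univ _, ?_⟩
        rw [ssubset_iff_subset_ne]
        rcases hE with rfl | rfl
        · refine ⟨by simp, ?_⟩
          intro h0
          have h4 : j + 1 ∈ ({j} : Finset (ZMod n)) := by rw [h0]; simp
          rw [mem_singleton] at h4
          exact c1 (by linear_combination h4)
        · refine ⟨by simp, ?_⟩
          intro h0
          have h4 : j - 1 ∈ ({j} : Finset (ZMod n)) := by rw [h0]; simp
          rw [mem_singleton] at h4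
          exact c1 (by linear_combination -h4)
      · intro E hE hE2
        rw [mem_filter] at hE
        have hlt := card_lt_card hE.2
        rw [card_singleton] at hlt
        rcases Nat.lt_or_ge 2 E.card with h4 | h4
        · exact hg E h4
        · have h5 : E.card = 2 := by omega
          obtain ⟨a, b, hab, rfl⟩ := card_eq_two.1 h5
          have hj : j ∈ ({a, b} : Finset (ZMod n)) := hE.2.subset (mem_singleton_self j)
          rw [mem_insert, mem_singleton] at hj
          rw [mem_insert, mem_singleton, not_or] at hE2
          apply hnon a b hab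
          · rintro rfl
            rcases hj with rfl | rfl
            · exact hE2.1 rfl
            · exact hE2.2 (by rw [add_sub_cancel_right])
          · rintro rfl
            rcases hj with rfl | rfl
            · exact hE2.2 (by rw [add_sub_cancel_right, pair_comm])
            · exact hE2.1 (pair_comm _ _)
    rw [← h3, sum_pair hne] at h2
    exact CharTwo.add_eq_zero.1 h2
  have h2 : ∀ j : ZMod n, cf hc hF g {j, j + 1} = cf hc hF g {0, 0 + 1} := by
    apply const_of_succ (γ := fun j => cf hc hF g {j, j + 1})
    intro j
    show cf hc hF g {j + 1, j + 1 + 1} = cf hc hF g {j, j + 1}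
    rw [h1 (j + 1), add_sub_cancel_right]
  -- the common value vanishes
  have h3 : ∀ t : ZMod n, Wide8.dN hc hF {t, t + 1} g 0 = cf hc hF g {0, 0 + 1} := by
    intro t
    have hcard : ({t, t + 1} : Finset (ZMod n)).card = 2 := by
      apply card_pair
      intro h0
      exact c1 (by linear_combination -h0)
    rw [← h2 t]
    unfold Wide8.dN
    rw [sum_eq_single (∅ : Finset (ZMod n))]
    · rw [if_pos (disjoint_empty_right _), union_empty, X_empty, mul_one]
    · intro E _ hE
      split_ifs with hd
      · rw [hg, zero_mul]
        rw [card_union_of_disjoint hd, hcard]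
        have := card_pos.2 (nonempty_iff_ne_empty.2 hE)
        omega
      · rw [zero_mul]
    · intro h0
      exact absurd (mem_univ _) h0
  have h4 := idB hc hF hO hP (by omega) hκ hR 0
  rw [first_sum, hgg, hg univ (by rw [card_univ, ZMod.card]; omega), zero_add, zero_add,
    sum_congr rfl fun t _ => by rw [h3 t], ← sum_mul] at h4
  have h5 : ∑ t : ZMod n, kp i κ t (0 : F) = 1 := by
    rw [← tr_kx hc hF hκ (0 : F), tr_eq_sum hc hF]
    rfl
  rw [h5, one_mul] at h4
  -- conclusion
  intro M hM
  rcases Nat.lt_or_ge 2 M.card with h6 | h6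
  · exact hg M h6
  · obtain ⟨a, b, hab, rfl⟩ := card_eq_two.1 (show M.card = 2 by omega)
    by_cases hb : b = a + 1
    · rw [hb, h2, h4]
    by_cases ha : a = b + 1
    · rw [ha, pair_comm, h2, h4]
    exact hnon a b hab hb ha

/-! ### the coefficients of degree `n - 2` -/

theorem triple {h : F → F} (z : F) (hu : cf hc hF h univ = 0)
    (hz : ∀ a : ZMod n, cf hc hF h (univ \ {a}) = z) {a b c : ZMod n} (hab : a ≠ b) (hac : a ≠ c)
    (hbc : b ≠ c) (hg : cf hc hF (fun x => h (x + 1) + h x) (univ \ {a, b, c}) = 0) :
    cf hc hF h (univ \ {a, b}) + cf hc hF h (univ \ {b, c}) + cf hc hF h (univ \ {a, c}) = z := by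
  rw [cf_add, cf_shift_compl] at hg
  have ha' : a ∉ ({b, c} : Finset (ZMod n)) := by simp [hab, hac]
  have hb' : b ∉ ({c} : Finset (ZMod n)) := by simp [hbc]
  have e0 : ({c} : Finset (ZMod n)).powerset = {∅, {c}} := by
    ext T
    rw [mem_powerset, subset_singleton_iff, mem_insert, mem_singleton]
  have e1 : (∅ : Finset (ZMod n)) ≠ {c} := by
    intro h0
    have := mem_singleton_self c
    rw [← h0] at this
    exact notMem_empty _ this
  rw [sum_powerset_insert ha', sum_powerset_insert hb', sum_powerset_insert hb', e0,
    sum_pair e1, sum_pair e1, sum_pair e1, sum_pair e1] at hg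
  have i1 : (univ : Finset (ZMod n)) \ ∅ = univ := sdiff_empty
  have i2 : insert b (∅ : Finset (ZMod n)) = {b} := rfl
  have i3 : insert a (∅ : Finset (ZMod n)) = {a} := rfl
  have i4 : insert b ({c} : Finset (ZMod n)) = {b, c} := rfl
  have i5 : insert a ({c} : Finset (ZMod n)) = {a, c} := rfl
  have i6 : insert a (insert b (∅ : Finset (ZMod n))) = {a, b} := rfl
  have i7 : insert a (insert b ({c} : Finset (ZMod n))) = {a, b, c} := rfl
  rw [i1, i7, i6, i2, i3, i4, i5, hu, hz, hz, hz] at hg
  have two : (2 : F) = 0 := CharTwo.two_eq_zero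
  linear_combination hg - (2 * z + cf hc hF h (univ \ {a, b, c})) * two

lemma set1 {S : Finset (ZMod n)} {t t' : ZMod n} (ht' : t' ∉ S) :
    ({t, t'} : Finset (ZMod n)) ∪ (univ \ S).erase t' = univ \ S.erase t := by
  ext x
  simp only [mem_union, mem_insert, mem_singleton, mem_erase, mem_sdiff, mem_univ, true_and]
  constructor
  · rintro ((rfl | rfl) | h)
    · tauto
    · tauto
    · tauto
  · intro h
    by_cases hx : x = t
    · tauto
    · by_cases hx' : x = t'
      · tauto
      · tauto

lemma set2 {S : Finset (ZMod n)} {t t' : ZMod n} :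
    ({t, t'} : Finset (ZMod n)) ∪ (univ \ S) = univ \ (S.erase t).erase t' := by
  ext x
  simp only [mem_union, mem_insert, mem_singleton, mem_erase, mem_sdiff, mem_univ, true_and]
  tauto

/-- the coefficients of `kp t * dN {t, t + 1} h` -/
theorem cf_term (hn : 5 ≤ n) (h : F → F) (κ : F) (t : ZMod n) (S : Finset (ZMod n)) :
    cf hc hF (fun x => kp i κ t x * Wide8.dN hc hF {t, t + 1} h x) (univ \ S) =
      (if t ∈ S ∧ t + 1 ∈ S then fr i t κ * cf hc hF h (univ \ (S.erase t).erase (t + 1)) else 0) +
      ((if t ∈ S ∧ t + 1 ∉ S then cf hc hF h (univ \ S.erase t) else 0)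
        + (if t + 1 ∈ S ∧ t ∉ S then cf hc hF h (univ \ S.erase (t + 1)) else 0)) := by
  have c1 : (1 : ZMod n) ≠ 0 := by
    have := cast_ne (n := n) 1 (by omega) (by omega)
    simpa using this
  have ht : t ≠ t + 1 := by
    intro h0
    exact c1 (by linear_combination -h0)
  rw [cf_kp_ex hc hF (Wide8.dN hc hF {t, t + 1} h) κ t]
  · congr 1
    · rw [cf_dN]
      by_cases h1 : t ∈ S ∧ t + 1 ∈ S
      · rw [if_pos h1, if_pos, set2]
        rw [disjoint_left]
        intro x hx
        rw [mem_insert, mem_singleton] at hx
        rcases hx with rfl | rfl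
        · simp [h1.1]
        · simp [h1.2]
      · rw [if_neg h1, if_neg, mul_zero]
        intro hd
        apply h1
        rw [disjoint_left] at hd
        constructor
        · by_contra h2
          exact hd (mem_insert_self _ _) (mem_sdiff.2 ⟨mem_univ _, h2⟩)
        · by_contra h2
          exact hd (mem_insert_of_mem (mem_singleton_self _)) (mem_sdiff.2 ⟨mem_univ _, h2⟩)
    · congr 1
      · rw [cf_dN]
        by_cases h1 : t + 1 ∈ S
        · rw [if_neg (by simp [h1]), if_neg (by tauto)]
        · rw [if_pos (by simp [h1])]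
          by_cases h2 : t ∈ S
          · rw [if_pos, if_pos ⟨h2, h1⟩, set1 h1]
            rw [disjoint_left]
            intro x hx
            rw [mem_insert, mem_singleton] at hx
            rcases hx with rfl | rfl
            · simp [h2]
            · simp
          · rw [if_neg, if_neg (by tauto)]
            intro hd
            rw [disjoint_left] at hd
            exact hd (mem_insert_self _ _) (mem_erase.2 ⟨ht, mem_sdiff.2 ⟨mem_univ _, h2⟩⟩)
      · rw [cf_dN]
        by_cases h1 : t ∈ S
        · rw [if_neg (by simp [h1]), if_neg (by tauto)]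
        · rw [if_pos (by simp [h1])]
          by_cases h2 : t + 1 ∈ S
          · rw [if_pos, if_pos ⟨h2, h1⟩, pair_comm, set1 h1]
            rw [disjoint_left]
            intro x hx
            rw [mem_insert, mem_singleton] at hx
            rcases hx with rfl | rfl
            · simp
            · simp [h2]
          · rw [if_neg, if_neg (by tauto)]
            intro hd
            rw [disjoint_left] at hd
            exact hd (mem_insert_of_mem (mem_singleton_self _))
              (mem_erase.2 ⟨Ne.symm ht, mem_sdiff.2 ⟨mem_univ _, h2⟩⟩)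
  · intro M hM
    rw [cf_dN, if_neg]
    intro hd
    rw [disjoint_left] at hd
    rcases hM with hM | hM
    · exact hd (mem_insert_self _ _) hM
    · exact hd (mem_insert_of_mem (mem_singleton_self _)) hM

/-- the coefficients of `h` of degree `n - 1` vanish -/
theorem step2 (hO : StOrth) (hP : StPlane) (hn : 5 ≤ n) {κ : F} (hκ : tr n κ = 1)
    {h : F → F} (hR : Rel i κ h) (z : F) (hu : cf hc hF h univ = 0)
    (hz : ∀ a : ZMod n, cf hc hF h (univ \ {a}) = z)
    (hg : Dg hc hF 1 (fun x => h (x + 1) + h x)) : z = 0 := by
  have c1 : (1 : ZMod n) ≠ 0 := by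
    have := cast_ne (n := n) 1 (by omega) (by omega)
    simpa using this
  have c2 : (2 : ZMod n) ≠ 0 := by
    have := cast_ne (n := n) 2 (by omega) (by omega)
    simpa using this
  have c3 : (3 : ZMod n) ≠ 0 := by
    have := cast_ne (n := n) 3 (by omega) (by omega)
    simpa using this
  have c4 : (4 : ZMod n) ≠ 0 := by
    have := cast_ne (n := n) 4 (by omega) (by omega)
    simpa using this
  set u : ZMod n → ZMod n → F := fun a b => cf hc hF h (univ \ {a, b}) with hu'
  have hcomm : ∀ a b, u a b = u b a := by
    intro a b
    rw [hu']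
    show cf hc hF h (univ \ {a, b}) = cf hc hF h (univ \ {b, a})
    rw [pair_comm]
  have hcard : ∀ a b c : ZMod n, 1 < (univ \ {a, b, c} : Finset (ZMod n)).card := by
    intro a b c
    rw [card_sdiff_of_subset (subset_univ _), card_univ, ZMod.card]
    have : ({a, b, c} : Finset (ZMod n)).card ≤ 3 := card_le_three
    omega
  have htri : ∀ a b c : ZMod n, a ≠ b → a ≠ c → b ≠ c → u a b + u b c + u a c = z := by
    intro a b c hab hac hbc
    exact triple hc hF z hu hz hab hac hbc (hg _ (hcard a b c))
  -- the coefficient of the identity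
  have hid : ∀ E : Finset (ZMod n), 1 < E.card → ∑ t : ZMod n,
      cf hc hF (fun x => kp i κ t x * Wide8.dN hc hF {t, t + 1} h x) E = 0 := by
    intro E hE
    have h1 : (fun x => (h (x + 1) + h x) + ∑ t : ZMod n,
        kp i κ t x * Wide8.dN hc hF {t, t + 1} h x) = fun _ => (0 : F) := by
      funext x
      have h2 := idB hc hF hO hP (by omega) hκ hR x
      rw [first_sum, hu, add_zero] at h2
      exact h2
    have h2 : cf hc hF (fun x => (h (x + 1) + h x) + ∑ t : ZMod n,
        kp i κ t x * Wide8.dN hc hF {t, t + 1} h x) E = 0 := by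
      rw [h1]
      exact cf_zero hc hF E
    rw [cf_add hc hF (fun x => h (x + 1) + h x) (fun x => ∑ t : ZMod n,
        kp i κ t x * Wide8.dN hc hF {t, t + 1} h x), hg E hE, zero_add, cf_sum] at h2
    exact h2
  have hkey : ∀ e : ZMod n, z * fr i e κ = z + u e (e + 1) := by
    intro e
    have n1 : e ≠ e + 1 := fun h0 => c1 (by linear_combination -h0)
    have n2 : e ≠ e + 3 := fun h0 => c3 (by linear_combination -h0)
    have n3 : e + 1 ≠ e + 3 := fun h0 => c2 (by linear_combination -h0)
    set S : Finset (ZMod n) := {e, e + 1, e + 3} with hS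
    have memS : ∀ x, x ∈ S ↔ x = e ∨ x = e + 1 ∨ x = e + 3 := by
      intro x
      rw [hS]
      simp
    have s1 : S.erase e = {e + 1, e + 3} := by
      rw [hS, erase_insert]
      simp [n1, n2]
    have s2 : S.erase (e + 1) = {e, e + 3} := by
      ext x
      rw [mem_erase, memS, mem_insert, mem_singleton]
      constructor
      · tauto
      · rintro (rfl | rfl)
        · exact ⟨n1, Or.inl rfl⟩
        · exact ⟨Ne.symm n3, Or.inr (Or.inr rfl)⟩
    have s3 : S.erase (e + 3) = {e, e + 1} := by
      ext x
      rw [mem_erase, memS, mem_insert, mem_singleton]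
      constructor
      · tauto
      · rintro (rfl | rfl)
        · exact ⟨n2, Or.inl rfl⟩
        · exact ⟨n3, Or.inr (Or.inl rfl)⟩
    have s4 : (S.erase e).erase (e + 1) = {e + 3} := by
      rw [s1, erase_insert]
      simpa using n3
    have h1 := hid (univ \ S) (hcard _ _ _)
    rw [sum_congr rfl fun t _ => cf_term hc hF hn h κ t S, sum_add_distrib, sum_add_distrib] at h1
    -- first sum
    have t1 : ∑ t : ZMod n, (if t ∈ S ∧ t + 1 ∈ S then
        fr i t κ * cf hc hF h (univ \ (S.erase t).erase (t + 1)) else 0) = fr i e κ * z := by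
      rw [sum_eq_single e]
      · rw [if_pos, s4, hz]
        exact ⟨(memS _).2 (Or.inl rfl), (memS _).2 (Or.inr (Or.inl rfl))⟩
      · intro t _ hte
        rw [if_neg]
        rintro ⟨h2, h3⟩
        rw [memS] at h2 h3
        rcases h2 with h2 | h2 | h2
        · exact hte h2
        · rw [h2] at h3
          rcases h3 with h3 | h3 | h3
          · exact c2 (by linear_combination h3)
          · exact c1 (by linear_combination h3)
          · exact c1 (by linear_combination -h3)
        · rw [h2] at h3
          rcases h3 with h3 | h3 | h3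
          · exact c4 (by linear_combination h3)
          · exact c3 (by linear_combination h3)
          · exact c1 (by linear_combination h3)
      · intro h0
        exact absurd (mem_univ _) h0
    -- second sum
    have t2 : ∑ t : ZMod n, (if t ∈ S ∧ t + 1 ∉ S then cf hc hF h (univ \ S.erase t) else 0)
        = u e (e + 3) + u e (e + 1) := by
      have h2 : ∑ t ∈ ({e + 1, e + 3} : Finset (ZMod n)),
          (if t ∈ S ∧ t + 1 ∉ S then cf hc hF h (univ \ S.erase t) else 0)
          = ∑ t : ZMod n, (if t ∈ S ∧ t + 1 ∉ S then cf hc hF h (univ \ S.erase t) else 0) := by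
        refine sum_subset (subset_univ _) ?_
        intro t _ ht
        rw [if_neg]
        rintro ⟨h2, h3⟩
        rw [mem_insert, mem_singleton, not_or] at ht
        rw [memS] at h2 h3
        rcases h2 with h2 | h2 | h2
        · exact h3 (Or.inr (Or.inl (by rw [h2])))
        · exact ht.1 h2
        · exact ht.2 h2
      rw [← h2, sum_pair n3, if_pos, if_pos, s2, s3]
      · refine ⟨(memS _).2 (Or.inr (Or.inr rfl)), fun h3 => ?_⟩
        rw [memS] at h3
        rcases h3 with h3 | h3 | h3
        · exact c4 (by linear_combination h3)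
        · exact c3 (by linear_combination h3)
        · exact c1 (by linear_combination h3)
      · refine ⟨(memS _).2 (Or.inr (Or.inl rfl)), fun h3 => ?_⟩
        rw [memS] at h3
        rcases h3 with h3 | h3 | h3
        · exact c2 (by linear_combination h3)
        · exact c1 (by linear_combination h3)
        · exact c1 (by linear_combination -h3)
    -- third sum
    have t3 : ∑ t : ZMod n, (if t + 1 ∈ S ∧ t ∉ S then cf hc hF h (univ \ S.erase (t + 1)) else 0)
        = u (e + 1) (e + 3) + u e (e + 1) := by
      have n4 : e - 1 ≠ e + 2 := fun h0 => c3 (by linear_combination -h0)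
      have h2 : ∑ t ∈ ({e - 1, e + 2} : Finset (ZMod n)),
          (if t + 1 ∈ S ∧ t ∉ S then cf hc hF h (univ \ S.erase (t + 1)) else 0)
          = ∑ t : ZMod n,
            (if t + 1 ∈ S ∧ t ∉ S then cf hc hF h (univ \ S.erase (t + 1)) else 0) := by
        refine sum_subset (subset_univ _) ?_
        intro t _ ht
        rw [if_neg]
        rintro ⟨h2, h3⟩
        rw [mem_insert, mem_singleton, not_or] at ht
        rw [memS] at h2 h3
        rcases h2 with h2 | h2 | h2
        · exact ht.1 (by linear_combination h2)
        · exact h3 (Or.inl (by linear_combination h2))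
        · exact ht.2 (by linear_combination h2)
      have e3 : e + 2 + 1 = e + 3 := by ring
      rw [← h2, sum_pair n4, sub_add_cancel, e3, if_pos, if_pos, s1, s3]
      · refine ⟨(memS _).2 (Or.inr (Or.inr rfl)), fun h3 => ?_⟩
        rw [memS] at h3
        rcases h3 with h3 | h3 | h3
        · exact c2 (by linear_combination h3)
        · exact c1 (by linear_combination h3)
        · exact c1 (by linear_combination -h3)
      · refine ⟨(memS _).2 (Or.inl rfl), fun h3 => ?_⟩
        rw [memS] at h3
        rcases h3 with h3 | h3 | h3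
        · exact c1 (by linear_combination -h3)
        · exact c2 (by linear_combination -h3)
        · exact c4 (by linear_combination -h3)
    rw [t1, t2, t3] at h1
    have h2 := htri e (e + 1) (e + 3) n1 n2 n3
    have two : (2 : F) = 0 := CharTwo.two_eq_zero
    linear_combination h1 - h2 - (z + u e (e + 1)) * two
  -- summation
  set p : ZMod n → F := fun a => if a = 0 then z else u 0 a with hp
  have hsum : ∀ e : ZMod n, z * fr i e κ = p e + p (e + 1) := by
    intro e
    rw [hkey e, hp]
    by_cases h0 : e = 0
    · subst h0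
      simp only [if_true, zero_add]
      rw [if_neg c1]
    · by_cases h1 : e + 1 = 0
      · simp only [h1, if_true, if_neg h0]
        rw [hcomm, add_comm]
      · simp only [if_neg h0, if_neg h1]
        have h2 := htri 0 e (e + 1) (Ne.symm h0) (Ne.symm h1)
          (fun h3 => c1 (by linear_combination -h3))
        have two : (2 : F) = 0 := CharTwo.two_eq_zero
        linear_combination -h2 + (u e (e + 1)) * two
  have hfin : z * tr n κ = 0 := by
    rw [tr_eq_sum hc hF, mul_sum, sum_congr rfl fun e _ => hsum e, sum_add_distrib]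
    have h1 : ∑ e : ZMod n, p (e + 1) = ∑ e : ZMod n, p e :=
      Equiv.sum_comp (Equiv.addRight (1 : ZMod n)) p
    rw [h1]
    exact CharTwo.add_self_eq_zero _
  rw [hκ, mul_one] at hfin
  exact hfin

/-! ### the Frobenius -/

include hF in
theorem X_shift (M : Finset (ZMod n)) (x : F) :
    X i (M.image (· + 1)) x = (X i M x) ^ (2 ^ i) := by
  unfold X
  rw [prod_image (fun a _ b _ hab => add_right_cancel hab), ← prod_pow]
  refine prod_congr rfl fun j _ => ?_
  rw [fr_succ hF, fr_pow]

theorem cf_frob {h : F → F} (h01 : ∀ x, h x = 0 ∨ h x = 1) (M : Finset (ZMod n)) :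
    cf hc hF h (M.image (· + 1)) = (cf hc hF h M) ^ (2 ^ i) := by
  have inj : Function.Injective (fun N : Finset (ZMod n) => N.image (· + 1)) :=
    image_injective (add_left_injective 1)
  have h1 : h = fun x => ∑ N : Finset (ZMod n),
      (cf hc hF h N) ^ (2 ^ i) * X i (N.image (· + 1)) x := by
    funext x
    have h2 : h x = (h x) ^ (2 ^ i) := by
      rcases h01 x with h3 | h3
      · rw [h3, zero_pow (by positivity)]
      · rw [h3, one_pow]
    conv_lhs => rw [h2, eq_sum hc hF h x]
    rw [sum_pow_char_pow]
    refine sum_congr rfl fun N _ => ?_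
    rw [mul_pow, X_shift hF]
  conv_lhs => rw [h1]
  rw [cf_sum, sum_congr rfl fun N _ => (cf_smul hc hF _ _ _).trans (by rw [cf_X]),
    sum_eq_single M]
  · rw [if_pos rfl, mul_one]
  · intro N _ hN
    rw [if_neg (fun h0 => hN (inj h0)), mul_zero]
  · intro h0
    exact absurd (mem_univ _) h0

theorem single {h : F → F} (h01 : ∀ x, h x = 0 ∨ h x = 1) (j : ZMod n) :
    cf hc hF h {j} = fr i j (cf hc hF h {0}) := by
  have h1 : ∀ m : ℕ, cf hc hF h {(m : ZMod n)} = fr i (m : ZMod n) (cf hc hF h {0}) := by
    intro m
    induction m with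
    | zero => rw [Nat.cast_zero, fr_idx_zero hF]
    | succ m ih =>
      have e : ({((m + 1 : ℕ) : ZMod n)} : Finset (ZMod n)) = ({(m : ZMod n)} : Finset _).image (· + 1) := by
        rw [image_singleton]
        push_cast
        rfl
      rw [e, cf_frob hc hF h01, ih]
      push_cast
      rw [fr_succ hF, fr_pow]
  rw [← ZMod.natCast_zmod_val j]
  exact h1 _

theorem pair {h : F → F} (h01 : ∀ x, h x = 0 ∨ h x = 1) (j : ZMod n) :
    cf hc hF h {j, j + 1} = fr i j (cf hc hF h {0, 0 + 1}) := by
  have h1 : ∀ m : ℕ, cf hc hF h {(m : ZMod n), (m : ZMod n) + 1}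
      = fr i (m : ZMod n) (cf hc hF h {0, 0 + 1}) := by
    intro m
    induction m with
    | zero => rw [Nat.cast_zero, fr_idx_zero hF]
    | succ m ih =>
      have e : ({((m + 1 : ℕ) : ZMod n), ((m + 1 : ℕ) : ZMod n) + 1} : Finset (ZMod n))
          = ({(m : ZMod n), (m : ZMod n) + 1} : Finset _).image (· + 1) := by
        rw [image_insert, image_singleton]
        push_cast
        rfl
      rw [e, cf_frob hc hF h01, ih]
      push_cast
      rw [fr_succ hF, fr_pow]
  rw [← ZMod.natCast_zmod_val j]
  exact h1 _

/-- the form of a 0/1-valued function of degree at most two without nonadjacent pairs -/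
theorem form (hn : 5 ≤ n) {h : F → F} (h01 : ∀ x, h x = 0 ∨ h x = 1) (hd : Dg hc hF 2 h)
    (hnon : ∀ a b : ZMod n, a ≠ b → b ≠ a + 1 → a ≠ b + 1 → cf hc hF h {a, b} = 0) (x : F) :
    h x = tr n (cf hc hF h {0} * x) + tr n (cf hc hF h {0, 0 + 1} * x ^ (2 ^ i + 1))
      + cf hc hF h ∅ := by
  have c1 : (1 : ZMod n) ≠ 0 := by
    have := cast_ne (n := n) 1 (by omega) (by omega)
    simpa using this
  have c2 : (2 : ZMod n) ≠ 0 := by
    have := cast_ne (n := n) 2 (by omega) (by omega)
    simpa using this
  have hne : ∀ j : ZMod n, j ≠ j + 1 := fun j h0 => c1 (by linear_combination -h0)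
  have hcard : ∀ j : ZMod n, ({j, j + 1} : Finset (ZMod n)).card = 2 := fun j => card_pair (hne j)
  -- the coefficients
  have h1 : ∀ M : Finset (ZMod n), cf hc hF h M = (if M = ∅ then cf hc hF h ∅ else 0)
      + (∑ j : ZMod n, (if M = {j} then cf hc hF h {j} else 0)
        + ∑ j : ZMod n, (if M = {j, j + 1} then cf hc hF h {j, j + 1} else 0)) := by
    intro M
    rcases Nat.lt_or_ge 2 M.card with h2 | h2
    · rw [hd M h2, if_neg (by rintro rfl; simp at h2), sum_eq_zero, sum_eq_zero]
      · simp
      · intro j _
        rw [if_neg]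
        rintro rfl
        rw [hcard] at h2
        omega
      · intro j _
        rw [if_neg]
        rintro rfl
        rw [card_singleton] at h2
        omega
    · rcases Nat.lt_or_ge 1 M.card with h3 | h3
      · obtain ⟨a, b, hab, rfl⟩ := card_eq_two.1 (show M.card = 2 by omega)
        rw [if_neg, zero_add, sum_eq_zero (s := univ)
          (f := fun j : ZMod n => if ({a, b} : Finset (ZMod n)) = {j} then cf hc hF h {j} else 0),
          zero_add]
        · have key : ∀ c : ZMod n, ({a, b} : Finset (ZMod n)) = {c, c + 1} →
              cf hc hF h {a, b} = ∑ j : ZMod n,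
                (if ({a, b} : Finset (ZMod n)) = {j, j + 1} then cf hc hF h {j, j + 1} else 0) := by
            intro c hcc
            rw [sum_eq_single c]
            · rw [if_pos hcc, hcc]
            · intro j _ hj
              rw [if_neg]
              intro h0
              rw [hcc] at h0
              have m1 : c ∈ ({j, j + 1} : Finset (ZMod n)) := by rw [← h0]; simp
              have m2 : c + 1 ∈ ({j, j + 1} : Finset (ZMod n)) := by rw [← h0]; simp
              rw [mem_insert, mem_singleton] at m1 m2
              rcases m1 with m1 | m1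
              · exact hj m1.symm
              · rcases m2 with m2 | m2
                · exact c2 (by linear_combination m2 - m1)
                · exact hj (add_right_cancel m2).symm
            · intro h0
              exact absurd (mem_univ _) h0
          by_cases hb : b = a + 1
          · exact key a (by rw [hb])
          by_cases ha : a = b + 1
          · exact key b (by rw [ha, pair_comm])
          rw [hnon a b hab hb ha, sum_eq_zero]
          intro j _
          rw [if_neg]
          intro h0
          have m1 : a ∈ ({j, j + 1} : Finset (ZMod n)) := by rw [← h0]; simp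
          have m2 : b ∈ ({j, j + 1} : Finset (ZMod n)) := by rw [← h0]; simp
          rw [mem_insert, mem_singleton] at m1 m2
          rcases m1 with m1 | m1
          · rcases m2 with m2 | m2
            · exact hab (m1.trans m2.symm)
            · exact hb (by rw [m1, m2])
          · rcases m2 with m2 | m2
            · exact ha (by rw [m1, m2])
            · exact hab (m1.trans m2.symm)
        · intro j _
          rw [if_neg]
          intro h0
          rw [h0, card_singleton] at h3
          omega
        · intro h0
          rw [h0, card_empty] at h3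
          omega
      · rcases Nat.lt_or_ge 0 M.card with h4 | h4
        · obtain ⟨a, rfl⟩ := card_eq_one.1 (show M.card = 1 by omega)
          rw [if_neg (singleton_ne_empty a), zero_add, sum_eq_zero (s := univ)
            (f := fun j : ZMod n => if ({a} : Finset (ZMod n)) = {j, j + 1}
              then cf hc hF h {j, j + 1} else 0), add_zero, sum_eq_single a]
          · rw [if_pos rfl]
          · intro j _ hj
            rw [if_neg]
            intro h0
            exact hj (singleton_injective h0).symm
          · intro h0
            exact absurd (mem_univ _) h0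
          · intro j _
            rw [if_neg]
            intro h0
            have := hcard j
            rw [← h0, card_singleton] at this
            omega
        · have h5 : M = ∅ := card_eq_zero.1 (by omega)
          subst h5
          rw [if_pos rfl, sum_eq_zero, sum_eq_zero]
          · simp
          · intro j _
            rw [if_neg]
            intro h0
            have := hcard j
            rw [← h0, card_empty] at this
            omega
          · intro j _
            rw [if_neg]
            exact (singleton_ne_empty j).symm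
  have h2 : h x = cf hc hF h ∅ + (∑ j : ZMod n, cf hc hF h {j} * fr i j x
      + ∑ j : ZMod n, cf hc hF h {j, j + 1} * (fr i j x * fr i (j + 1) x)) := by
    conv_lhs => rw [eq_sum hc hF h x, sum_congr rfl fun M _ => by rw [h1 M, add_mul, add_mul, sum_mul, sum_mul]]
    rw [sum_add_distrib, sum_add_distrib]
    congr 1
    · rw [sum_eq_single (∅ : Finset (ZMod n))]
      · rw [if_pos rfl, X_empty, mul_one]
      · intro M _ hM
        rw [if_neg hM, zero_mul]
      · intro h0
        exact absurd (mem_univ _) h0
    · congr 1
      · rw [sum_comm]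
        refine sum_congr rfl fun j _ => ?_
        rw [sum_eq_single ({j} : Finset (ZMod n))]
        · rw [if_pos rfl]
          unfold X
          rw [prod_singleton]
        · intro M _ hM
          rw [if_neg hM, zero_mul]
        · intro h0
          exact absurd (mem_univ _) h0
      · rw [sum_comm]
        refine sum_congr rfl fun j _ => ?_
        rw [sum_eq_single ({j, j + 1} : Finset (ZMod n))]
        · rw [if_pos rfl]
          unfold X
          rw [prod_pair (hne j)]
        · intro M _ hM
          rw [if_neg hM, zero_mul]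
        · intro h0
          exact absurd (mem_univ _) h0
  rw [h2, tr_eq_sum hc hF, tr_eq_sum hc hF]
  have h3 : ∑ j : ZMod n, cf hc hF h {j} * fr i j x
      = ∑ t : ZMod n, fr i t (cf hc hF h {0} * x) := by
    refine sum_congr rfl fun j _ => ?_
    rw [single hc hF h01, fr_mul]
  have h4 : ∑ j : ZMod n, cf hc hF h {j, j + 1} * (fr i j x * fr i (j + 1) x)
      = ∑ t : ZMod n, fr i t (cf hc hF h {0, 0 + 1} * x ^ (2 ^ i + 1)) := by
    refine sum_congr rfl fun j _ => ?_
    rw [pair hc hF h01, fr_mul, pow_succ, fr_mul, fr_succ hF, fr_pow]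
    ring
  rw [h3, h4]
  ring

end Rig7

/-- (RIG) from (KILL) and the identities -/
theorem rig_of (hK : StKill) (hO : StOrth) (hP : StPlane) : StRig := by
  intro i n hn hc F _ _ hF
  classical
  have : NeZero n := ⟨by omega⟩
  have : CharP F 2 := charP_of_card_eq_prime_pow hF
  intro κ h h01 hκ hR
  have hcu : (univ : Finset (ZMod n)).card = n := by rw [card_univ, ZMod.card]
  -- degree `n`
  have hDn : Dg hc hF n h := by
    intro M hM
    have := card_le_univ M
    rw [ZMod.card] at this
    omega
  have hu : cf hc hF h univ = 0 := (hK i n hn hc F hF κ h hκ hR n (by omega) hDn).2.2.1 rfl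
  have hDn1 : Dg hc hF (n - 1) h := by
    intro M hM
    have h1 := card_le_univ M
    rw [ZMod.card] at h1
    have h2 : M = univ := by
      apply eq_univ_of_card
      rw [ZMod.card]
      omega
    rw [h2, hu]
  have hz' := (hK i n hn hc F hF κ h hκ hR (n - 1) (by omega) hDn1).2.2.2 (by omega)
  set z : F := cf hc hF h (univ.erase 0) with hz0
  have hz : ∀ a : ZMod n, cf hc hF h (univ \ {a}) = z := by
    intro a
    rw [sdiff_singleton_eq_erase, hz0]
    exact hz' a 0
  -- the derivative
  set g : F → F := fun x => h (x + 1) + h x with hgdef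
  have hRg : Rel i κ g := Rig7.rel_der hR
  have hDg : Dg hc hF (n - 2) g := by
    intro M hM
    rw [hgdef, Rig7.cf_der]
    refine sum_eq_zero fun E hE => ?_
    rw [mem_filter] at hE
    have h1 := card_lt_card hE.2
    have h2 := card_le_univ E
    rw [ZMod.card] at h2
    have h3 : E = univ := by
      apply eq_univ_of_card
      rw [ZMod.card]
      omega
    rw [h3, hu]
  have hDg2 : Dg hc hF 2 g := Rig7.down hc hF hK hn hκ hRg (n - 2) (by omega) (by omega) hDg
  have hgg : ∀ x, g (x + 1) + g x = 0 := by
    intro x
    show h (x + 1 + 1) + h (x + 1) + (h (x + 1) + h x) = 0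
    have e : x + 1 + 1 = x := by
      rw [add_assoc, CharTwo.add_self_eq_zero, add_zero]
    rw [e]
    have two : (2 : F) = 0 := CharTwo.two_eq_zero
    linear_combination (h x + h (x + 1)) * two
  have hDg1 : Dg hc hF 1 g := Rig7.step1 hc hF hK hO hP hn hκ hRg hDg2 hgg
  have hz00 : z = 0 := Rig7.step2 hc hF hO hP hn hκ hR z hu hz hDg1
  -- degree two
  have hDn2 : Dg hc hF (n - 2) h := by
    intro M hM
    rcases Nat.lt_or_ge (n - 1) M.card with h1 | h1
    · exact hDn1 M h1
    · have h2 : Mᶜ.card = 1 := by
        rw [card_compl, ZMod.card]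
        omega
      obtain ⟨a, ha⟩ := card_eq_one.1 h2
      have h3 : M = univ \ {a} := by
        rw [← ha, ← compl_eq_univ_sdiff, compl_compl]
      rw [h3, hz a, hz00]
  have hD2 : Dg hc hF 2 h := Rig7.down hc hF hK hn hκ hR (n - 2) (by omega) (by omega) hDn2
  have hnon := (hK i n hn hc F hF κ h hκ hR 2 le_rfl hD2).2.1 rfl
  exact ⟨_, _, _, fun x => Rig7.form hc hF hn h01 hD2 hnon x⟩

end Pool.Agent.Lib.MP_eacabd_co.Wide8
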