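import Mathlib
import Pool.Agent.Lib.MP_eacabd_co.Main
import Pool.Agent.Lib.MP_eacabd_co.Gold8.Switch8
import Pool.Agent.Lib.MP_eacabd_co.Gold8.OneQuad

/-!
Switching in the wide sense: the cube and one changed coordinate (vertical directions).
-/

set_option autoImplicit false

namespace Pool.Agent.Lib.MP_eacabd_co.Wide8

open Pool.Agent.Lib.MP_eacabd_co Pool.Agent.Lib.MP_eacabd_co.Gold8

/-- the cube, one changed coordinate: the function is quadratic -/
theorem cube_quad {n : ℕ} (hn : 5 ≤ n) {F : Type} [Field F] [Fintype F] (hF : Fintype.card F = 2 ^ n)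
    (A B : F ≃+ F) (C : F →+ F) (c d u : F) (s G : F → F) (h01 : ∀ x, s x = 0 ∨ s x = 1)
    (hGs : ∀ x, G x = A ((B x + c) ^ 3) + C x + d + u * s x)
    (hapn : IsAPN G) : IsQuadratic G := by
  classical
  have : CharP F 2 := charP_of_card_eq_prime_pow (p := 2) (f := n) (by simpa using hF)
  have two : (2 : F) = 0 := CharTwo.two_eq_zero
  -- the Boolean function
  have hs : ∀ x, s x ^ 2 = s x := by
    intro x
    rcases h01 x with h | h <;> rw [h] <;> norm_num
  -- second derivatives of the Gold part
  have h2 : ∀ w x y : F, G (w + x + y) + G (w + x) + G (w + y) + G w =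
      A (B x * B y * (B x + B y)) + u * (s (w + x + y) + s (w + x) + s (w + y) + s w) := by
    intro w x y
    have e0 : ∀ p q r : F, q * r * (q + r) = (p + q + r) ^ 3 + (p + q) ^ 3 + (p + r) ^ 3 + p ^ 3 := by
      intro p q r
      linear_combination (-(2 * p ^ 3) - 3 * p ^ 2 * (q + r) -
        3 * p * (q ^ 2 + r ^ 2 + q * r) - (q ^ 3 + r ^ 3) - (q ^ 2 * r + q * r ^ 2)) * two
    have e : A (B x * B y * (B x + B y)) = A ((B (w + x + y) + c) ^ 3) + A ((B (w + x) + c) ^ 3) +
        A ((B (w + y) + c) ^ 3) + A ((B w + c) ^ 3) := by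
      have e1 : B (w + x + y) + c = (B w + c) + B x + B y := by rw [map_add, map_add]; ring
      have e2 : B (w + x) + c = (B w + c) + B x := by rw [map_add]; ring
      have e3 : B (w + y) + c = (B w + c) + B y := by rw [map_add]; ring
      rw [e1, e2, e3, e0 (B w + c) (B x) (B y), map_add, map_add, map_add]
    rw [hGs, hGs, hGs, hGs, e]
    simp only [map_add]
    linear_combination (2 * C w + C x + C y + 2 * d) * two
  -- third derivatives
  have h3 : ∀ w x y z : F, G (w + x + y + z) + G (w + x + y) + G (w + x + z) + G (w + y + z) +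
      G (w + x) + G (w + y) + G (w + z) + G w = u * (s (w + x + y + z) + s (w + x + y) +
        s (w + x + z) + s (w + y + z) + s (w + x) + s (w + y) + s (w + z) + s w) := by
    intro w x y z
    have i1 := h2 w x y
    have i2 := h2 (w + z) x y
    rw [show w + z + x + y = w + x + y + z by ring, show w + z + x = w + x + z by ring,
      show w + z + y = w + y + z by ring] at i2
    linear_combination i1 + i2 + (A (B x * B y * (B x + B y))) * two
  refine ⟨?_, ?_⟩
  · intro w x y z
    rw [h3]
    by_cases hu : u = 0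
    · rw [hu, zero_mul]
    have hu' : A.symm u ≠ 0 := by
      intro h0
      apply hu
      have := congrArg A h0
      rwa [AddEquiv.apply_symm_apply, map_zero] at this
    obtain ⟨m, rfl⟩ : ∃ m, n = m + 1 := ⟨n - 1, by omega⟩
    have hM : M (A.symm u) (fun v ↦ s (B.symm v)) := by
      refine ⟨fun v ↦ hs _, ?_⟩
      intro a b hab
      funext v
      show s (B.symm (v + a + b)) + s (B.symm (v + a)) + (s (B.symm (v + b)) + s (B.symm v)) = 0
      rw [map_add, map_add, map_add]
      set p := B.symm v
      set x := B.symm a with hx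
      set y := B.symm b with hy
      have hBx : B x = a := B.apply_symm_apply a
      have hBy : B y = b := B.apply_symm_apply b
      have hab0 : a * b * (a + b) ≠ 0 := by rw [hab]; exact hu'
      have hx0 : x ≠ 0 := by
        intro h0
        rw [h0, map_zero] at hBx
        apply hab0
        rw [← hBx]
        ring
      have hy0 : y ≠ 0 := by
        intro h0
        rw [h0, map_zero] at hBy
        apply hab0
        rw [← hBy]
        ring
      have hxy : x ≠ y := by
        intro h0
        rw [h0, hBy] at hBx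
        apply hab0
        rw [← hBx, CharTwo.add_self_eq_zero, mul_zero]
      have h5 := apn_ne hapn hx0 hy0 hxy p
      rw [h2, hBx, hBy, hab, AddEquiv.apply_symm_apply] at h5
      have h6 : (s (p + x + y) + s (p + x) + (s (p + y) + s p)) ^ 2 =
          s (p + x + y) + s (p + x) + (s (p + y) + s p) := by
        rw [CharTwo.add_sq, CharTwo.add_sq, CharTwo.add_sq, hs, hs, hs, hs]
      rcases zero_or_one_of_sq h6 with h7 | h7
      · exact h7
      · exfalso
        apply h5
        have h8 : s (p + x + y) + s (p + x) + s (p + y) + s p = 1 := by rw [← h7]; ring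
        rw [h8, mul_one, CharTwo.add_self_eq_zero]
    have h4 := bool_main (by omega : 4 ≤ m) hF hu' hM (B x) (B y) (B z)
    have h5 := congrFun h4 (B w)
    simp only [D, Pi.zero_apply] at h5
    have e : ∀ v w : F, B v + B w = B (v + w) := fun v w ↦ (map_add B v w).symm
    simp only [e, AddEquiv.symm_apply_apply] at h5
    have h6 : s (w + x + y + z) + s (w + x + y) + s (w + x + z) + s (w + y + z) + s (w + x) +
        s (w + y) + s (w + z) + s w = 0 := by
      rw [← h5]
      ring
    rw [h6, mul_zero]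
  · intro h1
    obtain ⟨y, hy⟩ : ∃ y : F, y ∉ ({0, 1} : Finset F) := by
      by_contra hcon
      push Not at hcon
      have h4 : Fintype.card F ≤ ({0, 1} : Finset F).card :=
        Finset.card_le_card (fun v _ ↦ hcon v)
      have h5 : ({0, 1} : Finset F).card ≤ 2 := Finset.card_le_two
      have h6 : 2 ^ 5 ≤ 2 ^ n := Nat.pow_le_pow_right (by norm_num) hn
      rw [hF] at h4
      omega
    rw [Finset.mem_insert, Finset.mem_singleton] at hy
    push Not at hy
    exact apn_ne hapn one_ne_zero hy.1 (Ne.symm hy.2) 0 (h1 0 1 y)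

/-- the cube, one changed coordinate: the EA-class -/
theorem cube_class {n : ℕ} (hn : 610 ≤ n) {F : Type}
    [Field F] [Fintype F] (hF : Fintype.card F = 2 ^ n) (u : F) (G0 s G : F → F)
    (hG0 : EA G0 (fun x => x ^ 3)) (h01 : ∀ x, s x = 0 ∨ s x = 1)
    (hGs : ∀ x, G x = G0 x + u * s x) (hapn : IsAPN G) :
    EA G (fun x => x ^ 3) ∨
      ∃ a : F, a ≠ 0 ∧ EA G (fun x => x ^ 3 + a⁻¹ * Tr n (a ^ 3 * x ^ 9)) := by
  classical
  have : CharP F 2 := charP_of_card_eq_prime_pow (p := 2) (f := n) (by simpa using hF)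
  have two : (2 : F) = 0 := CharTwo.two_eq_zero
  obtain ⟨A, B, C, c, d, hAB⟩ := hG0
  by_cases hu : u = 0
  · exact Or.inl ⟨A, B, C, c, d, fun x => by rw [hGs, hu, zero_mul, add_zero, hAB]⟩
  have hM := toMB (i := 1) A B C c d hAB h01 hGs hapn hu
  have hu' : A.symm u ≠ 0 := by
    intro h0
    apply hu
    have := congrArg A h0
    rwa [AddEquiv.apply_symm_apply, map_zero] at this
  have htr : ∀ z : F, tr n z = 0 ∨ tr n z = 1 := fun z => zero_or_one_of_sq (tr_sq hF z)
  have hAu : ∀ e : F, (e = 0 ∨ e = 1) → A (A.symm u * e) = u * e := by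
    rintro e (rfl | rfl)
    · rw [mul_zero, mul_zero, map_zero]
    · rw [mul_one, mul_one, AddEquiv.apply_symm_apply]
  have e1 : ∀ x, B.symm (B x + c + c) = x := by
    intro x
    rw [add_assoc, CharTwo.add_self_eq_zero, add_zero, AddEquiv.symm_apply_apply]
  obtain ⟨c0, e0, l, hcu, he0, hl⟩ := cube_bool hn hF hu' hM
  obtain ⟨L, hL⟩ := invol hF hcu
  have hs' : ∀ x, s x = tr n (c0 * (B x + c) ^ 3) + tr n (e0 * (B x + c) ^ 9) + l (B x) + l c
      + s (B.symm (0 + c)) := by
    intro x
    have h1 := hl (B x + c)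
    rw [e1, map_add] at h1
    rw [h1]
    ring
  have t0 : tr n (0 : F) = 0 := (tau F n).map_zero
  rcases he0 with h0 | h0
  · left
    refine ⟨L.trans A, B, C + (AddMonoidHom.mulLeft u).comp (l.comp B.toAddMonoidHom), c,
      d + u * (l c + s (B.symm (0 + c))), ?_⟩
    intro x
    rw [hGs, hAB]
    show A ((B x + c) ^ 3) + C x + d + u * s x
      = A (L ((B x + c) ^ 3)) + (C x + u * l (B x)) + (d + u * (l c + s (B.symm (0 + c))))
    rw [hL, map_add A, hAu _ (htr _), hs' x, h0, zero_mul, t0]
    ring
  · right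
    refine ⟨(A.symm u)⁻¹, inv_ne_zero hu', L.trans A, B,
      C + (AddMonoidHom.mulLeft u).comp (l.comp B.toAddMonoidHom), c,
      d + u * (l c + s (B.symm (0 + c))), ?_⟩
    intro x
    rw [hGs, hAB]
    show A ((B x + c) ^ 3) + C x + d + u * s x
      = A (L ((B x + c) ^ 3 + (A.symm u)⁻¹⁻¹ * tr n ((A.symm u)⁻¹ ^ 3 * (B x + c) ^ 9)))
        + (C x + u * l (B x)) + (d + u * (l c + s (B.symm (0 + c))))
    have he : (A.symm u)⁻¹ ^ 3 = e0 := by
      rw [inv_pow]
      exact (eq_inv_of_mul_eq_one_left h0).symm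
    have hLu : ∀ e : F, (e = 0 ∨ e = 1) → L (A.symm u * e) = A.symm u * e := by
      rintro e (rfl | rfl)
      · rw [mul_zero, map_zero]
      · rw [mul_one, hL, hcu, mul_zero, add_zero]
    rw [he, inv_inv, map_add L, hLu _ (htr _), hL, map_add A, map_add A, hAu _ (htr _),
      hAu _ (htr _), hs' x]
    ring

end Pool.Agent.Lib.MP_eacabd_co.Wide8
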