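import Mathlib
import Pool.Agent.Lib.MP_eacabd_co.Wide8.Stmts3
import Pool.Agent.Lib.MP_eacabd_co.Wide8.Bridge
import Pool.Agent.Lib.MP_eacabd_co.Wide8.Cube8

/-!
Switching of the Gold functions in the wide sense: the theorems, from the rigidity of the
directions which are not vertical.
-/

set_option autoImplicit false

namespace Pool.Agent.Lib.MP_eacabd_co.Wide8

open Pool.Agent.Lib.MP_eacabd_co Pool.Agent.Lib.MP_eacabd_co.Gold8

/-- one step in the wide sense: a CCZ-equivalence, or a change of one coordinate function which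
leads to an APN function -/
def StepCCZ {F : Type} [Field F] (G H : F → F) : Prop :=
  CCZ H G ∨ (IsAPN H ∧ ∃ (u : F) (f : F → F), (∀ x, f x = 0 ∨ f x = 1) ∧
    ∀ x, H x = G x + u * f x)

/-- the Gold functions with `i ≥ 2` -/
theorem goldCCZ (hR : StRig) : ∀ i n : ℕ, 2 ≤ i → Nat.Coprime i n → 400 * i ^ 2 ≤ n →
    ∀ (F : Type) [Field F] [Fintype F], Fintype.card F = 2 ^ n →
    ∀ G : F → F, Relation.ReflTransGen StepCCZ (fun x => x ^ (2 ^ i + 1)) G →
    CCZ G (fun x => x ^ (2 ^ i + 1)) ∧ ¬ PropN G := by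
  intro i n hi hc hn F _ _ hF G hG
  have hn5 : 5 ≤ n := by
    have : 1 ≤ i ^ 2 := Nat.one_le_pow _ _ (by omega)
    omega
  have h : CCZ G (fun x => x ^ (2 ^ i + 1)) := by
    induction hG with
    | refl => exact BrAux.ccz_refl _
    | tail _ h1 ih =>
      rcases h1 with h1 | ⟨h1, u, f, hf, h2⟩
      · exact BrAux.ccz_trans h1 ih
      · rcases bridge i n hn5 hc F hF (hR i n hn5 hc F hF) _ _ u f ih hf h2 h1 with
          h3 | ⟨w, k, hk, h4, h5⟩
        · exact h3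
        · exact BrAux.ccz_trans h5 (BrAux.ccz_of_ea
            (switch_gold hi hc hn hF w _ k _ (EA.refl _) hk (fun x => rfl) h4))
  exact ⟨h, fun hN => hN.2 _ (quadratic_gold (by omega) hc hF (EA.refl _)) h⟩

/-- the Gold functions: directions which are not vertical -/
theorem nonvertical (hR : StRig) : ∀ i n : ℕ, 5 ≤ n → Nat.Coprime i n →
    ∀ (F : Type) [Field F] [Fintype F], Fintype.card F = 2 ^ n →
    ∀ (L : (F × F) ≃+ (F × F)) (c : F × F) (u : F) (G₀ f G : F → F),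
    (fun p => L p + c) '' {p : F × F | p.2 = p.1 ^ (2 ^ i + 1)} = {p : F × F | p.2 = G₀ p.1} →
    (L.symm (0, u)).1 ≠ 0 → (∀ x, f x = 0 ∨ f x = 1) → (∀ x, G x = G₀ x + u * f x) → IsAPN G →
    CCZ G (fun x => x ^ (2 ^ i + 1)) ∧ ¬ PropN G := by
  intro i n hn hc F _ _ hF L c u G₀ f G hL hv hf hG hapn
  obtain ⟨σ, hσ, hL'⟩ := BrAux.param (G := fun x => x ^ (2 ^ i + 1)) hL
  have h := nonvert hn hc hF (hR i n hn hc F hF) G₀ G u f L c σ hσ hL' hv hf hG hapn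
  exact ⟨h, fun hN => hN.2 _ (quadratic_gold (by omega) hc hF (EA.refl _)) h⟩

/-- the inverse of a Gold permutation -/
theorem inverseGold (hR : StRig) : ∀ i n : ℕ, 5 ≤ n → Nat.Coprime i n →
    ∀ (F : Type) [Field F] [Fintype F], Fintype.card F = 2 ^ n →
    ∀ (u : F) (G₀ f G : F → F), (∀ x, G₀ (x ^ (2 ^ i + 1)) = x) →
    (∀ x, f x = 0 ∨ f x = 1) → (∀ x, G x = G₀ x + u * f x) → IsAPN G →
    CCZ G (fun x => x ^ (2 ^ i + 1)) ∧ ¬ PropN G := by
  intro i n hn hc F _ _ hF u G₀ f G hinv hf hG hapn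
  have hinj : Function.Injective (fun x : F => x ^ (2 ^ i + 1)) := fun x y hxy => by
    rw [← hinv x, ← hinv y]
    exact congrArg G₀ hxy
  have hsurj := Finite.surjective_of_injective hinj
  have hL : (fun p => (AddEquiv.prodComm : (F × F) ≃+ (F × F)) p + 0) ''
      {p : F × F | p.2 = p.1 ^ (2 ^ i + 1)} = {p : F × F | p.2 = G₀ p.1} := by
    refine Set.ext fun p => ⟨?_, ?_⟩
    · rintro ⟨⟨a, b⟩, hab, rfl⟩
      obtain rfl : b = a ^ (2 ^ i + 1) := hab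
      show a + 0 = G₀ (a ^ (2 ^ i + 1) + 0)
      rw [add_zero, add_zero, hinv]
    · intro hp
      obtain ⟨x, hx⟩ := hsurj p.1
      have hx' : x ^ (2 ^ i + 1) = p.1 := hx
      refine ⟨(x, x ^ (2 ^ i + 1)), rfl, ?_⟩
      refine Prod.ext ?_ ?_
      · show x ^ (2 ^ i + 1) + 0 = p.1
        rw [add_zero, hx']
      · show x + 0 = p.2
        have hp' : p.2 = G₀ p.1 := hp
        rw [add_zero, hp', ← hx', hinv]
  by_cases hu : u = 0
  · have h1 : G = G₀ := funext fun x => by rw [hG, hu, zero_mul, add_zero]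
    have h : CCZ G (fun x => x ^ (2 ^ i + 1)) := by
      rw [h1]
      exact BrAux.ccz_symm ⟨_, _, hL⟩
    exact ⟨h, fun hN => hN.2 _ (quadratic_gold (by omega) hc hF (EA.refl _)) h⟩
  · exact nonvertical hR i n hn hc F hF _ _ u G₀ f G hL hu hf hG hapn

/-- the cube -/
theorem cubeCCZ (hR : StRig) : ∀ n : ℕ, 5 ≤ n →
    ∀ (F : Type) [Field F] [Fintype F], Fintype.card F = 2 ^ n →
    ∀ (u : F) (G₀ f G : F → F), CCZ G₀ (fun x => x ^ 3) → (∀ x, f x = 0 ∨ f x = 1) →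
    (∀ x, G x = G₀ x + u * f x) → IsAPN G →
    (∃ Q : F → F, IsQuadratic Q ∧ CCZ G Q) ∧ ¬ PropN G := by
  intro n hn F _ _ hF u G₀ f G hG₀ hf hG hapn
  have h : ∃ Q : F → F, IsQuadratic Q ∧ CCZ G Q := by
    rcases bridge 1 n hn (Nat.coprime_one_left n) F hF
      (hR 1 n hn (Nat.coprime_one_left n) F hF) G₀ G u f hG₀ hf hG hapn with
        h3 | ⟨w, k, hk, h4, h5⟩
    · exact ⟨_, quadratic_gold (by omega) (Nat.coprime_one_left n) hF (EA.refl _), h3⟩
    · refine ⟨_, cube_quad hn hF (AddEquiv.refl F) (AddEquiv.refl F) 0 0 0 w k _ hk ?_ h4, h5⟩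
      intro x
      simp
  refine ⟨h, fun hN => ?_⟩
  obtain ⟨Q, hQ, h1⟩ := h
  exact hN.2 Q hQ h1

/-- the cube, large dimension -/
theorem cubeClassCCZ (hR : StRig) : ∀ n : ℕ, 610 ≤ n →
    ∀ (F : Type) [Field F] [Fintype F], Fintype.card F = 2 ^ n →
    ∀ (u : F) (G₀ f G : F → F), CCZ G₀ (fun x => x ^ 3) → (∀ x, f x = 0 ∨ f x = 1) →
    (∀ x, G x = G₀ x + u * f x) → IsAPN G →
    CCZ G (fun x => x ^ 3) ∨
      ∃ a : F, a ≠ 0 ∧ CCZ G (fun x => x ^ 3 + a⁻¹ * Tr n (a ^ 3 * x ^ 9)) := by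
  intro n hn F _ _ hF u G₀ f G hG₀ hf hG hapn
  have hn5 : 5 ≤ n := by omega
  rcases bridge 1 n hn5 (Nat.coprime_one_left n) F hF
    (hR 1 n hn5 (Nat.coprime_one_left n) F hF) G₀ G u f hG₀ hf hG hapn with
      h3 | ⟨w, k, hk, h4, h5⟩
  · exact Or.inl h3
  · rcases cube_class hn hF w (fun x => x ^ 3) k (fun x => x ^ (2 ^ 1 + 1) + w * k x)
      (EA.refl _) hk (fun x => rfl) h4 with h6 | ⟨a, ha, h6⟩
    · exact Or.inl (BrAux.ccz_trans h5 (BrAux.ccz_of_ea h6))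
    · exact Or.inr ⟨a, ha, BrAux.ccz_trans h5 (BrAux.ccz_of_ea h6)⟩

end Pool.Agent.Lib.MP_eacabd_co.Wide8
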