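import Mathlib
import Pool.Agent.Lib.MP_eacabd_co.Wide8.IdB

/-!
Switching in the wide sense: the second identity (weight `A_c B_d + A_d B_c`).
-/

set_option autoImplicit false
set_option linter.unusedSectionVars false

namespace Pool.Agent.Lib.MP_eacabd_co.Wide8

open Finset Pool.Agent.Lib.MP_eacabd_co Pool.Agent.Lib.MP_eacabd_co.Gold8

variable {n : ℕ} [NeZero n] {F : Type} [Field F] [Fintype F] [DecidableEq F] [CharP F 2]
variable {i : ℕ} (hc : Nat.Coprime i n) (hF : Fintype.card F = 2 ^ n)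

/-- the cyclic interval from `c` to `d - 1` -/
def II (c d : ZMod n) : Finset (ZMod n) := univ.filter (fun t => (t - c).val < (d - c).val)

theorem mem_II {c d t : ZMod n} : t ∈ II c d ↔ (t - c).val < (d - c).val := by
  unfold II
  rw [mem_filter]
  exact and_iff_right (mem_univ _)

theorem sum_II (c d : ZMod n) (G : ZMod n → F) :
    ∑ t ∈ II c d, G t = ∑ k ∈ range (d - c).val, G (c + (k : ZMod n)) := by
  have hval : ∀ k : ℕ, k < (d - c).val → ((k : ZMod n)).val = k := fun k hk =>
    ZMod.val_cast_of_lt (hk.trans (ZMod.val_lt _))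
  refine sum_nbij' (fun t => (t - c).val) (fun k => c + (k : ZMod n)) ?_ ?_ ?_ ?_ ?_
  · intro t ht
    exact mem_range.2 (mem_II.1 ht)
  · intro k hk
    rw [mem_range] at hk
    rw [mem_II, add_sub_cancel_left, hval k hk]
    exact hk
  · intro t _
    show c + (((t - c).val : ℕ) : ZMod n) = t
    rw [ZMod.natCast_zmod_val]
    ring
  · intro k hk
    rw [mem_range] at hk
    show (c + (k : ZMod n) - c).val = k
    rw [add_sub_cancel_left, hval k hk]
  · intro t _
    show G t = G (c + (((t - c).val : ℕ) : ZMod n))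
    rw [ZMod.natCast_zmod_val]
    congr 1
    ring

theorem tel_range (g : ZMod n → F) (c : ZMod n) (m : ℕ) :
    ∑ k ∈ range m, (g (c + (k : ZMod n) + 1) + g (c + (k : ZMod n)))
      = g (c + (m : ZMod n)) + g c := by
  have two : (2 : F) = 0 := CharTwo.two_eq_zero
  induction m with
  | zero => rw [sum_range_zero, Nat.cast_zero, add_zero, CharTwo.add_self_eq_zero]
  | succ m ih =>
    rw [sum_range_succ, ih]
    have e : c + ((m + 1 : ℕ) : ZMod n) = c + (m : ZMod n) + 1 := by push_cast; ring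
    rw [e]
    linear_combination (g (c + (m : ZMod n))) * two

theorem tel_II (g : ZMod n → F) (c d : ZMod n) :
    ∑ t ∈ II c d, (g (t + 1) + g t) = g d + g c := by
  rw [sum_II c d (fun t => g (t + 1) + g t), tel_range g c, ZMod.natCast_zmod_val]
  congr 2
  ring

include hF in
theorem phi_eq (c d : ZMod n) {K A y : F} (hA : A ≠ 0)
    (hy : A ^ (2 ^ i + 1) * (y ^ (2 ^ i) + y) = K) :
    fr i c A * fr i d A * ∑ t ∈ II c d, fr i t (K / A ^ (2 ^ i + 1))
      = fr i c A * fr i d (A * y) + fr i d A * fr i c (A * y) := by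
  have h1 : K / A ^ (2 ^ i + 1) = y ^ (2 ^ i) + y := by
    rw [← hy, mul_div_cancel_left₀]
    exact pow_ne_zero _ hA
  have h2 : ∀ t : ZMod n, fr i t (K / A ^ (2 ^ i + 1)) = fr i (t + 1) y + fr i t y := by
    intro t
    rw [h1, fr_add, fr_succ hF]
  rw [sum_congr rfl fun t _ => h2 t, tel_II (fun t => fr i t y), fr_mul, fr_mul]
  ring

include hc hF in
theorem one_tr_mul (c d : ZMod n) (v : F) :
    (1 + tr n v) * ∑ t ∈ II c d, fr i t v =
      (∑ t : ZMod n, ((if t ∈ II c d then 1 else 0) + (if t - sh n i ∈ II c d then 1 else 0))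
        * fr i t v) + ∑ t ∈ II c d, ∑ l ∈ (II c d)ᶜ, fr i t v * fr i l v := by
  have h1 : tr n v = ∑ t ∈ II c d, fr i t v + ∑ l ∈ (II c d)ᶜ, fr i l v := by
    rw [tr_eq_sum hc hF, sum_add_sum_compl]
  have h2 : (∑ t ∈ II c d, fr i t v) ^ 2 = ∑ t ∈ II c d, fr i (t + sh n i) v := by
    rw [sum_pow_char 2]
    refine sum_congr rfl fun t _ => ?_
    rw [fr_sq hc hF]
  have h3 : ∑ t ∈ II c d, fr i (t + sh n i) v
      = ∑ t : ZMod n, (if t - sh n i ∈ II c d then 1 else 0) * fr i t v := by
    rw [← Equiv.sum_comp (Equiv.addRight (sh n i))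
      (fun t : ZMod n => (if t - sh n i ∈ II c d then 1 else 0) * fr i t v)]
    have e : ∀ t : ZMod n, (Equiv.addRight (sh n i)) t - sh n i = t := by
      intro t
      show t + sh n i - sh n i = t
      ring
    simp only [e]
    simp
  have h4 : ∑ t ∈ II c d, fr i t v = ∑ t : ZMod n, (if t ∈ II c d then 1 else 0) * fr i t v := by
    simp
  have h5 : (∑ t ∈ II c d, fr i t v) * (∑ l ∈ (II c d)ᶜ, fr i l v)
      = ∑ t ∈ II c d, ∑ l ∈ (II c d)ᶜ, fr i t v * fr i l v := sum_mul_sum _ _ _ _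
  rw [h1, ← h5, sum_congr rfl fun t _ => add_mul _ _ _, sum_add_distrib, ← h4, ← h3, ← h2]
  ring

theorem triple (S S' : Finset (ZMod n)) (T : Finset (ZMod n) → ZMod n → ZMod n → F)
    (N0 : Finset (ZMod n)) (t0 l0 : ZMod n) (ht : t0 ∈ S) (hl : l0 ∈ S') :
    ∑ N : Finset (ZMod n), ∑ t ∈ S, ∑ l ∈ S', (if t = t0 ∧ l = l0 ∧ N = N0 then 1 else 0) * T N t l
      = T N0 t0 l0 := by
  rw [sum_eq_single N0, sum_eq_single t0, sum_eq_single l0]
  · rw [if_pos ⟨rfl, rfl, rfl⟩, one_mul]
  · intro l _ h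
    rw [if_neg fun h0 => h h0.2.1, zero_mul]
  · intro h
    exact absurd hl h
  · intro t _ h
    refine sum_eq_zero fun l _ => ?_
    rw [if_neg fun h0 => h h0.1, zero_mul]
  · intro h
    exact absurd ht h
  · intro N _ h
    refine sum_eq_zero fun t _ => sum_eq_zero fun l _ => ?_
    rw [if_neg fun h0 => h h0.2.2, zero_mul]
  · intro h
    exact absurd (mem_univ _) h

/-- the second identity as a polynomial identity -/
theorem idA (hP : StPlane) {κ : F} (hκ : tr n κ = 1) {h : F → F} (hR : Rel i κ h) (c d : ZMod n)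
    (x : F) :
    ∑ N : Finset (ZMod n), ((∑ t : ZMod n, ((if t ∈ II c d then 1 else 0)
        + (if t - sh n i ∈ II c d then 1 else 0))
        * (∑ A ∈ univ.erase (0 : F), fr i c A * fr i d A * (X i N A + 1) /
          (fr i t A * fr i (t + 1) A)) * (kp i κ t x * Wide8.dN hc hF N h x))
      + ∑ t ∈ II c d, ∑ l ∈ (II c d)ᶜ, (∑ A ∈ univ.erase (0 : F), fr i c A * fr i d A *
          (X i N A + 1) / (fr i t A * fr i (t + 1) A * (fr i l A * fr i (l + 1) A)))
          * (kp i κ t x * (kp i κ l x * Wide8.dN hc hF N h x))) = 0 := by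
  have two : (2 : F) = 0 := CharTwo.two_eq_zero
  set K : F := κ + x ^ (2 ^ i) + x with hK
  have h1 := hP i n hc F hF K (kx_ne hc hF hκ x) (fun A B => fr i c A * fr i d B + fr i d A * fr i c B)
    (fun A B => by ring)
    (fun A B => by
      show fr i c (A + B) * fr i d B + fr i d (A + B) * fr i c B
        = fr i c A * fr i d B + fr i d A * fr i c B
      rw [fr_add, fr_add]
      linear_combination (fr i c B * fr i d B) * two) h x
    (fun A B hAB => hR x A B hAB)
    (fun A => fr i c A * fr i d A * ∑ t ∈ II c d, fr i t (K / A ^ (2 ^ i + 1)))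
    (fun A y hA hy => phi_eq hF c d hA hy)
  refine Eq.trans ?_ h1
  have h2 : ∀ A : F, h (x + A) + h (x + 1)
      = ∑ N : Finset (ZMod n), (X i N A + 1) * Wide8.dN hc hF N h x := by
    intro A
    rw [taylor hc hF h x A, taylor_one hc hF h x, ← sum_add_distrib]
    refine sum_congr rfl fun N _ => ?_
    ring
  have h3 : ∀ A : F, (1 + tr n (K / A ^ (2 ^ i + 1))) * (fr i c A * fr i d A *
      ∑ t ∈ II c d, fr i t (K / A ^ (2 ^ i + 1))) * (h (x + A) + h (x + 1))
      = ∑ N : Finset (ZMod n), ((∑ t : ZMod n, ((if t ∈ II c d then 1 else 0)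
        + (if t - sh n i ∈ II c d then 1 else 0))
        * (fr i c A * fr i d A * (X i N A + 1) /
          (fr i t A * fr i (t + 1) A)) * (kp i κ t x * Wide8.dN hc hF N h x))
      + ∑ t ∈ II c d, ∑ l ∈ (II c d)ᶜ, (fr i c A * fr i d A *
          (X i N A + 1) / (fr i t A * fr i (t + 1) A * (fr i l A * fr i (l + 1) A)))
          * (kp i κ t x * (kp i κ l x * Wide8.dN hc hF N h x))) := by
    intro A
    rw [h2, mul_sum]
    refine sum_congr rfl fun N _ => ?_
    have e : (1 + tr n (K / A ^ (2 ^ i + 1))) * (fr i c A * fr i d A *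
        ∑ t ∈ II c d, fr i t (K / A ^ (2 ^ i + 1))) * ((X i N A + 1) * Wide8.dN hc hF N h x)
        = fr i c A * fr i d A * (X i N A + 1) * Wide8.dN hc hF N h x *
          ((1 + tr n (K / A ^ (2 ^ i + 1))) * ∑ t ∈ II c d, fr i t (K / A ^ (2 ^ i + 1))) := by
      ring
    rw [e, one_tr_mul hc hF, mul_add, mul_sum, mul_sum]
    congr 1
    · refine sum_congr rfl fun t _ => ?_
      rw [fr_quot hF]
      unfold kp
      ring
    · refine sum_congr rfl fun t _ => ?_
      rw [mul_sum]
      refine sum_congr rfl fun l _ => ?_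
      rw [fr_quot hF, fr_quot hF]
      unfold kp
      rw [div_mul_div_comm]
      ring
  rw [sum_congr rfl fun A _ => h3 A, sum_comm]
  refine sum_congr rfl fun N _ => ?_
  rw [sum_add_distrib]
  congr 1
  · rw [sum_comm]
    refine sum_congr rfl fun t _ => ?_
    rw [mul_sum, sum_mul]
  · conv_rhs => rw [sum_comm]
    refine sum_congr rfl fun t _ => ?_
    conv_rhs => rw [sum_comm]
    refine sum_congr rfl fun l _ => ?_
    rw [sum_mul]

end Pool.Agent.Lib.MP_eacabd_co.Wide8
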