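import Pool.Agent.Lib.MP_eacabd_co.Wide8.Stmts2

/-!
Switching in the wide sense: character sums over `F` (module CHARS).
-/

set_option autoImplicit false
set_option linter.unusedSectionVars false

namespace Pool.Agent.Lib.MP_eacabd_co.Wide8

open Finset Pool.Agent.Lib.MP_eacabd_co Pool.Agent.Lib.MP_eacabd_co.Gold8

theorem orth : StOrth := by
  intro i n _ hc F _ _ _ _ hF P Q hP hQ
  have h20 : (2 : F) = 0 := CharTwo.two_eq_zero
  split_ifs with h
  · subst h
    have h1 : ∑ A ∈ univ.erase (0 : F), X i P A * (X i P A)⁻¹ =
        ∑ A ∈ univ.erase (0 : F), (1 : F) :=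
      sum_congr rfl fun A hA => mul_inv_cancel₀ (X_ne i P (ne_of_mem_erase hA))
    rw [h1, sum_const, card_erase_of_mem (mem_univ _), card_univ, hF, nsmul_eq_mul, mul_one,
      Nat.cast_sub Nat.one_le_two_pow, Nat.cast_pow, Nat.cast_ofNat, h20,
      zero_pow (NeZero.ne n), Nat.cast_one, zero_sub, CharTwo.neg_eq]
  · by_cases hg : ∀ a : F, a ≠ 0 → X i P a * (X i Q a)⁻¹ = 1
    · exfalso
      have h1 : (X i P : F → F) = X i Q := by
        funext a
        by_cases ha : a = 0
        · rw [ha, X_zero i hP, X_zero i hQ]
        · exact (mul_inv_eq_one₀ (X_ne i Q ha)).1 (hg a ha)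
      have h2 := cf_X hc hF P P
      rw [h1, cf_X, if_neg (fun e => h e.symm), if_pos rfl] at h2
      exact zero_ne_one h2
    · push Not at hg
      obtain ⟨a, ha, h1⟩ := hg
      have h2 : ∑ A ∈ univ.erase (0 : F), X i P A * (X i Q A)⁻¹ =
          X i P a * (X i Q a)⁻¹ * ∑ A ∈ univ.erase (0 : F), X i P A * (X i Q A)⁻¹ := by
        rw [mul_sum]
        symm
        refine sum_nbij' (fun A => a * A) (fun A => a⁻¹ * A) ?_ ?_ ?_ ?_ ?_
        · intro A hA
          exact mem_erase.2 ⟨mul_ne_zero ha (ne_of_mem_erase hA), mem_univ _⟩
        · intro A hA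
          exact mem_erase.2 ⟨mul_ne_zero (inv_ne_zero ha) (ne_of_mem_erase hA), mem_univ _⟩
        · intro A _
          exact inv_mul_cancel_left₀ ha A
        · intro A _
          exact mul_inv_cancel_left₀ ha A
        · intro A _
          rw [X_mul, X_mul, mul_inv]
          ring
      set S := ∑ A ∈ univ.erase (0 : F), X i P A * (X i Q A)⁻¹ with hS
      have h3 : (X i P a * (X i Q a)⁻¹ - 1) * S = 0 := by
        rw [sub_mul, one_mul, ← h2, sub_self]
      rcases mul_eq_zero.1 h3 with h4 | h4
      · exact absurd (sub_eq_zero.1 h4) h1
      · exact h4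

section

variable {n : ℕ} [NeZero n] {F : Type} [Field F] [Fintype F] [DecidableEq F] [CharP F 2]
  {i : ℕ}

/-- the product over a list is a monomial -/
theorem red96 (hc : Nat.Coprime i n) (hF : Fintype.card F = 2 ^ n) :
    ∀ m : ℕ, ∀ L : List (ZMod n), L.length = m → L ≠ [] →
    ∃ P : Finset (ZMod n), P.Nonempty ∧ P.card ≤ L.length ∧
      (∀ A : F, (L.map (fun j => fr i j A)).prod = X i P A) ∧
      (P.card = L.length → L.Nodup ∧ P = L.toFinset) := by
  intro m
  induction m with
  | zero =>
    intro L h0 h1
    exact absurd (List.length_eq_zero_iff.1 h0) h1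
  | succ m ih =>
    intro L hm hL
    by_cases hn : L.Nodup
    · refine ⟨L.toFinset, ?_, ?_, fun A => ?_, fun _ => ⟨hn, rfl⟩⟩
      · rw [List.toFinset_nonempty_iff]
        exact hL
      · exact List.toFinset_card_le L
      · unfold X
        rw [List.prod_toFinset _ hn]
    · obtain ⟨x, hx⟩ := List.exists_duplicate_iff_not_nodup.2 hn
      obtain ⟨L', hL'⟩ := (List.duplicate_iff_sublist.1 hx).exists_perm_append
      have hlen : L.length = L'.length + 2 := by
        rw [hL'.length_eq]
        simp
      obtain ⟨P, hP1, hP2, hP3, hP4⟩ := ih ((x + sh n i) :: L') (by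
        rw [List.length_cons]
        omega) (List.cons_ne_nil _ _)
      rw [List.length_cons] at hP2
      refine ⟨P, hP1, by omega, fun A => ?_, fun h => by omega⟩
      rw [← hP3 A, (hL'.map _).prod_eq]
      simp only [List.cons_append, List.nil_append, List.map_cons, List.prod_cons]
      rw [← fr_sq hc hF, pow_two, mul_assoc]

/-- the sum with a list in the numerator -/
theorem zero_of96 (hc : Nat.Coprime i n) (hF : Fintype.card F = 2 ^ n) {L : List (ZMod n)}
    {Q : Finset (ZMod n)} (hL : L ≠ []) (hQ : Q.Nonempty) (hlen : L.length ≤ Q.card)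
    (hne : ¬ (L.Nodup ∧ L.toFinset = Q)) :
    ∑ A ∈ univ.erase (0 : F), (L.map (fun j => fr i j A)).prod * (X i Q A)⁻¹ = 0 := by
  obtain ⟨P, hP1, hP2, hP3, hP4⟩ := red96 (F := F) hc hF L.length L rfl hL
  have h1 : P ≠ Q := by
    intro h
    subst h
    obtain ⟨h2, h3⟩ := hP4 (le_antisymm hP2 hlen)
    exact hne ⟨h2, h3.symm⟩
  rw [sum_congr rfl fun A _ => by rw [hP3 A], orth i n hc F hF P Q hP1 hQ, if_neg h1]

theorem X_pair {t t' : ZMod n} (h : t ≠ t') (A : F) :
    X i ({t, t'} : Finset (ZMod n)) A = fr i t A * fr i t' A := by
  unfold X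
  rw [prod_pair h]

/-- `(a - 1).val` -/
theorem val_pred {a : ZMod n} (h : a ≠ 0) : (a - 1).val + 1 = a.val := by
  have h1 : 1 ≤ a.val := by
    rw [Nat.one_le_iff_ne_zero, Ne, ZMod.val_eq_zero]
    exact h
  have h2 : (a - 1) = ((a.val - 1 : ℕ) : ZMod n) := by
    rw [Nat.cast_sub h1, ZMod.natCast_zmod_val, Nat.cast_one]
  have h3 := ZMod.val_lt a
  rw [h2, ZMod.val_cast_of_lt (by omega)]
  omega

theorem val_neg_one' : ((-1 : ZMod n)).val + 1 = n := by
  obtain ⟨m, hm⟩ := Nat.exists_eq_succ_of_ne_zero (NeZero.ne n)
  subst hm
  rw [ZMod.val_neg_one]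

theorem succ_ne (hn : 5 ≤ n) (t : ZMod n) : t ≠ t + 1 := by
  intro h
  have h1 : (1 : ZMod n) = 0 := by
    have := congrArg (fun x => x - t) h
    simpa using this.symm
  have h2 : ((1 : ℕ) : ZMod n) = 0 := by simpa using h1
  rw [ZMod.natCast_eq_zero_iff] at h2
  have := Nat.le_of_dvd one_pos h2
  omega

theorem succ2_ne (hn : 5 ≤ n) (t : ZMod n) : t ≠ t + 1 + 1 := by
  intro h
  have h1 : (1 + 1 : ZMod n) = 0 := by
    have := congrArg (fun x => x - t) h
    simp only [sub_self] at this
    rw [this]
    ring
  have h2 : ((2 : ℕ) : ZMod n) = 0 := by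
    push_cast
    rw [← h1]
    norm_num
  rw [ZMod.natCast_eq_zero_iff] at h2
  have := Nat.le_of_dvd two_pos h2
  omega

end

theorem chU : StU := by
  intro i n _ hn hc F _ _ _ _ hF c d h1 h2 h3 t
  have ht := succ_ne hn t
  have hQc : ({t, t + 1} : Finset (ZMod n)).card = 2 := card_pair ht
  have hQn : ({t, t + 1} : Finset (ZMod n)).Nonempty := ⟨t, mem_insert_self _ _⟩
  have hpair : ∀ x y : ZMod n, ({x, y} : Finset (ZMod n)) = {t, t + 1} →
      (x = t ∧ y = t + 1) ∨ (x = t + 1 ∧ y = t) := by
    intro x y h
    have hx : x ∈ ({t, t + 1} : Finset (ZMod n)) := by rw [← h]; simp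
    have hy : y ∈ ({t, t + 1} : Finset (ZMod n)) := by rw [← h]; simp
    have ht1 : t ∈ ({x, y} : Finset (ZMod n)) := by rw [h]; simp
    have ht2 : t + 1 ∈ ({x, y} : Finset (ZMod n)) := by rw [h]; simp
    simp only [mem_insert, mem_singleton] at hx hy ht1 ht2
    rcases hx with hx | hx
    · left
      refine ⟨hx, ?_⟩
      rcases ht2 with h4 | h4
      · exact absurd (hx.symm.trans h4.symm) ht
      · exact h4.symm
    · right
      refine ⟨hx, ?_⟩
      rcases ht1 with h4 | h4
      · exact absurd (h4.trans hx) ht
      · exact h4.symm
  refine ⟨?_, fun k => ?_⟩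
  · rw [sum_congr rfl (g := fun A => X i ({c, d} : Finset (ZMod n)) A *
      (X i ({t, t + 1} : Finset (ZMod n)) A)⁻¹) fun A _ => by
        rw [X_pair (Ne.symm h1), X_pair ht, div_eq_mul_inv],
      orth i n hc F hF _ _ ⟨c, mem_insert_self _ _⟩ hQn, if_neg]
    intro h
    rcases hpair c d h with ⟨h4, h5⟩ | ⟨h4, h5⟩
    · exact h2 (by rw [h4, h5])
    · exact h3 (by rw [h4, h5]; ring)
  · by_cases hk : k = c ∨ k = d
    · have key : ∀ x y : ZMod n,
          (∀ A : F, fr i c A * fr i d A * fr i k A = fr i x A * fr i y A) →
          (((x = t ∧ y = t + 1) ∨ (x = t + 1 ∧ y = t)) →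
            ((t - c).val < (d - c).val ↔ (t - sh n i - c).val < (d - c).val)) →
          ((t - c).val < (d - c).val ↔ (t - sh n i - c).val < (d - c).val) ∨
          ∑ A ∈ univ.erase (0 : F), fr i c A * fr i d A * fr i k A /
            (fr i t A * fr i (t + 1) A) = 0 := by
        intro x y h4 h5
        by_cases h6 : (x = t ∧ y = t + 1) ∨ (x = t + 1 ∧ y = t)
        · exact Or.inl (h5 h6)
        · right
          rw [sum_congr rfl (g := fun A => ([x, y].map (fun j => fr i j A)).prod *
            (X i ({t, t + 1} : Finset (ZMod n)) A)⁻¹) fun A _ => by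
              rw [h4 A, X_pair ht, div_eq_mul_inv]; simp]
          refine zero_of96 hc hF (List.cons_ne_nil _ _) hQn (by rw [hQc]; simp) ?_
          rintro ⟨-, h7⟩
          apply h6
          apply hpair
          rw [← h7]
          ext z
          simp
      rcases hk with hk | hk
      · refine key (c + sh n i) d (fun A => ?_) ?_
        · rw [hk, ← fr_sq hc hF]
          ring
        · rintro (⟨h4, h5⟩ | ⟨h4, h5⟩)
          · have e1 : t - sh n i - c = 0 := by rw [← h4]; ring
            have e2 : t - c = d - c - 1 := by rw [h5]; ring
            have h6 : d - c ≠ 0 := sub_ne_zero.2 h1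
            have h7 := val_pred h6
            rw [e1, e2, ZMod.val_zero]
            constructor
            · intro _; omega
            · intro _; omega
          · have e1 : t - sh n i - c = -1 := by
              have : sh n i = t + 1 - c := by rw [← h4]; ring
              rw [this]; ring
            have e2 : t - c = d - c := by rw [h5]
            have h7 := val_neg_one' (n := n)
            have h8 := ZMod.val_lt (d - c)
            rw [e1, e2]
            constructor
            · intro h; omega
            · intro h; omega
      · refine key c (d + sh n i) (fun A => ?_) ?_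
        · rw [hk, ← fr_sq hc hF]
          ring
        · rintro (⟨h4, h5⟩ | ⟨h4, h5⟩)
          · have e1 : t - sh n i - c = d - c - 1 := by
              have : sh n i = t + 1 - d := by rw [← h5]; ring
              rw [this, ← h4]; ring
            have e2 : t - c = 0 := by rw [h4]; ring
            have h6 : d - c ≠ 0 := sub_ne_zero.2 h1
            have h7 := val_pred h6
            rw [e1, e2, ZMod.val_zero]
            constructor
            · intro _; omega
            · intro _; omega
          · have e1 : t - sh n i - c = d - c := by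
              rw [← h5]; ring
            have e2 : t - c = -1 := by rw [h4]; ring
            have h7 := val_neg_one' (n := n)
            have h8 := ZMod.val_lt (d - c)
            rw [e1, e2]
            constructor
            · intro h; omega
            · intro h; omega
    · right
      push Not at hk
      obtain ⟨hk1, hk2⟩ := hk
      rw [sum_congr rfl (g := fun A => X i ({k, c, d} : Finset (ZMod n)) A *
        (X i ({t, t + 1} : Finset (ZMod n)) A)⁻¹) fun A _ => by
          rw [X_insert i (by simp [hk1, hk2]), X_pair (Ne.symm h1), X_pair ht, div_eq_mul_inv]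
          ring,
        orth i n hc F hF _ _ ⟨k, mem_insert_self _ _⟩ hQn, if_neg]
      intro h
      have h4 := congrArg Finset.card h
      rw [hQc, card_insert_of_notMem (by simp [hk1, hk2]), card_pair (Ne.symm h1)] at h4
      omega

theorem chV : StV := by
  intro i n _ hn hc F _ _ _ _ hF c d h1 h2 h3 t l ht hl N hN
  have hcd0 : d - c ≠ 0 := sub_ne_zero.2 h1
  have hvp := val_pred hcd0
  have hvd := ZMod.val_lt (d - c)
  have hvl := ZMod.val_lt (l - c)
  have hm1 := val_neg_one' (n := n)
  have htl : t ≠ l := by
    intro h
    rw [h] at ht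
    omega
  have ht1 := succ_ne hn t
  have hl1 := succ_ne hn l
  by_cases hA : t + 1 = l
  · -- `t = d - 1`, `l = d`
    have hld : l = d := by
      have e1 : l - c ≠ 0 := by
        intro h
        rw [h, ZMod.val_zero] at hl
        omega
      have e2 := val_pred e1
      have e3 : l - c - 1 = t - c := by rw [← hA]; ring
      rw [e3] at e2
      have e4 : (l - c).val = (d - c).val := by omega
      have e5 := ZMod.val_injective n e4
      exact sub_left_injective e5
    have htd : t = d - 1 := by rw [← hld, ← hA]; ring
    rw [if_neg]
    · rw [sum_congr rfl (g := fun A => ((c :: N.toList).map (fun j => fr i j A)).prod *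
        (X i ({t, l, l + 1} : Finset (ZMod n)) A)⁻¹) fun A hA' => by
          have hA0 : A ≠ 0 := ne_of_mem_erase hA'
          have q1 := fr_ne i t hA0
          have q2 := fr_ne i l hA0
          have q3 := fr_ne i (l + 1) hA0
          have q5 : t ∉ ({l, l + 1} : Finset (ZMod n)) := by
            simp only [mem_insert, mem_singleton, not_or]
            refine ⟨htl, ?_⟩
            rw [← hA]
            exact succ2_ne hn t
          rw [X_insert i q5, X_pair hl1, List.map_cons, List.prod_cons, Finset.prod_map_toList, hA,
            hld]
          rw [hld] at q2 q3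
          unfold X
          field_simp]
      have q6 : t ∉ ({l, l + 1} : Finset (ZMod n)) := by
        simp only [mem_insert, mem_singleton, not_or]
        refine ⟨htl, ?_⟩
        rw [← hA]
        exact succ2_ne hn t
      refine zero_of96 hc hF (List.cons_ne_nil _ _) ⟨t, mem_insert_self _ _⟩ ?_ ?_
      · rw [card_insert_of_notMem q6, card_pair hl1, List.length_cons, Finset.length_toList]
        omega
      · rintro ⟨-, h7⟩
        have h8 : c ∈ ({t, l, l + 1} : Finset (ZMod n)) := by
          rw [← h7]
          simp
        simp only [mem_insert, mem_singleton] at h8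
        rcases h8 with h8 | h8 | h8
        · exact h2 (by rw [h8, htd]; ring)
        · exact h1 (by rw [h8, hld])
        · exact h3 (by rw [h8, hld]; ring)
    · rintro (⟨h4, h5, -⟩ | ⟨h4, h5, -⟩)
      · exact h2 (by rw [← h4, htd]; ring)
      · exact h3 (by rw [← h5, hld])
  by_cases hB : l + 1 = t
  · have htc : t = c := by
      by_contra h
      have e1 : t - c ≠ 0 := sub_ne_zero.2 h
      have e2 := val_pred e1
      have e3 : t - c - 1 = l - c := by rw [← hB]; ring
      rw [e3] at e2
      omega
    have hlc : l = c - 1 := by rw [← htc, ← hB]; ring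
    rw [if_neg]
    · have q6 : l ∉ ({t, t + 1} : Finset (ZMod n)) := by
        simp only [mem_insert, mem_singleton, not_or]
        refine ⟨Ne.symm htl, ?_⟩
        rw [← hB]
        exact succ2_ne hn l
      rw [sum_congr rfl (g := fun A => ((d :: N.toList).map (fun j => fr i j A)).prod *
        (X i ({l, t, t + 1} : Finset (ZMod n)) A)⁻¹) fun A hA' => by
          have hA0 : A ≠ 0 := ne_of_mem_erase hA'
          have q1 := fr_ne i t hA0
          have q2 := fr_ne i l hA0
          have q3 := fr_ne i (t + 1) hA0
          rw [X_insert i q6, X_pair ht1, List.map_cons, List.prod_cons, Finset.prod_map_toList, hB,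
            htc]
          rw [htc] at q1 q3
          unfold X
          field_simp]
      refine zero_of96 hc hF (List.cons_ne_nil _ _) ⟨l, mem_insert_self _ _⟩ ?_ ?_
      · rw [card_insert_of_notMem q6, card_pair ht1, List.length_cons, Finset.length_toList]
        omega
      · rintro ⟨-, h7⟩
        have h8 : d ∈ ({l, t, t + 1} : Finset (ZMod n)) := by
          rw [← h7]
          simp
        simp only [mem_insert, mem_singleton] at h8
        rcases h8 with h8 | h8 | h8
        · exact h3 (by rw [h8, hlc])
        · exact h1 (by rw [h8, htc])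
        · exact h2 (by rw [h8, htc])
    · rintro (⟨h4, h5, -⟩ | ⟨h4, h5, -⟩)
      · exact h3 (by rw [← h5, hlc])
      · exact h2 (by rw [← htc, h4]; ring)
  -- the general case
  have q1 : l ∉ ({t, t + 1} : Finset (ZMod n)) := by
    simp only [mem_insert, mem_singleton, not_or]
    exact ⟨Ne.symm htl, fun h => hA h.symm⟩
  have q2 : l + 1 ∉ insert l ({t, t + 1} : Finset (ZMod n)) := by
    simp only [mem_insert, mem_singleton, not_or]
    refine ⟨Ne.symm hl1, fun h => hB h, fun h => htl ?_⟩
    exact (add_right_cancel h).symm
  set Q : Finset (ZMod n) := insert (l + 1) (insert l {t, t + 1}) with hQ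
  have hQc : Q.card = 4 := by
    rw [hQ, card_insert_of_notMem q2, card_insert_of_notMem q1, card_pair ht1]
  have hXQ : ∀ A : F, X i Q A = fr i t A * fr i (t + 1) A * (fr i l A * fr i (l + 1) A) := by
    intro A
    rw [hQ, X_insert i q2, X_insert i q1, X_pair ht1]
    ring
  rw [sum_congr rfl (g := fun A => ((c :: d :: N.toList).map (fun j => fr i j A)).prod *
    (X i Q A)⁻¹) fun A _ => by
      rw [hXQ, List.map_cons, List.prod_cons, List.map_cons, List.prod_cons,
        Finset.prod_map_toList, div_eq_mul_inv, mul_assoc (fr i c A)]
      unfold X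
      ring]
  split_ifs with hcond
  · have hN2 : (c :: d :: N.toList).Nodup ∧ (c :: d :: N.toList).toFinset = Q := by
      have e0 : (c :: d :: N.toList).toFinset = insert c (insert d N) := by
        rw [List.toFinset_cons, List.toFinset_cons, Finset.toList_toFinset]
      have e1 : c ∉ N ∧ d ∉ N ∧ insert c (insert d N) = Q := by
        rcases hcond with ⟨h4, h5, h6⟩ | ⟨h4, h5, h6⟩
        · refine ⟨?_, ?_, ?_⟩
          · rw [h6]
            simp only [mem_insert, mem_singleton, not_or]
            exact ⟨succ_ne hn c, fun h => h3 (by rw [h]; ring)⟩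
          · rw [h6]
            simp only [mem_insert, mem_singleton, not_or]
            exact ⟨h2, succ_ne hn d⟩
          · rw [h6, hQ, h4, h5]
            ext z
            simp only [mem_insert, mem_singleton]
            tauto
        · have h4' : t + 1 = d := by rw [h4]; ring
          have h5' : l + 1 = c := by rw [h5]; ring
          refine ⟨?_, ?_, ?_⟩
          · rw [h6]
            simp only [mem_insert, mem_singleton, not_or]
            refine ⟨fun h => ?_, fun h => h2 (by rw [h]; ring)⟩
            have := succ_ne hn (c - 1)
            rw [sub_add_cancel] at this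
            exact this h.symm
          · rw [h6]
            simp only [mem_insert, mem_singleton, not_or]
            refine ⟨h3, fun h => ?_⟩
            have := succ_ne hn (d - 1)
            rw [sub_add_cancel] at this
            exact this h.symm
          · rw [h6, hQ, h4', h5', ← h4, ← h5]
            ext z
            simp only [mem_insert, mem_singleton]
            tauto
      obtain ⟨e2, e3, e4⟩ := e1
      refine ⟨?_, by rw [e0, e4]⟩
      rw [List.nodup_cons, List.nodup_cons]
      refine ⟨?_, ?_, Finset.nodup_toList N⟩
      · rw [List.mem_cons, Finset.mem_toList, not_or]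
        exact ⟨Ne.symm h1, e2⟩
      · rw [Finset.mem_toList]
        exact e3
    obtain ⟨h4, h5⟩ := hN2
    rw [sum_congr rfl (g := fun A => X i Q A * (X i Q A)⁻¹) fun A _ => by
      rw [← List.prod_toFinset _ h4, h5]; rfl]
    rw [orth i n hc F hF Q Q ⟨l + 1, mem_insert_self _ _⟩ ⟨l + 1, mem_insert_self _ _⟩,
      if_pos rfl]
  · refine zero_of96 hc hF (List.cons_ne_nil _ _) ⟨l + 1, mem_insert_self _ _⟩ ?_ ?_
    · rw [hQc, List.length_cons, List.length_cons, Finset.length_toList]
      omega
    · rintro ⟨h7, h8⟩
      apply hcond
      have e0 : (c :: d :: N.toList).toFinset = insert c (insert d N) := by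
        rw [List.toFinset_cons, List.toFinset_cons, Finset.toList_toFinset]
      rw [e0] at h8
      rw [List.nodup_cons, List.nodup_cons, List.mem_cons, Finset.mem_toList, Finset.mem_toList,
        not_or] at h7
      obtain ⟨⟨-, g1⟩, g2, -⟩ := h7
      have hmem : ∀ z, z = c ∨ z = d ∨ z ∈ N ↔ z = l + 1 ∨ z = l ∨ z = t ∨ z = t + 1 := by
        intro z
        have := Finset.ext_iff.1 h8 z
        simpa only [hQ, mem_insert, mem_singleton] using this
      have hc' := (hmem c).1 (Or.inl rfl)
      have hd' := (hmem d).1 (Or.inr (Or.inl rfl))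
      -- `c = t` or `c = l + 1`
      have hcc : c = t ∨ c = l + 1 := by
        rcases hc' with h | h | h | h
        · exact Or.inr h
        · exfalso
          rw [← h, sub_self, ZMod.val_zero] at hl
          omega
        · exact Or.inl h
        · exfalso
          have e : t - c = -1 := by rw [h]; ring
          rw [e] at ht
          omega
      have hdd : d = t + 1 ∨ d = l := by
        rcases hd' with h | h | h | h
        · exfalso
          have e : l - c = d - c - 1 := by rw [h]; ring
          rw [e] at hl
          omega
        · exact Or.inr h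
        · exfalso
          rw [h] at ht
          omega
        · exact Or.inl h
      have hmN : ∀ z, z ∈ N ↔ (z = l + 1 ∨ z = l ∨ z = t ∨ z = t + 1) ∧ z ≠ c ∧ z ≠ d := by
        intro z
        constructor
        · intro hz
          refine ⟨(hmem z).1 (Or.inr (Or.inr hz)), ?_, ?_⟩
          · rintro rfl
            exact g1 hz
          · rintro rfl
            exact g2 hz
        · rintro ⟨hz, hz1, hz2⟩
          rcases (hmem z).2 hz with h | h | h
          · exact absurd h hz1
          · exact absurd h hz2
          · exact h
      rcases hcc with hcc | hcc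
      · rcases hdd with hdd | hdd
        · exact absurd (by rw [hdd, hcc]) h2
        · left
          refine ⟨hcc.symm, hdd.symm, ?_⟩
          ext z
          rw [hmN]
          simp only [mem_insert, mem_singleton]
          rw [← hcc, ← hdd]
          constructor
          · rintro ⟨h | h | h | h, e1, e2⟩
            · exact Or.inr h
            · exact absurd h e2
            · exact absurd h e1
            · exact Or.inl h
          · rintro (h | h)
            · refine ⟨Or.inr (Or.inr (Or.inr h)), ?_, ?_⟩
              · rw [h]; exact Ne.symm (succ_ne hn c)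
              · rw [h]; exact Ne.symm h2
            · refine ⟨Or.inl h, ?_, ?_⟩
              · rw [h]; intro e; exact h3 (by rw [← e]; ring)
              · rw [h]; exact Ne.symm (succ_ne hn d)
      · rcases hdd with hdd | hdd
        · right
          have e1 : t = d - 1 := by rw [hdd]; ring
          have e2 : l = c - 1 := by rw [hcc]; ring
          refine ⟨e1, e2, ?_⟩
          ext z
          rw [hmN]
          simp only [mem_insert, mem_singleton]
          rw [← hcc, ← hdd, e1, e2]
          constructor
          · rintro ⟨h | h | h | h, e3, e4⟩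
            · exact absurd h e3
            · exact Or.inl h
            · exact Or.inr h
            · exact absurd h e4
          · rintro (h | h)
            · refine ⟨Or.inr (Or.inl h), ?_, ?_⟩
              · rw [h]
                intro e
                have := succ_ne hn (c - 1)
                rw [sub_add_cancel] at this
                exact this e
              · rw [h]; exact Ne.symm h3
            · refine ⟨Or.inr (Or.inr (Or.inl h)), ?_, ?_⟩
              · rw [h]; intro e; exact h2 (by rw [← e]; ring)
              · rw [h]
                intro e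
                have := succ_ne hn (d - 1)
                rw [sub_add_cancel] at this
                exact this e
        · exact absurd (by rw [hdd, hcc]; ring) h3

end Pool.Agent.Lib.MP_eacabd_co.Wide8
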