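import Pool.Agent.Lib.MP_eacabd_co.Wide8.Stmts
import Pool.Agent.Lib.MP_eacabd_co.Gold8.Sol

/-!
Switching of the Gold functions in the wide sense: the sum over the planes.
-/

set_option autoImplicit false

namespace Pool.Agent.Lib.MP_eacabd_co.Wide8

open Finset Pool.Agent.Lib.MP_eacabd_co Pool.Agent.Lib.MP_eacabd_co.Gold8

section Plane

variable {F : Type} [Field F] [Fintype F] [DecidableEq F] [CharP F 2]

/-- the sum over the planes, before the division by `κ` -/
theorem plane_aux {i n : ℕ} [NeZero n] (hc : Nat.Coprime i n) (hF : Fintype.card F = 2 ^ n)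
    {κ : F} (hκ : κ ≠ 0) (δ : F → F → F) (hd1 : ∀ A B, δ B A = δ A B)
    (hd2 : ∀ A B, δ (A + B) B = δ A B) (H : F → F) (c : F)
    (hH : ∀ A B, A ^ (2 ^ i) * B + A * B ^ (2 ^ i) = κ → c + H A + H B + H (A + B) = 0)
    (φ : F → F) (hφ : ∀ A y, A ≠ 0 → A ^ (2 ^ i + 1) * (y ^ (2 ^ i) + y) = κ →
      φ A = δ A (A * y)) :
    ∑ A ∈ univ.erase (0 : F), (1 + tr n (κ / A ^ (2 ^ i + 1))) * φ A *
      (κ * H A + A ^ (2 ^ i + 1) * c) = 0 := by
  have h2 : (2 : F) = 0 := CharTwo.two_eq_zero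
  set E : Finset (F × F) := univ.filter
    (fun p => p.1 ^ (2 ^ i) * p.2 + p.1 * p.2 ^ (2 ^ i) = κ) with hE
  have hmE : ∀ A B, (A, B) ∈ E ↔ A ^ (2 ^ i) * B + A * B ^ (2 ^ i) = κ := by
    intro A B
    rw [hE, mem_filter]
    simp
  have hs1 : ∀ A B, (A, B) ∈ E → (B, A) ∈ E := by
    intro A B h
    rw [hmE] at h ⊢
    linear_combination h
  have hs2 : ∀ A B, (A, B) ∈ E → (A + B, B) ∈ E := by
    intro A B h
    rw [hmE] at h ⊢
    rw [add_pow_char_pow]
    linear_combination h + B * B ^ (2 ^ i) * h2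
  -- the weighted sum of the relations
  have h0 : ∑ p ∈ E, p.1 ^ (2 ^ i) * p.2 * δ p.1 p.2 *
      (c + H p.1 + H p.2 + H (p.1 + p.2)) = 0 := by
    refine sum_eq_zero fun p hp => ?_
    rw [hH p.1 p.2 ((hmE p.1 p.2).1 hp), mul_zero]
  have h3 : ∑ p ∈ E, p.1 ^ (2 ^ i) * p.2 * δ p.1 p.2 * H p.2 =
      ∑ p ∈ E, p.2 ^ (2 ^ i) * p.1 * δ p.1 p.2 * H p.1 := by
    refine sum_nbij' (fun p => (p.2, p.1)) (fun p => (p.2, p.1)) ?_ ?_ ?_ ?_ ?_
    · rintro ⟨A, B⟩ hp
      exact hs1 A B hp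
    · rintro ⟨A, B⟩ hp
      exact hs1 A B hp
    · intro p _
      rfl
    · intro p _
      rfl
    · rintro ⟨A, B⟩ _
      simp only
      rw [hd1 A B]
  have h4 : ∑ p ∈ E, p.1 ^ (2 ^ i) * p.2 * δ p.1 p.2 * H (p.1 + p.2) =
      ∑ p ∈ E, (p.1 + p.2) ^ (2 ^ i) * p.2 * δ p.1 p.2 * H p.1 := by
    refine sum_nbij' (fun p => (p.1 + p.2, p.2)) (fun p => (p.1 + p.2, p.2)) ?_ ?_ ?_ ?_ ?_
    · rintro ⟨A, B⟩ hp
      exact hs2 A B hp
    · rintro ⟨A, B⟩ hp
      exact hs2 A B hp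
    · rintro ⟨A, B⟩ _
      simp only
      rw [add_assoc, CharTwo.add_self_eq_zero, add_zero]
    · rintro ⟨A, B⟩ _
      simp only
      rw [add_assoc, CharTwo.add_self_eq_zero, add_zero]
    · rintro ⟨A, B⟩ _
      simp only
      rw [hd2 A B, add_assoc A B B, CharTwo.add_self_eq_zero, add_zero]
  have h5 : ∑ p ∈ E, δ p.1 p.2 * ((p.1 ^ (2 ^ i) * p.2 + p.2 ^ (2 ^ i) * p.1 +
      (p.1 + p.2) ^ (2 ^ i) * p.2) * H p.1 + p.1 ^ (2 ^ i) * p.2 * c) = 0 := by
    rw [← h0]
    have e1 : ∀ p : F × F, p.1 ^ (2 ^ i) * p.2 * δ p.1 p.2 * (c + H p.1 + H p.2 + H (p.1 + p.2)) =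
        p.1 ^ (2 ^ i) * p.2 * δ p.1 p.2 * (c + H p.1) +
        p.1 ^ (2 ^ i) * p.2 * δ p.1 p.2 * H p.2 +
        p.1 ^ (2 ^ i) * p.2 * δ p.1 p.2 * H (p.1 + p.2) := fun p => by ring
    rw [sum_congr rfl fun p _ => e1 p, sum_add_distrib, sum_add_distrib, h3, h4,
      ← sum_add_distrib, ← sum_add_distrib]
    refine sum_congr rfl fun p _ => ?_
    ring
  -- the sum over B
  have h6 : ∀ A : F, ∑ B : F, (if A ^ (2 ^ i) * B + A * B ^ (2 ^ i) = κ then
      δ A B * ((A ^ (2 ^ i) * B + B ^ (2 ^ i) * A + (A + B) ^ (2 ^ i) * B) * H A +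
        A ^ (2 ^ i) * B * c) else 0) = if A = 0 then 0 else
      (1 + tr n (κ / A ^ (2 ^ i + 1))) * φ A * (κ * H A + A ^ (2 ^ i + 1) * c) := by
    intro A
    by_cases hA : A = 0
    · rw [if_pos hA]
      refine sum_eq_zero fun B _ => ?_
      rw [if_neg]
      rw [hA, zero_pow (by positivity), zero_mul, zero_mul, add_zero]
      exact fun h => hκ h.symm
    rw [if_neg hA]
    have hA1 : A ^ (2 ^ i + 1) ≠ 0 := pow_ne_zero _ hA
    have key : ∀ y : F, A ^ (2 ^ i) * (A * y) + A * (A * y) ^ (2 ^ i) =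
        A ^ (2 ^ i + 1) * (y ^ (2 ^ i) + y) := by
      intro y
      rw [mul_pow, pow_succ]
      ring
    rcases zero_or_one_of_sq (tr_sq hF (κ / A ^ (2 ^ i + 1))) with ht | ht
    · obtain ⟨y, hy⟩ := exists_y hc hF ht
      have hy1 : A ^ (2 ^ i + 1) * (y ^ (2 ^ i) + y) = κ := by
        rw [hy]
        field_simp
      have hy2 : A ^ (2 ^ i + 1) * ((y + 1) ^ (2 ^ i) + (y + 1)) = κ := by
        rw [add_pow_char_pow, one_pow]
        linear_combination hy1 + A ^ (2 ^ i + 1) * h2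
      have hset : univ.filter (fun B => A ^ (2 ^ i) * B + A * B ^ (2 ^ i) = κ) =
          {A * y, A * (y + 1)} := by
        ext B
        rw [mem_filter, mem_insert, mem_singleton]
        constructor
        · rintro ⟨-, hB⟩
          have hB' : B = A * (B / A) := by field_simp
          rw [hB', key, ← hy1] at hB
          have h7 := mul_left_cancel₀ hA1 hB
          have h8 : (B / A + y) ^ (2 ^ i) = B / A + y := by
            rw [add_pow_char_pow]
            linear_combination h7 + (y ^ (2 ^ i) - B / A) * h2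
          rcases fix_two hc hF h8 with h9 | h9
          · left
            rw [hB', CharTwo.add_eq_zero.1 h9]
          · right
            have h10 : B / A = y + 1 := by linear_combination h9 - y * h2
            rw [hB', h10]
        · rintro (rfl | rfl)
          · exact ⟨mem_univ _, by rw [key]; exact hy1⟩
          · exact ⟨mem_univ _, by rw [key]; exact hy2⟩
      have hne : A * y ≠ A * (y + 1) := by
        intro h
        have h7 := mul_left_cancel₀ hA h
        exact one_ne_zero (α := F) (by linear_combination -h7)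
      rw [← sum_filter, hset, sum_pair hne, ← hφ A y hA hy1, ← hφ A (y + 1) hA hy2, ht]
      have e1 := hy1
      rw [← key] at e1
      have e2 : (A * (y + 1)) ^ (2 ^ i) = (A * y) ^ (2 ^ i) + A ^ (2 ^ i) := by
        rw [mul_add, mul_one, add_pow_char_pow]
      rw [add_pow_char_pow, add_pow_char_pow, e2, pow_succ]
      linear_combination φ A * H A * e1 + φ A * (H A * (2 * A ^ (2 ^ i) * (A * y) +
        A * (A * y) ^ (2 ^ i) + (A * y) ^ (2 ^ i) * (A * y) + 2 * A ^ (2 ^ i) * A) +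
          A ^ (2 ^ i) * (A * y) * c) * h2
    · rw [ht]
      have h11 : (1 : F) + 1 = 0 := CharTwo.add_self_eq_zero 1
      rw [h11, zero_mul, zero_mul]
      refine sum_eq_zero fun B _ => ?_
      rw [if_neg]
      intro hB
      have hB' : B = A * (B / A) := by field_simp
      rw [hB', key] at hB
      have h7 : κ / A ^ (2 ^ i + 1) = (B / A) ^ (2 ^ i) + B / A := by
        rw [← hB, mul_div_cancel_left₀ _ hA1]
      rw [h7, tr_phi hc hF] at ht
      exact zero_ne_one ht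
  rw [hE, sum_filter, Fintype.sum_prod_type] at h5
  rw [sum_congr rfl fun A _ => h6 A] at h5
  refine Eq.trans ?_ h5
  rw [sum_ite, sum_const_zero, zero_add]
  refine sum_congr ?_ fun A _ => rfl
  ext A
  simp

end Plane

/-- (PLANE) -/
theorem plane : StPlane := by
  intro i n _ hc F _ _ _ _ hF κ hκ δ hd1 hd2 h x hh φ hφ
  have h2 : (2 : F) = 0 := CharTwo.two_eq_zero
  have h3 := plane_aux hc hF hκ δ hd1 hd2 (fun A => h (x + A)) (h (x + 1)) (fun A B hAB => by
    have := hh A B hAB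
    rw [add_assoc x A B] at this
    exact this) φ hφ
  have h4 := plane_aux hc hF hκ δ hd1 hd2 (fun _ => 1) 1 (fun A B _ => by
    linear_combination 2 * h2) φ hφ
  have h5 : κ * ∑ A ∈ univ.erase (0 : F), (1 + tr n (κ / A ^ (2 ^ i + 1))) * φ A *
      (h (x + A) + h (x + 1)) = 0 := by
    have h6 : κ * ∑ A ∈ univ.erase (0 : F), (1 + tr n (κ / A ^ (2 ^ i + 1))) * φ A *
      (h (x + A) + h (x + 1)) = (∑ A ∈ univ.erase (0 : F), (1 + tr n (κ / A ^ (2 ^ i + 1))) * φ A *
      (κ * h (x + A) + A ^ (2 ^ i + 1) * h (x + 1))) + h (x + 1) *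
      ∑ A ∈ univ.erase (0 : F), (1 + tr n (κ / A ^ (2 ^ i + 1))) * φ A *
      (κ * 1 + A ^ (2 ^ i + 1) * 1) := by
      rw [mul_sum, mul_sum, ← sum_add_distrib]
      refine sum_congr rfl fun A _ => ?_
      linear_combination -(1 + tr n (κ / A ^ (2 ^ i + 1))) * φ A * A ^ (2 ^ i + 1) *
        h (x + 1) * h2
    rw [h6, h3, h4, mul_zero, add_zero]
  exact (mul_eq_zero.1 h5).resolve_left hκ

end Pool.Agent.Lib.MP_eacabd_co.Wide8
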