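import Pool.Agent.Lib.MP_eacabd_co.Wide8.Kill
import Pool.Agent.Lib.MP_eacabd_co.Wide8.Chars
import Pool.Agent.Lib.MP_eacabd_co.Wide8.Plane
import Pool.Agent.Lib.MP_eacabd_co.Wide8.Rig
import Pool.Agent.Lib.MP_eacabd_co.Wide8.Final

/-!
Switching of the Gold functions in the wide sense: rigidity without hypotheses.
-/

set_option autoImplicit false

namespace Pool.Agent.Lib.MP_eacabd_co.Wide8

/-- rigidity of the directions which are not vertical -/
theorem rig : StRig := rig_of (kill orth plane chU chV) orth plane

end Pool.Agent.Lib.MP_eacabd_co.Wide8
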