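import Mathlib
import Pool.Agent.Lib.MP_eacabd_co.Wide8.Stmts

/-!
(COMB): the combinatorial core of the rigidity theorem.
-/

set_option autoImplicit false

namespace Pool.Agent.Lib.MP_eacabd_co.Wide8

open Finset

namespace Comb7

variable {n : ℕ} [NeZero n] {F : Type} [Field F]

lemma cast_ne (m : ℕ) (h0 : 0 < m) (h1 : m < n) : ((m : ℕ) : ZMod n) ≠ 0 := by
  intro h
  rw [ZMod.natCast_eq_zero_iff] at h
  exact absurd (Nat.le_of_dvd h0 h) (by omega)

/-- hypothesis 1 -/
def H1 (f : Finset (ZMod n) → F) (d : ℕ) : Prop :=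
  ∀ (M : Finset (ZMod n)) (c e : ZMod n), M.card = d → c + 1 ∈ M → c ∉ M → c - 1 ∉ M →
      e + 1 ∈ M → e ≠ c → e ≠ c + 1 → e ≠ c - 1 → f M = 0

/-- hypothesis 2 -/
def H2 (f : Finset (ZMod n) → F) (d : ℕ) : Prop :=
  ∀ (M : Finset (ZMod n)) (c e : ZMod n), M.card = d → c - 1 ∉ M → c ∈ M → c + 1 ∈ M →
      e - 1 ∈ M → e + 1 ∈ M → e ≠ c → e ≠ c + 1 → e ≠ c - 1 →
      f M = f (insert (c - 1) (M.erase c))

/-- hypothesis 3 -/
def H3 (f : Finset (ZMod n) → F) (d : ℕ) : Prop :=
  ∀ E : Finset (ZMod n), E.card + 1 = d → ∑ k ∈ univ \ E, f (insert k E) *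
      (1 + (if k - 1 ∈ E then 1 else 0) + (if k + 1 ∈ E then 1 else 0)) = 0

lemma gap {f : Finset (ZMod n) → F} {d : ℕ} (h : H1 f d) (M : Finset (ZMod n))
    (hM : M.card = d) (z : ZMod n) (hz : z ∉ M) (hz1 : z + 1 ∉ M) (hne : M.Nonempty)
    (hg : ∀ e ∈ M, ∃ g ∈ M, g ≠ e ∧ g ≠ e + 1) : f M = 0 := by
  classical
  obtain ⟨m, hm⟩ := hne
  have hex : ∃ j : ℕ, z + (j : ZMod n) ∈ M := ⟨(m - z).val, by
    rw [ZMod.natCast_zmod_val, add_sub_cancel]; exact hm⟩
  obtain ⟨j, hj, hmin⟩ : ∃ j : ℕ, z + (j : ZMod n) ∈ M ∧ ∀ i < j, z + (i : ZMod n) ∉ M :=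
    ⟨Nat.find hex, Nat.find_spec hex, fun i hi => Nat.find_min hex hi⟩
  have h0 : j ≠ 0 := by
    rintro rfl
    exact hz (by simpa using hj)
  have h1 : j ≠ 1 := by
    rintro rfl
    exact hz1 (by simpa using hj)
  obtain ⟨t, rfl⟩ : ∃ t, j = t + 2 := ⟨j - 2, by omega⟩
  have a1 := hmin (t + 1) (by omega)
  have a2 := hmin t (by omega)
  obtain ⟨g, hgM, hg1, hg2⟩ := hg _ hj
  have e1 : z + ((t + 1 : ℕ) : ZMod n) + 1 = z + ((t + 2 : ℕ) : ZMod n) := by push_cast; ring
  have e2 : z + ((t + 1 : ℕ) : ZMod n) - 1 = z + (t : ZMod n) := by push_cast; ring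
  apply h M (z + ((t + 1 : ℕ) : ZMod n)) (g - 1) hM
  · rw [e1]; exact hj
  · exact a1
  · rw [e2]; exact a2
  · rw [sub_add_cancel]; exact hgM
  · intro hh
    apply hg1
    rw [← e1, ← hh, sub_add_cancel]
  · intro hh
    apply hg2
    rw [e1] at hh
    rw [← hh, sub_add_cancel]
  · intro hh
    have : g = z + ((t + 1 : ℕ) : ZMod n) := by
      have := congrArg (· + 1) hh
      simpa using this
    rw [this] at hgM
    exact a1 hgM

lemma other {M : Finset (ZMod n)} (h : 3 ≤ M.card) (e : ZMod n) :
    ∃ g ∈ M, g ≠ e ∧ g ≠ e + 1 := by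
  classical
  by_contra hcon
  push Not at hcon
  have : M ⊆ {e, e + 1} := by
    intro g hg
    by_cases h1 : g = e
    · simp [h1]
    · simp [hcon g hg h1]
  have h2 := card_le_card this
  have h3 : ({e, e + 1} : Finset (ZMod n)).card ≤ 2 := card_le_two
  omega

lemma gap3 {f : Finset (ZMod n) → F} {d : ℕ} (h : H1 f d) (hd : 3 ≤ d) (M : Finset (ZMod n))
    (hM : M.card = d) (z : ZMod n) (hz : z ∉ M) (hz1 : z + 1 ∉ M) : f M = 0 :=
  gap h M hM z hz hz1 (card_pos.1 (by omega)) (fun e _ => other (by omega) e)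

lemma three {f : Finset (ZMod n) → F} {d : ℕ} (hn : 5 ≤ n) (hch : (1 : F) + 1 = 0)
    (h1 : H1 f d) (h3 : H3 f d) (hd : 3 ≤ d)
    (M : Finset (ZMod n)) (hM : M.card = d) (k : ZMod n) (hk : k ∈ M) (hk1 : k - 1 ∉ M)
    (hk2 : k + 1 ∉ M) : f M = 0 := by
  classical
  by_cases hgap : ∃ z, z ∉ M ∧ z + 1 ∉ M
  · obtain ⟨z, hz, hz1⟩ := hgap
    exact gap3 h1 hd M hM z hz hz1
  push Not at hgap
  have c1 : (1 : ZMod n) ≠ 0 := by
    have := cast_ne (n := n) 1 (by omega) (by omega)
    simpa using this
  have c2 : (2 : ZMod n) ≠ 0 := by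
    have := cast_ne (n := n) 2 (by omega) (by omega)
    simpa using this
  have hE : (M.erase k).card + 1 = d := by
    rw [card_erase_of_mem hk, hM]; omega
  have key := h3 (M.erase k) hE
  rw [← Finset.add_sum_erase (univ \ M.erase k) _ (a := k) (by simp)] at key
  rw [Finset.sum_eq_zero, add_zero] at key
  · rw [insert_erase hk, if_neg, if_neg] at key
    · simpa using key
    · intro hh; exact hk2 (mem_of_mem_erase hh)
    · intro hh; exact hk1 (mem_of_mem_erase hh)
  · intro k' hk'
    rw [mem_erase, mem_sdiff] at hk'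
    obtain ⟨hkk, -, hk'E⟩ := hk'
    have hk'M : k' ∉ M := fun hh => hk'E (mem_erase.2 ⟨hkk, hh⟩)
    by_cases hA : k' = k + 1
    · subst hA
      have b1 : k + 1 - 1 ∉ M.erase k := by
        rw [add_sub_cancel_right]; simp
      have b2 : k + 1 + 1 ∈ M.erase k := by
        rw [mem_erase]
        refine ⟨?_, hgap _ hk2⟩
        intro hh
        apply c2
        have : k + 2 = k + 0 := by rw [add_zero, ← one_add_one_eq_two, ← add_assoc]; exact hh
        exact add_left_cancel this
      rw [if_neg b1, if_pos b2, add_zero, hch, mul_zero]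
    · by_cases hB : k' = k - 1
      · subst hB
        have b1 : k - 1 + 1 ∉ M.erase k := by
          rw [sub_add_cancel]; simp
        have b2 : k - 1 - 1 ∈ M.erase k := by
          rw [mem_erase]
          constructor
          · intro hh
            apply c2
            have : k - 2 = k - 0 := by rw [sub_zero, ← one_add_one_eq_two, ← sub_sub]; exact hh
            exact sub_right_injective this
          · by_contra hh
            have := hgap _ hh
            rw [sub_add_cancel] at this
            exact hk1 this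
        rw [if_pos b2, if_neg b1, add_zero, hch, mul_zero]
      · rw [gap3 h1 hd (insert k' (M.erase k)) ?_ k ?_ ?_, zero_mul]
        · rw [card_insert_of_notMem hk'E]; exact hE
        · rw [mem_insert]
          rintro (hh | hh)
          · exact hkk hh.symm
          · simp at hh
        · rw [mem_insert]
          rintro (hh | hh)
          · exact hA hh.symm
          · exact hk2 (mem_of_mem_erase hh)

lemma run {f : Finset (ZMod n) → F} {d : ℕ} (hn : 5 ≤ n) (hch : (1 : F) + 1 = 0)
    (h1 : H1 f d) (h2 : H2 f d) (h3 : H3 f d) (hd : 3 ≤ d) :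
    ∀ (D : ℕ), 1 ≤ D → D < n → ∀ (M : Finset (ZMod n)) (a : ZMod n), M.card = d → a ∉ M →
      (∀ j : ℕ, 0 < j → j < D → a + (j : ZMod n) ∈ M) → a + (D : ZMod n) ∉ M → f M = 0 := by
  classical
  intro D
  induction D with
  | zero => intro h; omega
  | succ D ih =>
    intro _ hDn M a hM ha hj haD
    by_cases hgap : ∃ z, z ∉ M ∧ z + 1 ∉ M
    · obtain ⟨z, hz, hz1⟩ := hgap
      exact gap3 h1 hd M hM z hz hz1
    push Not at hgap
    rcases Nat.lt_or_ge D 2 with hD | hD
    · interval_cases D
      · exact absurd (hgap a ha) (by simpa using haD)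
      · apply three hn hch h1 h3 hd M hM (a + 1)
        · simpa using hj 1 (by omega) (by omega)
        · rw [add_sub_cancel_right]; exact ha
        · rw [add_assoc, one_add_one_eq_two]; simpa using haD
    · have c0 : ((D + 1 : ℕ) : ZMod n) ≠ 0 := cast_ne _ (by omega) hDn
      have m1 : a + 1 ∈ M := by simpa using hj 1 (by omega) (by omega)
      have m2 : a + 1 + 1 ∈ M := by
        have := hj 2 (by omega) (by omega)
        rw [add_assoc, one_add_one_eq_two]
        simpa using this
      have m3 : a + ((D + 1 : ℕ) : ZMod n) - 1 ∈ M := by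
        have := hj D (by omega) (by omega)
        have e : a + ((D + 1 : ℕ) : ZMod n) - 1 = a + (D : ZMod n) := by push_cast; ring
        rw [e]; exact this
      have m4 : a + ((D + 1 : ℕ) : ZMod n) + 1 ∈ M := hgap _ haD
      have key := h2 M (a + 1) (a + ((D + 1 : ℕ) : ZMod n)) hM (by rw [add_sub_cancel_right]; exact ha)
        m1 m2 m3 m4 (fun hh => haD (hh ▸ m1)) (fun hh => haD (hh ▸ m2)) (by
          rw [add_sub_cancel_right]
          intro hh
          exact c0 (by simpa using hh))
      rw [add_sub_cancel_right] at key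
      rw [key]
      apply ih (by omega) (by omega) (insert a (M.erase (a + 1))) (a + 1)
      · rw [card_insert_of_notMem (fun hh => ha (mem_of_mem_erase hh)), card_erase_of_mem m1, hM]
        omega
      · rw [mem_insert]
        rintro (hh | hh)
        · exact ha (hh ▸ m1)
        · simp at hh
      · intro j hj0 hjD
        have e : a + 1 + (j : ZMod n) = a + ((j + 1 : ℕ) : ZMod n) := by push_cast; ring
        rw [e, mem_insert]
        right
        rw [mem_erase]
        refine ⟨?_, hj (j + 1) (by omega) (by omega)⟩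
        intro hh
        have : (j : ZMod n) = 0 := by
          have h5 := add_left_cancel hh
          push_cast at h5
          simpa using h5
        exact cast_ne j hj0 (by omega) this
      · have e : a + 1 + (D : ZMod n) = a + ((D + 1 : ℕ) : ZMod n) := by push_cast; ring
        rw [e, mem_insert]
        rintro (hh | hh)
        · exact c0 (by simpa using hh)
        · exact haD (mem_of_mem_erase hh)

lemma partA {f : Finset (ZMod n) → F} {d : ℕ} (hn : 5 ≤ n) (hch : (1 : F) + 1 = 0)
    (h1 : H1 f d) (h2 : H2 f d) (h3 : H3 f d) (hd : 3 ≤ d) (hdn : d + 2 ≤ n)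
    (M : Finset (ZMod n)) (hM : M.card = d) : f M = 0 := by
  classical
  have hc : Fintype.card (ZMod n) = n := ZMod.card n
  have hcc : 2 ≤ (Mᶜ).card := by rw [card_compl, hc, hM]; omega
  obtain ⟨a, ha, b, hb, hab⟩ := one_lt_card.1 (show 1 < (Mᶜ).card by omega)
  rw [mem_compl] at ha hb
  have hex : ∃ D : ℕ, 1 ≤ D ∧ a + (D : ZMod n) ∉ M := by
    refine ⟨(b - a).val, ?_, ?_⟩
    · rw [Nat.one_le_iff_ne_zero, Ne, ZMod.val_eq_zero, sub_eq_zero]
      exact fun h => hab h.symm
    · rw [ZMod.natCast_zmod_val, add_sub_cancel]; exact hb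
  have hlt : Nat.find hex < n := by
    refine lt_of_le_of_lt (Nat.find_min' hex (m := (b - a).val) ⟨?_, ?_⟩) (ZMod.val_lt _)
    · rw [Nat.one_le_iff_ne_zero, Ne, ZMod.val_eq_zero, sub_eq_zero]
      exact fun h => hab h.symm
    · rw [ZMod.natCast_zmod_val, add_sub_cancel]; exact hb
  obtain ⟨hD1, hD2⟩ := Nat.find_spec hex
  apply run hn hch h1 h2 h3 hd (Nat.find hex) hD1 hlt M a hM ha _ hD2
  intro j hj0 hj
  by_contra hh
  exact Nat.find_min hex hj ⟨hj0, hh⟩

lemma partB {f : Finset (ZMod n) → F} (hn : 5 ≤ n) (h1 : H1 f 2) (a b : ZMod n)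
    (hab : a ≠ b) (hab1 : b ≠ a + 1) (hab2 : a ≠ b + 1) : f {a, b} = 0 := by
  classical
  have hM : ({a, b} : Finset (ZMod n)).card = 2 := card_pair hab
  have hg : ∀ e ∈ ({a, b} : Finset (ZMod n)), ∃ g ∈ ({a, b} : Finset (ZMod n)),
      g ≠ e ∧ g ≠ e + 1 := by
    intro e he
    rw [mem_insert, mem_singleton] at he
    rcases he with rfl | rfl
    · exact ⟨b, by simp, fun h => hab h.symm, hab1⟩
    · exact ⟨a, by simp, hab, hab2⟩
  have c1 : (1 : ZMod n) ≠ 0 := by
    have := cast_ne (n := n) 1 (by omega) (by omega)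
    simpa using this
  have c2 : (2 : ZMod n) ≠ 0 := by
    have := cast_ne (n := n) 2 (by omega) (by omega)
    simpa using this
  have c4 : (4 : ZMod n) ≠ 0 := by
    have := cast_ne (n := n) 4 (by omega) (by omega)
    simpa using this
  by_cases hb2 : b = a + 2
  · -- then use the gap after `b`
    apply gap h1 _ hM (b + 1) _ _ ⟨a, by simp⟩ hg
    · rw [mem_insert, mem_singleton]
      rintro (h | h)
      · exact hab2 h.symm
      · exact c1 (by simpa using h)
    · rw [mem_insert, mem_singleton]
      rintro (h | h)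
      · subst hb2
        exact c4 (by linear_combination h)
      · exact c2 (by linear_combination h)
  · apply gap h1 _ hM (a + 1) _ _ ⟨a, by simp⟩ hg
    · rw [mem_insert, mem_singleton]
      rintro (h | h)
      · exact c1 (by simpa using h)
      · exact hab1 h.symm
    · rw [mem_insert, mem_singleton]
      rintro (h | h)
      · exact c2 (by linear_combination h)
      · exact hb2 (by rw [← h, add_assoc, one_add_one_eq_two])

lemma partC {f : Finset (ZMod n) → F} (hn : 5 ≤ n) (hch : (1 : F) + 1 = 0) (h3 : H3 f n) :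
    f univ = 0 := by
  classical
  have hc : Fintype.card (ZMod n) = n := ZMod.card n
  have c1 : (1 : ZMod n) ≠ 0 := by
    have := cast_ne (n := n) 1 (by omega) (by omega)
    simpa using this
  have key := h3 (univ.erase 0) (by rw [card_erase_of_mem (mem_univ _), card_univ, hc]; omega)
  have hu : (univ : Finset (ZMod n)) \ univ.erase 0 = {0} := by
    ext x
    simp
  rw [hu, sum_singleton, insert_erase (mem_univ _), if_pos, if_pos, hch, zero_add, mul_one] at key
  · exact key
  · simpa using c1
  · simpa using c1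

lemma pairD {f : Finset (ZMod n) → F} {d : ℕ} (hn : 5 ≤ n) (hch : (1 : F) + 1 = 0)
    (hd : d + 1 = n) (h3 : H3 f d) (a b : ZMod n)
    (hab : a ≠ b) (hab1 : b ≠ a + 1) (hab2 : a ≠ b + 1) :
    f (univ.erase a) = f (univ.erase b) := by
  classical
  have hc : Fintype.card (ZMod n) = n := ZMod.card n
  have c1 : (1 : ZMod n) ≠ 0 := by
    have := cast_ne (n := n) 1 (by omega) (by omega)
    simpa using this
  have hcard : (univ \ {a, b} : Finset (ZMod n)).card + 1 = d := by
    rw [card_sdiff_of_subset (subset_univ _), card_univ, hc, card_pair hab]; omega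
  have key := h3 (univ \ {a, b}) hcard
  have hu : (univ : Finset (ZMod n)) \ (univ \ {a, b}) = {a, b} := by
    ext x
    simp
  rw [hu, sum_pair hab] at key
  have i1 : insert a (univ \ {a, b}) = (univ.erase b : Finset (ZMod n)) := by
    ext x
    simp only [mem_insert, mem_sdiff, mem_univ, true_and, mem_singleton, mem_erase, and_true]
    constructor
    · rintro (h | h)
      · rw [h]; exact hab
      · exact fun h' => h (Or.inr h')
    · intro h
      by_cases hx : x = a
      · exact Or.inl hx
      · exact Or.inr (by rintro (h' | h'); exacts [hx h', h h'])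
  have i2 : insert b (univ \ {a, b}) = (univ.erase a : Finset (ZMod n)) := by
    ext x
    simp only [mem_insert, mem_sdiff, mem_univ, true_and, mem_singleton, mem_erase, and_true]
    constructor
    · rintro (h | h)
      · rw [h]; exact fun h' => hab h'.symm
      · exact fun h' => h (Or.inl h')
    · intro h
      by_cases hx : x = b
      · exact Or.inl hx
      · exact Or.inr (by rintro (h' | h'); exacts [h h', hx h'])
  have nm : ∀ x : ZMod n, x ≠ a → x ≠ b → x ∈ (univ \ {a, b} : Finset (ZMod n)) := by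
    intro x h1 h2
    simp [h1, h2]
  rw [i1, i2, if_pos, if_pos, if_pos, if_pos, hch, zero_add, mul_one, mul_one] at key
  · have hneg : f (univ.erase a) + f (univ.erase a) = 0 := by
      rw [← two_mul, ← one_add_one_eq_two, hch, zero_mul]
    have : f (univ.erase b) = f (univ.erase a) := by
      linear_combination key - hneg
    exact this.symm
  · exact nm _ (fun h => hab2 h.symm) (fun h => c1 (by simpa using h))
  · exact nm _ (fun h => hab1 (by rw [← h, sub_add_cancel])) (fun h => c1 (by simpa using h))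
  · exact nm _ (fun h => c1 (by simpa using h)) (fun h => hab1 h.symm)
  · exact nm _ (fun h => c1 (by simpa using h)) (fun h => hab2 (by rw [← h, sub_add_cancel]))

lemma partD {f : Finset (ZMod n) → F} {d : ℕ} (hn : 5 ≤ n) (hch : (1 : F) + 1 = 0)
    (hd : d + 1 = n) (h3 : H3 f d) (a b : ZMod n) :
    f (univ.erase a) = f (univ.erase b) := by
  have c1 : (1 : ZMod n) ≠ 0 := by
    have := cast_ne (n := n) 1 (by omega) (by omega)
    simpa using this
  have c2 : (2 : ZMod n) ≠ 0 := by
    have := cast_ne (n := n) 2 (by omega) (by omega)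
    simpa using this
  have c3 : (3 : ZMod n) ≠ 0 := by
    have := cast_ne (n := n) 3 (by omega) (by omega)
    simpa using this
  have c4 : (4 : ZMod n) ≠ 0 := by
    have := cast_ne (n := n) 4 (by omega) (by omega)
    simpa using this
  -- adjacent elements
  have adj : ∀ x : ZMod n, f (univ.erase x) = f (univ.erase (x + 1)) := by
    intro x
    have e1 : f (univ.erase x) = f (univ.erase (x + 3)) := by
      apply pairD hn hch hd h3
      · intro h; exact c3 (by linear_combination -h)
      · intro h; exact c2 (by linear_combination h)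
      · intro h; exact c4 (by linear_combination -h)
    have e2 : f (univ.erase (x + 1)) = f (univ.erase (x + 3)) := by
      apply pairD hn hch hd h3
      · intro h; exact c2 (by linear_combination -h)
      · intro h; exact c1 (by linear_combination h)
      · intro h; exact c3 (by linear_combination -h)
    rw [e1, e2]
  by_cases hab : a = b
  · rw [hab]
  by_cases hab1 : b = a + 1
  · rw [hab1]; exact adj a
  by_cases hab2 : a = b + 1
  · rw [hab2]; exact (adj b).symm
  exact pairD hn hch hd h3 a b hab hab1 hab2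

end Comb7

theorem comb : StComb := by
  intro n _ hn F _ _ f d hd h1 h2 h3
  have hch : (1 : F) + 1 = 0 := CharTwo.add_self_eq_zero 1
  refine ⟨fun h3d hdn M hM => Comb7.partA hn hch h1 h2 h3 h3d hdn M hM, ?_, ?_, ?_⟩
  · intro hd2 a b hab hab1 hab2
    subst hd2
    exact Comb7.partB hn h1 a b hab hab1 hab2
  · intro hdn
    subst hdn
    exact Comb7.partC hn hch h3
  · intro hdn a b
    exact Comb7.partD hn hch hdn h3 a b

end Pool.Agent.Lib.MP_eacabd_co.Wide8
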