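import Mathlib
import Pool.Agent.Lib.MP_eacabd_co.Wide8.Filt

/-!
Switching in the wide sense: exact coefficients of a product with a conjugate.
-/

set_option autoImplicit false
set_option linter.unusedSectionVars false

namespace Pool.Agent.Lib.MP_eacabd_co.Wide8

open Finset Pool.Agent.Lib.MP_eacabd_co Pool.Agent.Lib.MP_eacabd_co.Gold8

variable {n : ℕ} [NeZero n] {F : Type} [Field F] [Fintype F] [DecidableEq F] [CharP F 2]
variable {i : ℕ} (hc : Nat.Coprime i n) (hF : Fintype.card F = 2 ^ n)

theorem cf_frmul_ex {g : F → F} (j : ZMod n)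
    (hg : ∀ M : Finset (ZMod n), j ∈ M → cf hc hF g M = 0) (E : Finset (ZMod n)) :
    cf hc hF (fun x => fr i j x * g x) E = if j ∈ E then cf hc hF g (E.erase j) else 0 := by
  rw [fr_mul_expand hc hF, cf_sum]
  have h1 : ∀ M : Finset (ZMod n), cf hc hF (fun x => cf hc hF g M * (fr i j x * X i M x)) E
      = if j ∉ M ∧ E = insert j M then cf hc hF g M else 0 := by
    intro M
    by_cases hj : j ∈ M
    · rw [cf_smul, hg M hj, zero_mul, ite_self]
    · have e : (fun x : F => fr i j x * X i M x) = X i (insert j M) := by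
        funext x
        rw [X_insert i hj]
      rw [cf_smul, e, cf_X, mul_ite, mul_one, mul_zero]
      refine if_congr ?_ rfl rfl
      constructor
      · rintro rfl
        exact ⟨hj, rfl⟩
      · rintro ⟨_, h⟩
        exact h.symm
  rw [sum_congr rfl fun M _ => h1 M]
  by_cases hj : j ∈ E
  · rw [if_pos hj, sum_eq_single (E.erase j)]
    · rw [if_pos ⟨notMem_erase j E, (insert_erase hj).symm⟩]
    · intro M _ hM
      rw [if_neg]
      rintro ⟨h2, rfl⟩
      exact hM (erase_insert h2).symm
    · intro h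
      exact absurd (mem_univ _) h
  · rw [if_neg hj]
    refine sum_eq_zero fun M _ => ?_
    rw [if_neg]
    rintro ⟨_, rfl⟩
    exact hj (mem_insert_self _ _)

/-- exact coefficients of `kp t · dN {t, t+1} h` -/
theorem cf_kp_dN (hn : 2 ≤ n) (κ : F) (h : F → F) (t : ZMod n) (E : Finset (ZMod n)) :
    cf hc hF (fun x => kp i κ t x * Wide8.dN hc hF {t, t + 1} h x) E =
      fr i t κ * (if t ∉ E ∧ t + 1 ∉ E then cf hc hF h (insert t (insert (t + 1) E)) else 0)
        + (if t + 1 ∈ E ∧ t ∉ E then cf hc hF h (insert t E) else 0)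
        + (if t ∈ E ∧ t + 1 ∉ E then cf hc hF h (insert (t + 1) E) else 0) := by
  have : Fact (1 < n) := ⟨by omega⟩
  have hne : t ≠ t + 1 := by
    intro h0
    have h1 : (0 : ZMod n) = 1 := by
      have := congrArg (fun y => y - t) h0
      simpa using this
    exact zero_ne_one h1
  have e : (fun x => kp i κ t x * Wide8.dN hc hF {t, t + 1} h x)
      = fun x => fr i t κ * Wide8.dN hc hF {t, t + 1} h x
        + (fr i (t + 1) x * Wide8.dN hc hF {t, t + 1} h x
          + fr i t x * Wide8.dN hc hF {t, t + 1} h x) := by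
    funext x
    rw [kp_eq hF]
    ring
  have ht : ∀ M : Finset (ZMod n), t ∈ M → cf hc hF (Wide8.dN hc hF {t, t + 1} h) M = 0 := by
    intro M hM
    rw [cf_dN, if_neg]
    intro h0
    exact disjoint_left.1 h0 (by simp) hM
  have ht' : ∀ M : Finset (ZMod n), t + 1 ∈ M → cf hc hF (Wide8.dN hc hF {t, t + 1} h) M = 0 := by
    intro M hM
    rw [cf_dN, if_neg]
    intro h0
    exact disjoint_left.1 h0 (by simp) hM
  rw [e, cf_add, cf_smul, cf_add, cf_frmul_ex hc hF _ ht, cf_frmul_ex hc hF _ ht', cf_dN, cf_dN,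
    cf_dN, ← add_assoc]
  have e1 : (if Disjoint ({t, t + 1} : Finset (ZMod n)) E then cf hc hF h ({t, t + 1} ∪ E) else 0)
      = (if t ∉ E ∧ t + 1 ∉ E then cf hc hF h (insert t (insert (t + 1) E)) else 0) := by
    refine if_congr ?_ ?_ rfl
    · rw [disjoint_insert_left, disjoint_singleton_left]
    · rw [insert_union, singleton_union]
  have e2 : (if t + 1 ∈ E then
      (if Disjoint ({t, t + 1} : Finset (ZMod n)) (E.erase (t + 1))
        then cf hc hF h ({t, t + 1} ∪ E.erase (t + 1)) else 0) else 0)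
      = (if t + 1 ∈ E ∧ t ∉ E then cf hc hF h (insert t E) else 0) := by
    by_cases h1 : t + 1 ∈ E
    · rw [if_pos h1]
      refine if_congr ?_ ?_ rfl
      · rw [disjoint_insert_left, disjoint_singleton_left]
        simp [h1, hne]
      · rw [insert_union, singleton_union, insert_erase h1]
    · rw [if_neg h1, if_neg fun h0 => h1 h0.1]
  have e3 : (if t ∈ E then
      (if Disjoint ({t, t + 1} : Finset (ZMod n)) (E.erase t)
        then cf hc hF h ({t, t + 1} ∪ E.erase t) else 0) else 0)
      = (if t ∈ E ∧ t + 1 ∉ E then cf hc hF h (insert (t + 1) E) else 0) := by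
    by_cases h1 : t ∈ E
    · rw [if_pos h1]
      refine if_congr ?_ ?_ rfl
      · rw [disjoint_insert_left, disjoint_singleton_left]
        simp [h1, hne.symm]
      · rw [insert_union, singleton_union, insert_comm, insert_erase h1]
    · rw [if_neg h1, if_neg fun h0 => h1 h0.1]
  rw [e1, e2, e3]

end Pool.Agent.Lib.MP_eacabd_co.Wide8
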