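import Mathlib
import Pool.Agent.Lib.MP_eacabd_co.Wide8.IdA

/-!
Switching in the wide sense: the coefficients of the second identity.
-/

set_option autoImplicit false
set_option linter.unusedSectionVars false

namespace Pool.Agent.Lib.MP_eacabd_co.Wide8

open Finset Pool.Agent.Lib.MP_eacabd_co Pool.Agent.Lib.MP_eacabd_co.Gold8

variable {n : ℕ} [NeZero n] {F : Type} [Field F] [Fintype F] [DecidableEq F] [CharP F 2]
variable {i : ℕ} (hc : Nat.Coprime i n) (hF : Fintype.card F = 2 ^ n)

theorem idA_cf (hP : StPlane) (hU : StU) (hV : StV) (hn : 5 ≤ n) {κ : F} (hκ : tr n κ = 1)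
    {h : F → F} (hR : Rel i κ h) {c d : ZMod n} (h1 : d ≠ c) (h2 : d ≠ c + 1) (h3 : d ≠ c - 1)
    {D : ℕ} (hD : 2 ≤ D) (hh : Dg hc hF D h) {E : Finset (ZMod n)} (hE : E.card = D) :
    cf hc hF (fun x => kp i κ c x * (kp i κ d x * Wide8.dN hc hF {c + 1, d + 1} h x)) E
      + cf hc hF (fun x => kp i κ (d - 1) x * (kp i κ (c - 1) x *
        Wide8.dN hc hF {c - 1, d - 1} h x)) E = 0 := by
  have : Fact (1 < n) := ⟨by omega⟩
  set a : Finset (ZMod n) → ZMod n → F := fun N t => ((if t ∈ II c d then 1 else 0)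
        + (if t - sh n i ∈ II c d then 1 else 0))
        * (∑ A ∈ univ.erase (0 : F), fr i c A * fr i d A * (X i N A + 1) /
          (fr i t A * fr i (t + 1) A)) with ha
  set b : Finset (ZMod n) → ZMod n → ZMod n → F := fun N t l =>
    ∑ A ∈ univ.erase (0 : F), fr i c A * fr i d A *
          (X i N A + 1) / (fr i t A * fr i (t + 1) A * (fr i l A * fr i (l + 1) A)) with hb
  set T1 : Finset (ZMod n) → ZMod n → F := fun N t =>
    cf hc hF (fun x => kp i κ t x * Wide8.dN hc hF N h x) E with hT1
  set T2 : Finset (ZMod n) → ZMod n → ZMod n → F := fun N t l =>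
    cf hc hF (fun x => kp i κ t x * (kp i κ l x * Wide8.dN hc hF N h x)) E with hT2
  have hfun : (fun x => ∑ N : Finset (ZMod n), ((∑ t : ZMod n, a N t *
        (kp i κ t x * Wide8.dN hc hF N h x))
      + ∑ t ∈ II c d, ∑ l ∈ (II c d)ᶜ, b N t l
          * (kp i κ t x * (kp i κ l x * Wide8.dN hc hF N h x)))) = fun _ => (0 : F) :=
    funext fun x => idA hc hF hP hκ hR c d x
  have h4 : ∑ N : Finset (ZMod n), ((∑ t : ZMod n, a N t * T1 N t)
      + ∑ t ∈ II c d, ∑ l ∈ (II c d)ᶜ, b N t l * T2 N t l) = 0 := by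
    have e := cf_zero hc hF (i := i) E
    rw [← hfun, cf_sum] at e
    refine Eq.trans ?_ e
    refine sum_congr rfl fun N _ => ?_
    rw [cf_add, cf_sum, cf_sum]
    congr 1
    · refine sum_congr rfl fun t _ => ?_
      rw [cf_smul]
    · refine sum_congr rfl fun t _ => ?_
      rw [cf_sum]
      refine sum_congr rfl fun l _ => ?_
      rw [cf_smul]
  have hX0 : ∀ A : F, X i (∅ : Finset (ZMod n)) A + 1 = 0 := by
    intro A
    rw [X_empty, CharTwo.add_self_eq_zero]
  have h5 : ∀ (N : Finset (ZMod n)) (t : ZMod n), a N t * T1 N t = 0 := by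
    intro N t
    rcases Nat.lt_or_ge N.card 2 with h6 | h6
    · have h7 : a N t = 0 := by
        rcases Nat.lt_or_ge N.card 1 with h8 | h8
        · have h9 : N = ∅ := card_eq_zero.1 (by omega)
          rw [ha]
          simp only [h9, hX0, mul_zero, zero_div, sum_const_zero]
        · obtain ⟨k, rfl⟩ := card_eq_one.1 (by omega : N.card = 1)
          obtain ⟨u1, u2⟩ := hU i n hn hc F hF c d h1 h2 h3 t
          have e1 : ∑ A ∈ univ.erase (0 : F), fr i c A * fr i d A * (X i ({k} : Finset (ZMod n)) A + 1)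
              / (fr i t A * fr i (t + 1) A)
              = (∑ A ∈ univ.erase (0 : F), fr i c A * fr i d A * fr i k A /
                (fr i t A * fr i (t + 1) A))
                + ∑ A ∈ univ.erase (0 : F), fr i c A * fr i d A / (fr i t A * fr i (t + 1) A) := by
            rw [← sum_add_distrib]
            refine sum_congr rfl fun A _ => ?_
            have e2 : X i ({k} : Finset (ZMod n)) A = fr i k A := prod_singleton _ _
            rw [e2]
            ring
          rw [u1, add_zero] at e1
          show ((if t ∈ II c d then 1 else 0) + (if t - sh n i ∈ II c d then 1 else 0)) * _ = (0 : F)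
          rw [e1]
          rcases u2 k with h9 | h9
          · have e3 : ((if t ∈ II c d then 1 else 0) + (if t - sh n i ∈ II c d then 1 else 0) : F)
                = 0 := by
              have h10 : t ∈ II c d ↔ t - sh n i ∈ II c d := by
                rw [mem_II, mem_II]
                exact h9
              rw [if_congr h10 rfl rfl, CharTwo.add_self_eq_zero]
            rw [e3, zero_mul]
          · rw [h9, mul_zero]
      rw [h7, zero_mul]
    · have h7 : T1 N t = 0 := by
        have h8 : Dg hc hF (D - 2) (Wide8.dN hc hF N h) := Dg.dN hc hF hh N (by omega)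
        exact Dg.kpmul hc hF h8 κ t E (by omega)
      rw [h7, mul_zero]
  have h6 : ∀ (N : Finset (ZMod n)) (t l : ZMod n), t ∈ II c d → l ∈ (II c d)ᶜ →
      b N t l * T2 N t l = (if t = c ∧ l = d ∧ N = {c + 1, d + 1} then 1 else 0) * T2 N t l
        + (if t = d - 1 ∧ l = c - 1 ∧ N = {c - 1, d - 1} then 1 else 0) * T2 N t l := by
    intro N t l ht hl
    rw [mem_II] at ht
    rw [mem_compl, mem_II, not_lt] at hl
    rcases Nat.lt_or_ge N.card 3 with h7 | h7
    · have v1 := hV i n hn hc F hF c d h1 h2 h3 t l ht hl N (by omega)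
      have v2 := hV i n hn hc F hF c d h1 h2 h3 t l ht hl ∅ (by simp)
      have v3 : ¬ ((t = c ∧ l = d ∧ (∅ : Finset (ZMod n)) = {c + 1, d + 1}) ∨
          (t = d - 1 ∧ l = c - 1 ∧ (∅ : Finset (ZMod n)) = {c - 1, d - 1})) := by
        rintro (⟨_, _, h8⟩ | ⟨_, _, h8⟩)
        · exact absurd h8.symm (insert_ne_empty _ _)
        · exact absurd h8.symm (insert_ne_empty _ _)
      rw [if_neg v3] at v2
      have e1 : b N t l = if (t = c ∧ l = d ∧ N = {c + 1, d + 1}) ∨
          (t = d - 1 ∧ l = c - 1 ∧ N = {c - 1, d - 1}) then 1 else 0 := by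
        rw [← v1]
        have e2 : b N t l = (∑ A ∈ univ.erase (0 : F), fr i c A * fr i d A * X i N A /
          (fr i t A * fr i (t + 1) A * (fr i l A * fr i (l + 1) A)))
          + ∑ A ∈ univ.erase (0 : F), fr i c A * fr i d A * X i (∅ : Finset (ZMod n)) A /
          (fr i t A * fr i (t + 1) A * (fr i l A * fr i (l + 1) A)) := by
          rw [← sum_add_distrib]
          refine sum_congr rfl fun A _ => ?_
          rw [X_empty]
          ring
        rw [e2, v2, add_zero]
      rw [e1, ← add_mul]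
      congr 1
      by_cases p1 : t = c ∧ l = d ∧ N = {c + 1, d + 1}
      · have p2 : ¬ (t = d - 1 ∧ l = c - 1 ∧ N = {c - 1, d - 1}) := by
          rintro ⟨q1, _, _⟩
          apply h2
          rw [← p1.1, q1]
          ring
        rw [if_pos (Or.inl p1), if_pos p1, if_neg p2, add_zero]
      · rw [if_neg p1, zero_add]
        by_cases p2 : t = d - 1 ∧ l = c - 1 ∧ N = {c - 1, d - 1}
        · rw [if_pos (Or.inr p2), if_pos p2]
        · rw [if_neg p2, if_neg]
          rintro (q | q)
          · exact p1 q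
          · exact p2 q
    · have h8 : T2 N t l = 0 := by
        rcases Nat.lt_or_ge D N.card with h9 | h9
        · have e : (fun x => kp i κ t x * (kp i κ l x * Wide8.dN hc hF N h x))
              = fun _ => (0 : F) := by
            funext x
            rw [dN_zero hc hF hh h9, mul_zero, mul_zero]
          show cf hc hF (fun x => kp i κ t x * (kp i κ l x * Wide8.dN hc hF N h x)) E = 0
          rw [e, cf_zero]
        · have h10 : Dg hc hF (D - 3) (Wide8.dN hc hF N h) := Dg.dN hc hF hh N (by omega)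
          exact Dg.kpmul hc hF (Dg.kpmul hc hF h10 κ l) κ t E (by omega)
      rw [h8]
      ring
  have h7 : ∑ N : Finset (ZMod n), ((∑ t : ZMod n, a N t * T1 N t)
      + ∑ t ∈ II c d, ∑ l ∈ (II c d)ᶜ, b N t l * T2 N t l)
      = (∑ N : Finset (ZMod n), ∑ t ∈ II c d, ∑ l ∈ (II c d)ᶜ,
          (if t = c ∧ l = d ∧ N = {c + 1, d + 1} then 1 else 0) * T2 N t l)
        + ∑ N : Finset (ZMod n), ∑ t ∈ II c d, ∑ l ∈ (II c d)ᶜ,
          (if t = d - 1 ∧ l = c - 1 ∧ N = {c - 1, d - 1} then 1 else 0) * T2 N t l := by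
    rw [← sum_add_distrib]
    refine sum_congr rfl fun N _ => ?_
    rw [sum_eq_zero fun t _ => h5 N t, zero_add, ← sum_add_distrib]
    refine sum_congr rfl fun t ht => ?_
    rw [← sum_add_distrib]
    refine sum_congr rfl fun l hl => ?_
    exact h6 N t l ht hl
  have hdc : d - c ≠ 0 := sub_ne_zero.2 h1
  have m1 : c ∈ II c d := by
    rw [mem_II, sub_self, ZMod.val_zero]
    exact Nat.pos_of_ne_zero fun h0 => hdc ((ZMod.val_eq_zero _).1 h0)
  have m2 : d ∈ (II c d)ᶜ := by
    rw [mem_compl, mem_II]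
    exact lt_irrefl _
  have hval : ((d - 1 - c : ZMod n)).val + 1 = (d - c).val := by
    have e : (d - 1 - c : ZMod n) = (d - c) - 1 := by ring
    have hpos : 0 < (d - c).val := Nat.pos_of_ne_zero fun h0 => hdc ((ZMod.val_eq_zero _).1 h0)
    have e2 : (d - c : ZMod n) - 1 = (((d - c).val - 1 : ℕ) : ZMod n) := by
      rw [Nat.cast_sub hpos, Nat.cast_one, ZMod.natCast_zmod_val]
    rw [e, e2, ZMod.val_cast_of_lt (lt_of_le_of_lt (Nat.sub_le _ _) (ZMod.val_lt _))]
    omega
  have m3 : d - 1 ∈ II c d := by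
    rw [mem_II]
    omega
  have m4 : c - 1 ∈ (II c d)ᶜ := by
    rw [mem_compl, mem_II, not_lt]
    have e : (c - 1 - c : ZMod n) = -1 := by ring
    have e2 : ((-1 : ZMod n)).val = n - 1 := by
      have e3 : (-1 : ZMod n) = ((n - 1 : ℕ) : ZMod n) := by
        rw [Nat.cast_sub (by omega), ZMod.natCast_self, Nat.cast_one, zero_sub]
      rw [e3, ZMod.val_cast_of_lt (by omega)]
    rw [e, e2]
    have := ZMod.val_lt (d - c)
    omega
  rw [h7, triple _ _ T2 _ _ _ m1 m2, triple _ _ T2 _ _ _ m3 m4] at h4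
  exact h4

end Pool.Agent.Lib.MP_eacabd_co.Wide8
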