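import Mathlib
import Pool.Agent.Lib.MP_eacabd_co.Wide8.IdAC
import Pool.Agent.Lib.MP_eacabd_co.Wide8.Comb
import Pool.Agent.Lib.MP_eacabd_co.Wide8.Filt2
import Pool.Agent.Lib.MP_eacabd_co.Wide8.Stmts3

/-!
Switching in the wide sense: the terms of the highest degree (module KILL).
-/

set_option autoImplicit false
set_option linter.unusedSectionVars false

namespace Pool.Agent.Lib.MP_eacabd_co.Wide8

open Finset Pool.Agent.Lib.MP_eacabd_co Pool.Agent.Lib.MP_eacabd_co.Gold8

variable {n : ℕ} [NeZero n] {F : Type} [Field F] [Fintype F] [DecidableEq F] [CharP F 2]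
variable {i : ℕ} (hc : Nat.Coprime i n) (hF : Fintype.card F = 2 ^ n)

theorem cf_kpkp {e : ℕ} {g : F → F} (hg : Dg hc hF e g) (κ : F) (a b : ZMod n)
    {E : Finset (ZMod n)} (hE : E.card = e + 2) :
    cf hc hF (fun x => kp i κ a x * (kp i κ b x * g x)) E =
      (if a + 1 ∈ E then ((if b + 1 ∈ E.erase (a + 1) then
          cf hc hF g ((E.erase (a + 1)).erase (b + 1)) else 0)
        + (if b ∈ E.erase (a + 1) then cf hc hF g ((E.erase (a + 1)).erase b) else 0)) else 0)
      + (if a ∈ E then ((if b + 1 ∈ E.erase a then cf hc hF g ((E.erase a).erase (b + 1)) else 0)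
        + (if b ∈ E.erase a then cf hc hF g ((E.erase a).erase b) else 0)) else 0) := by
  rw [cf_kpmul hc hF (Dg.kpmul hc hF hg κ b) κ a (by omega)]
  congr 1
  · by_cases h : a + 1 ∈ E
    · rw [if_pos h, if_pos h, cf_kpmul hc hF hg κ b (by rw [card_erase_of_mem h]; omega)]
    · rw [if_neg h, if_neg h]
  · by_cases h : a ∈ E
    · rw [if_pos h, if_pos h, cf_kpmul hc hF hg κ b (by rw [card_erase_of_mem h]; omega)]
    · rw [if_neg h, if_neg h]

theorem hyp1 (hP : StPlane) (hU : StU) (hV : StV) (hn : 5 ≤ n) {κ : F} (hκ : tr n κ = 1)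
    {h : F → F} (hR : Rel i κ h) {D : ℕ} (hD : 2 ≤ D) (hh : Dg hc hF D h)
    (M : Finset (ZMod n)) (c e : ZMod n) (hM : M.card = D) (m1 : c + 1 ∈ M) (m2 : c ∉ M)
    (m3 : c - 1 ∉ M) (m4 : e + 1 ∈ M) (h1 : e ≠ c) (h2 : e ≠ c + 1) (h3 : e ≠ c - 1) :
    cf hc hF h M = 0 := by
  have : Fact (1 < n) := ⟨by omega⟩
  have k1 := idA_cf hc hF hP hU hV hn hκ hR h1 h2 h3 hD hh hM
  have d1 : Dg hc hF (D - 2) (Wide8.dN hc hF {c + 1, e + 1} h) := by
    apply Dg.dN hc hF hh
    rw [card_pair (fun h0 => h1 (add_right_cancel h0).symm)]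
    omega
  have d2 : Dg hc hF (D - 2) (Wide8.dN hc hF {c - 1, e - 1} h) := by
    apply Dg.dN hc hF hh
    rw [card_pair (fun h0 => h1 (sub_left_injective h0).symm)]
    omega
  rw [cf_kpkp hc hF d1 κ c e (by omega), cf_kpkp hc hF d2 κ (e - 1) (c - 1) (by omega)] at k1
  have n1 : e + 1 ≠ c + 1 := fun h0 => h1 (add_right_cancel h0)
  have n2 : c ∉ M.erase (e - 1 + 1) := fun h0 => m2 (mem_of_mem_erase h0)
  have n3 : c - 1 ∉ M.erase (e - 1 + 1) := fun h0 => m3 (mem_of_mem_erase h0)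
  have n4 : c ∉ M.erase (e - 1) := fun h0 => m2 (mem_of_mem_erase h0)
  have n5 : c - 1 ∉ M.erase (e - 1) := fun h0 => m3 (mem_of_mem_erase h0)
  have n6 : e + 1 ∈ M.erase (c + 1) := mem_erase.2 ⟨n1, m4⟩
  have e1 : cf hc hF (Wide8.dN hc hF {c + 1, e + 1} h) ((M.erase (c + 1)).erase (e + 1))
      = cf hc hF h M := by
    rw [cf_dN, if_pos]
    · rw [insert_union, singleton_union, insert_erase n6, insert_erase m1]
    · rw [disjoint_insert_left, disjoint_singleton_left]
      exact ⟨fun h0 => notMem_erase _ _ (mem_of_mem_erase h0), notMem_erase _ _⟩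
  have e2 : cf hc hF (Wide8.dN hc hF {c + 1, e + 1} h) ((M.erase (c + 1)).erase e) = 0 := by
    rw [cf_dN, if_neg]
    intro h0
    refine disjoint_left.1 h0 (mem_insert_of_mem (mem_singleton_self (e + 1))) ?_
    exact mem_erase.2 ⟨by simp, n6⟩
  rw [if_pos m1, if_pos n6, e1, e2, ite_self, add_zero, if_neg m2, add_zero,
    show c - 1 + 1 = c by ring, if_neg n2, if_neg n3, if_neg n4, if_neg n5, add_zero, ite_self,
    ite_self, add_zero, add_zero] at k1
  exact k1

theorem hyp2 (hP : StPlane) (hU : StU) (hV : StV) (hn : 5 ≤ n) {κ : F} (hκ : tr n κ = 1)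
    {h : F → F} (hR : Rel i κ h) {D : ℕ} (hD : 2 ≤ D) (hh : Dg hc hF D h)
    (M : Finset (ZMod n)) (c e : ZMod n) (hM : M.card = D) (m1 : c - 1 ∉ M) (m2 : c ∈ M)
    (m3 : c + 1 ∈ M) (m4 : e - 1 ∈ M) (m5 : e + 1 ∈ M) (h1 : e ≠ c) (h2 : e ≠ c + 1)
    (h3 : e ≠ c - 1) :
    cf hc hF h M = cf hc hF h (insert (c - 1) (M.erase c)) := by
  have : Fact (1 < n) := ⟨by omega⟩
  have k1 := idA_cf hc hF hP hU hV hn hκ hR h1 h2 h3 hD hh hM
  have d1 : Dg hc hF (D - 2) (Wide8.dN hc hF {c + 1, e + 1} h) := by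
    apply Dg.dN hc hF hh
    rw [card_pair (fun h0 => h1 (add_right_cancel h0).symm)]
    omega
  have d2 : Dg hc hF (D - 2) (Wide8.dN hc hF {c - 1, e - 1} h) := by
    apply Dg.dN hc hF hh
    rw [card_pair (fun h0 => h1 (sub_left_injective h0).symm)]
    omega
  rw [cf_kpkp hc hF d1 κ c e (by omega), cf_kpkp hc hF d2 κ (e - 1) (c - 1) (by omega)] at k1
  have n1 : e + 1 ≠ c + 1 := fun h0 => h1 (add_right_cancel h0)
  have n6 : e + 1 ∈ M.erase (c + 1) := mem_erase.2 ⟨n1, m5⟩
  have e1 : cf hc hF (Wide8.dN hc hF {c + 1, e + 1} h) ((M.erase (c + 1)).erase (e + 1))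
      = cf hc hF h M := by
    rw [cf_dN, if_pos]
    · rw [insert_union, singleton_union, insert_erase n6, insert_erase m3]
    · rw [disjoint_insert_left, disjoint_singleton_left]
      exact ⟨fun h0 => notMem_erase _ _ (mem_of_mem_erase h0), notMem_erase _ _⟩
  have e2 : cf hc hF (Wide8.dN hc hF {c + 1, e + 1} h) ((M.erase (c + 1)).erase e) = 0 := by
    rw [cf_dN, if_neg]
    intro h0
    refine disjoint_left.1 h0 (mem_insert_of_mem (mem_singleton_self (e + 1))) ?_
    exact mem_erase.2 ⟨by simp, n6⟩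
  have e3 : cf hc hF (Wide8.dN hc hF {c + 1, e + 1} h) ((M.erase c).erase (e + 1)) = 0 := by
    rw [cf_dN, if_neg]
    intro h0
    refine disjoint_left.1 h0 (mem_insert_self (c + 1) _) ?_
    exact mem_erase.2 ⟨n1.symm, mem_erase.2 ⟨by simp, m3⟩⟩
  have e4 : cf hc hF (Wide8.dN hc hF {c + 1, e + 1} h) ((M.erase c).erase e) = 0 := by
    rw [cf_dN, if_neg]
    intro h0
    refine disjoint_left.1 h0 (mem_insert_self (c + 1) _) ?_
    exact mem_erase.2 ⟨h2.symm, mem_erase.2 ⟨by simp, m3⟩⟩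
  have n7 : e - 1 ≠ c := fun h0 => h2 (by rw [← h0]; ring)
  have e5 : cf hc hF (Wide8.dN hc hF {c - 1, e - 1} h) ((M.erase (e - 1 + 1)).erase (c - 1 + 1))
      = 0 := by
    rw [cf_dN, if_neg]
    intro h0
    refine disjoint_left.1 h0 (mem_insert_of_mem (mem_singleton_self (e - 1))) ?_
    rw [show e - 1 + 1 = e by ring, show c - 1 + 1 = c by ring]
    exact mem_erase.2 ⟨n7, mem_erase.2 ⟨by simp, m4⟩⟩
  have n3 : c - 1 ∉ M.erase (e - 1 + 1) := fun h0 => m1 (mem_of_mem_erase h0)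
  have n5 : c - 1 ∉ M.erase (e - 1) := fun h0 => m1 (mem_of_mem_erase h0)
  have n8 : c - 1 + 1 ∈ M.erase (e - 1) := by
    rw [show c - 1 + 1 = c by ring]
    exact mem_erase.2 ⟨n7.symm, m2⟩
  have e6 : cf hc hF (Wide8.dN hc hF {c - 1, e - 1} h) ((M.erase (e - 1)).erase (c - 1 + 1))
      = cf hc hF h (insert (c - 1) (M.erase c)) := by
    rw [cf_dN, if_pos]
    · rw [show c - 1 + 1 = c by ring, insert_union, singleton_union, erase_right_comm,
        insert_erase (mem_erase.2 ⟨n7, m4⟩)]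
    · rw [disjoint_insert_left, disjoint_singleton_left]
      exact ⟨fun h0 => m1 (mem_of_mem_erase (mem_of_mem_erase h0)),
        fun h0 => notMem_erase _ _ (mem_of_mem_erase h0)⟩
  rw [if_pos m3, if_pos n6, e1, e2, ite_self, add_zero, if_pos m2, e3, e4, ite_self, ite_self,
    add_zero, add_zero, e5, ite_self, if_neg n3, add_zero, ite_self, zero_add, if_pos m4,
    if_pos n8, e6, if_neg n5, add_zero] at k1
  exact CharTwo.add_eq_zero.1 k1

/-- the coefficients of the first sum of the first identity -/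
theorem cf_first (h : F → F) (E : Finset (ZMod n)) :
    cf hc hF (fun x => ∑ N ∈ univ.filter (fun N : Finset (ZMod n) => N ≠ ∅ ∧ N ≠ univ),
      Wide8.dN hc hF N h x) E = ∑ N ∈ univ.filter (fun N : Finset (ZMod n) => N ≠ ∅ ∧ N ≠ univ),
      (if Disjoint N E then cf hc hF h (N ∪ E) else 0) := by
  rw [cf_sum]
  refine sum_congr rfl fun N _ => ?_
  exact cf_dN hc hF N h E

theorem hyp3 (hO : StOrth) (hP : StPlane) (hn : 5 ≤ n) {κ : F} (hκ : tr n κ = 1)
    {h : F → F} (hR : Rel i κ h) {D : ℕ} (hD : 2 ≤ D) (hh : Dg hc hF D h)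
    (E : Finset (ZMod n)) (hE : E.card + 1 = D) :
    ∑ k ∈ univ \ E, cf hc hF h (insert k E) *
      (1 + (if k - 1 ∈ E then 1 else 0) + (if k + 1 ∈ E then 1 else 0)) = 0 := by
  have hfun : (fun x => ∑ N ∈ univ.filter (fun N : Finset (ZMod n) => N ≠ ∅ ∧ N ≠ univ),
      Wide8.dN hc hF N h x + ∑ t : ZMod n, kp i κ t x * Wide8.dN hc hF {t, t + 1} h x)
      = fun _ => (0 : F) := funext fun x => idB hc hF hO hP (by omega) hκ hR x
  have e0 := cf_zero hc hF (i := i) E
  rw [← hfun, cf_add, cf_first, cf_sum] at e0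
  have e1 : ∑ N ∈ univ.filter (fun N : Finset (ZMod n) => N ≠ ∅ ∧ N ≠ univ),
      (if Disjoint N E then cf hc hF h (N ∪ E) else 0)
      = ∑ k ∈ univ \ E, cf hc hF h (insert k E) := by
    have e2 : ∑ k ∈ univ \ E, cf hc hF h (insert k E)
        = ∑ N ∈ (univ \ E).image (fun k => ({k} : Finset (ZMod n))),
          (if Disjoint N E then cf hc hF h (N ∪ E) else 0) := by
      rw [sum_image (fun a _ b _ hab => singleton_injective hab)]
      refine sum_congr rfl fun k hk => ?_
      rw [if_pos (disjoint_singleton_left.2 (mem_sdiff.1 hk).2), singleton_union]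
    rw [e2]
    symm
    refine sum_subset ?_ ?_
    · intro N hN
      obtain ⟨k, _, rfl⟩ := mem_image.1 hN
      refine mem_filter.2 ⟨mem_univ _, singleton_ne_empty k, ?_⟩
      intro h0
      have h1 : ({k} : Finset (ZMod n)).card = n := by rw [h0, card_univ, ZMod.card]
      rw [card_singleton] at h1
      omega
    · intro N hN hN2
      split_ifs with hd
      · apply hh
        rw [card_union_of_disjoint hd]
        have hne := (mem_filter.1 hN).2.1
        rcases Nat.lt_or_ge N.card 2 with h2 | h2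
        · exfalso
          have h3 : 0 < N.card := card_pos.2 (nonempty_iff_ne_empty.2 hne)
          obtain ⟨k, rfl⟩ := card_eq_one.1 (by omega : N.card = 1)
          apply hN2
          exact mem_image.2 ⟨k, mem_sdiff.2 ⟨mem_univ _, disjoint_singleton_left.1 hd⟩, rfl⟩
        · omega
      · rfl
  have e2 : ∀ t : ZMod n, cf hc hF (fun x => kp i κ t x * Wide8.dN hc hF {t, t + 1} h x) E
      = (if t + 1 ∈ E ∧ t ∉ E then cf hc hF h (insert t E) else 0)
        + (if t ∈ E ∧ t + 1 ∉ E then cf hc hF h (insert (t + 1) E) else 0) := by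
    intro t
    have : Fact (1 < n) := ⟨by omega⟩
    rw [cf_kp_dN hc hF (by omega)]
    have e3 : (if t ∉ E ∧ t + 1 ∉ E then cf hc hF h (insert t (insert (t + 1) E)) else 0) = 0 := by
      split_ifs with h1
      · apply hh
        rw [card_insert_of_notMem, card_insert_of_notMem h1.2]
        · omega
        · rw [mem_insert]
          rintro (h2 | h2)
          · simp at h2
          · exact h1.1 h2
      · rfl
    rw [e3, mul_zero, zero_add]
  rw [e1, sum_congr rfl fun t _ => e2 t, sum_add_distrib] at e0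
  have e3 : ∑ t : ZMod n, (if t ∈ E ∧ t + 1 ∉ E then cf hc hF h (insert (t + 1) E) else 0)
      = ∑ t : ZMod n, (if t - 1 ∈ E ∧ t ∉ E then cf hc hF h (insert t E) else 0) := by
    rw [← Equiv.sum_comp (Equiv.addRight (1 : ZMod n))
      (fun t : ZMod n => if t - 1 ∈ E ∧ t ∉ E then cf hc hF h (insert t E) else 0)]
    refine sum_congr rfl fun t _ => ?_
    show _ = if t + 1 - 1 ∈ E ∧ t + 1 ∉ E then cf hc hF h (insert (t + 1) E) else 0
    rw [add_sub_cancel_right]
  have hu : ∀ G : ZMod n → F, ∑ k ∈ univ \ E, G k = ∑ k : ZMod n, if k ∉ E then G k else 0 := by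
    intro G
    rw [← sum_filter]
    congr 1
    ext k
    simp
  rw [e3, hu] at e0
  rw [hu]
  refine Eq.trans ?_ e0
  rw [← sum_add_distrib, ← sum_add_distrib]
  refine sum_congr rfl fun k _ => ?_
  by_cases hk : k ∈ E
  · simp [hk]
  · by_cases h1 : k - 1 ∈ E
    · by_cases h2 : k + 1 ∈ E
      · simp only [hk, h1, h2, not_false_eq_true, if_true, and_self]
        ring
      · simp only [hk, h1, h2, not_false_eq_true, if_true, and_self, if_false, false_and]
        ring
    · by_cases h2 : k + 1 ∈ E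
      · simp only [hk, h1, h2, not_false_eq_true, if_true, and_self, if_false, false_and]
        ring
      · simp only [hk, h1, h2, not_false_eq_true, if_true, and_self, if_false, false_and]
        ring

/-- the module KILL -/
theorem kill (hO : StOrth) (hP : StPlane) (hU : StU) (hV : StV) : StKill := by
  intro i n _ hn hc F _ _ _ _ hF κ h hκ hR d hd hh
  obtain ⟨a1, a2, a3, a4⟩ := comb n hn F (cf hc hF h) d hd
    (fun M c e => hyp1 hc hF hP hU hV hn hκ hR hd hh M c e)
    (fun M c e => hyp2 hc hF hP hU hV hn hκ hR hd hh M c e)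
    (fun E hE => hyp3 hc hF hO hP hn hκ hR hd hh E hE)
  refine ⟨?_, a2, a3, a4⟩
  intro h1 h2 M hM
  rcases Nat.lt_or_ge d M.card with h3 | h3
  · exact hh M h3
  · exact a1 h1 h2 M (by omega)

end Pool.Agent.Lib.MP_eacabd_co.Wide8
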